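import Pool.Agent.H9.JN.C89

set_option autoImplicit false
set_option linter.unusedSectionVars false

/-!
# JP Adapt: generators adapted to a submodule

`exists_adapted`: if `y : Fin k → J` is independent modulo `J^2` and `span y + M + J^2 = J`, there are generators
`x : Fin (ngen) → J` that start with `y` and whose other members are in `M`.
-/

namespace JD

universe u

open Module

variable {F : Type u} [Field F] {J : Type u} [NonUnitalNonAssocCommRing J] [Module F J]
  [IsScalarTower F J J] [SMulCommClass F J J]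

theorem exists_adapted [Module.Finite F J] (hn : IsNilpotentAlg F J) {k : ℕ} (y : Fin k → J)
    (hy : LinearIndependent F (fun i => (jpow F J 2).mkQ (y i))) (hk : k ≤ ngen F J)
    (M : Submodule F J) (hM : Submodule.span F (Set.range y) ⊔ M ⊔ jpow F J 2 = ⊤) :
    ∃ x : Fin (ngen F J) → J, Gens F J x ∧ (∀ i : Fin k, x (Fin.castLE hk i) = y i) ∧
      ∀ i : Fin (ngen F J), k ≤ (i : ℕ) → x i ∈ M := by
  classical
  obtain ⟨x', hx', hx'y⟩ := exists_gens_ext hn y hy hk
  have hdec : ∀ i, ∃ s ∈ Submodule.span F (Set.range y), ∃ m ∈ M, ∃ q ∈ jpow F J 2,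
      x' i = s + m + q := by
    intro i
    have h : x' i ∈ Submodule.span F (Set.range y) ⊔ M ⊔ jpow F J 2 := by rw [hM]; trivial
    obtain ⟨a, ha, q, hq, h1⟩ := Submodule.mem_sup.mp h
    obtain ⟨s, hs, m, hm, h2⟩ := Submodule.mem_sup.mp ha
    exact ⟨s, hs, m, hm, q, hq, by rw [h2, h1]⟩
  choose s hs m hm q hq hdec using hdec
  let x : Fin (ngen F J) → J := fun i => if (i : ℕ) < k then x' i else m i
  have hxlt : ∀ i : Fin (ngen F J), (i : ℕ) < k → x i = x' i := fun i hi => if_pos hi
  have hxge : ∀ i : Fin (ngen F J), k ≤ (i : ℕ) → x i = m i := fun i hi => if_neg (by omega)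
  have hxy : ∀ i : Fin k, x (Fin.castLE hk i) = y i := by
    intro i
    rw [hxlt _ (by simp), hx'y]
  have hys : Submodule.span F (Set.range y) ≤ Submodule.span F (Set.range x) := by
    rw [Submodule.span_le]
    rintro _ ⟨i, rfl⟩
    rw [← hxy i]
    exact Submodule.subset_span ⟨_, rfl⟩
  -- the old generators are in `span x + J^2`
  have hx'x : ∀ i, x' i ∈ Submodule.span F (Set.range x) ⊔ jpow F J 2 := by
    intro i
    rcases Nat.lt_or_ge (i : ℕ) k with hi | hi
    · rw [← hxlt i hi]
      exact Submodule.mem_sup_left (Submodule.subset_span ⟨i, rfl⟩)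
    · rw [hdec i]
      refine Submodule.add_mem _ (Submodule.add_mem _ (Submodule.mem_sup_left (hys (hs i))) ?_)
        (Submodule.mem_sup_right (hq i))
      rw [← hxge i hi]
      exact Submodule.mem_sup_left (Submodule.subset_span ⟨i, rfl⟩)
  have htop : Submodule.span F (Set.range x) ⊔ jpow F J 2 = ⊤ := by
    -- the images of `x'` form a basis of `J / J^2`
    have hspan : Submodule.span F (Set.range fun i => (jpow F J 2).mkQ (x' i)) = ⊤ :=
      hx'.indep.span_eq_top_of_card_eq_finrank' (by rw [Fintype.card_fin]; rfl)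
    rw [eq_top_iff]
    intro a _
    have h1 : (jpow F J 2).mkQ a ∈ Submodule.span F (Set.range fun i => (jpow F J 2).mkQ (x' i)) := by
      rw [hspan]; trivial
    have h2 : Set.range (fun i => (jpow F J 2).mkQ (x' i)) =
        (jpow F J 2).mkQ '' Set.range x' := by
      rw [← Set.range_comp]; rfl
    rw [h2, Submodule.span_image] at h1
    obtain ⟨b, hb, hab⟩ := h1
    have h3 : a - b ∈ jpow F J 2 := by
      rw [← Submodule.Quotient.mk_eq_zero, Submodule.Quotient.mk_sub, sub_eq_zero]
      exact hab.symm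
    have h4 : Submodule.span F (Set.range x') ≤ Submodule.span F (Set.range x) ⊔ jpow F J 2 := by
      rw [Submodule.span_le]
      rintro _ ⟨i, rfl⟩
      exact hx'x i
    have : a = b + (a - b) := by abel
    rw [this]
    exact Submodule.add_mem _ (h4 hb) (Submodule.mem_sup_right h3)
  refine ⟨x, ⟨fun T hT hmul => gen_of_span hn x htop T hT hmul, ?_⟩, hxy, fun i hi => ?_⟩
  · refine linearIndependent_of_top_le_span_of_card_eq_finrank ?_ (by rw [Fintype.card_fin]; rfl)
    have h2 : Set.range (fun i => (jpow F J 2).mkQ (x i)) = (jpow F J 2).mkQ '' Set.range x := by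
      rw [← Set.range_comp]; rfl
    rw [h2, Submodule.span_image, ← Submodule.range_mkQ (jpow F J 2), LinearMap.range_eq_map, ← htop,
      Submodule.map_sup]
    refine sup_le le_rfl ?_
    rw [Submodule.map_le_iff_le_comap]
    intro b hb
    rw [Submodule.mem_comap, Submodule.mkQ_apply, (Submodule.Quotient.mk_eq_zero (jpow F J 2)).mpr hb]
    exact Submodule.zero_mem _
  · rw [hxge i hi]
    exact hm i

theorem exists_adapted' [Module.Finite F J] (hn : IsNilpotentAlg F J) {N : ℕ}
    (hN : ngen F J = N) {k : ℕ} (y : Fin k → J)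
    (hy : LinearIndependent F (fun i => (jpow F J 2).mkQ (y i))) (hk : k ≤ N)
    (M : Submodule F J) (hM : Submodule.span F (Set.range y) ⊔ M ⊔ jpow F J 2 = ⊤) :
    ∃ x : Fin N → J, Gens F J x ∧ (∀ i : Fin k, x (Fin.castLE hk i) = y i) ∧
      ∀ i : Fin N, k ≤ (i : ℕ) → x i ∈ M := by
  subst hN
  exact exists_adapted hn y hy hk M hM

end JD
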