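import Pool.Agent.H9.JP.Step6
import Pool.Agent.H9.JP.Adapt

set_option autoImplicit false
set_option linter.unusedSectionVars false

/-!
# JP W6: class 6, the graded algebra of the powers has `dim D_1 = 1`, `dim J^2 ≤ 7`: weights `2, 3, .., 3`
-/

namespace JD

universe u

open Module

variable {F : Type u} [Field F] {J : Type u} [NonUnitalNonAssocCommRing J] [Module F J]
  [IsScalarTower F J J] [SMulCommClass F J J] [Module.Finite F J] [Infinite F]
  {A : Type u} [NonUnitalNonAssocCommRing A] [Module F A] [IsScalarTower F A A]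
  [SMulCommClass F A A] {D : ℕ → Submodule F A} {π : ℕ → J →ₗ[F] A}

/-- if `D 1 = F v` then `D n = F v^n` -/
theorem GJ.line {c : ℕ} (hG : GJ F A c D) {v : A} (hv : v ∈ D 1)
    (h1 : ∀ w ∈ D 1, ∃ k : F, w = k • v) {n : ℕ} (hn : 1 ≤ n) :
    D n ≤ Submodule.span F {xp v n} := by
  have h2 := hG.two
  have hJ := hG.jordan
  induction n using Nat.strong_induction_on with
  | _ n ih =>
    obtain h | h | h : n = 1 ∨ n = 2 ∨ 3 ≤ n := by omega
    · subst h
      intro w hw
      obtain ⟨k, rfl⟩ := h1 w hw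
      exact Submodule.smul_mem _ k (Submodule.mem_span_singleton_self _)
    · subst h
      refine hG.gen2 _ fun a ha b hb => ?_
      obtain ⟨k, rfl⟩ := h1 a ha
      obtain ⟨l, rfl⟩ := h1 b hb
      rw [smul_mul_smul_comm]
      exact Submodule.smul_mem _ _ (Submodule.mem_span_singleton_self _)
    · refine hG.gen n h _ (fun a ha b hb => ?_) (fun a ha b hb => ?_)
      · obtain ⟨k, hk⟩ := Submodule.mem_span_singleton.mp (ih 1 (by omega) le_rfl ha)
        obtain ⟨l, hl⟩ := Submodule.mem_span_singleton.mp (ih (n - 1) (by omega) (by omega) hb)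
        rw [← hk, ← hl, smul_mul_smul_comm, xp_mul F h2 hJ v le_rfl (by omega : 1 ≤ n - 1),
          show 1 + (n - 1) = n by omega]
        exact Submodule.smul_mem _ _ (Submodule.mem_span_singleton_self _)
      · obtain ⟨k, hk⟩ := Submodule.mem_span_singleton.mp (ih 2 (by omega) (by norm_num) ha)
        obtain ⟨l, hl⟩ := Submodule.mem_span_singleton.mp (ih (n - 2) (by omega) (by omega) hb)
        rw [← hk, ← hl, smul_mul_smul_comm, xp_mul F h2 hJ v (by norm_num) (by omega : 1 ≤ n - 2),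
          show 2 + (n - 2) = n by omega]
        exact Submodule.smul_mem _ _ (Submodule.mem_span_singleton_self _)

theorem weights6 (h2 : (2 : F) ≠ 0) (hJ : IsJordan J) {e : J} (he : e ≠ 0)
    (hbot : jpow F J 7 = ⊥)
    (hann : ∀ z : J, (∀ a : J, a * z = 0) → ∃ r : F, z = r • e)
    (hG : GJ F A 6 D)
    (hmap : ∀ i, 1 ≤ i → (jpow F J i).map (π i) = D i)
    (hmul : ∀ i j, 1 ≤ i → 1 ≤ j → ∀ a ∈ jpow F J i, ∀ b ∈ jpow F J j,
      π (i + j) (a * b) = π i a * π j b)
    (hkill : ∀ i, 1 ≤ i → ∀ a ∈ jpow F J (i + 1), π i a = 0)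
    (hinj : ∀ a ∈ jpow F J 6, π 6 a = 0 → a = 0)
    (d1 : finrank F (D 1) = 1)
    (hd : finrank F (jpow F J 2) ≤ 7) {n : ℕ} (hn : ngen F J = n + 1) :
    ∃ (x : Fin (n + 1) → J) (Φ : ℕ → Submodule F J), Gens F J x ∧ xp (x 0) 6 ≠ 0 ∧
      Filt F x (fun i => if i = 0 then 2 else 3) Φ ∧ Φ 13 = ⊥ := by
  have hnil : IsNilpotentAlg F J := ⟨7, by norm_num, hbot⟩
  have hfinA := hG.fin
  obtain ⟨v, hv, hv0, φ, hφv, hφ⟩ := exists_coord d1
  have hline : ∀ w ∈ D 1, ∃ k : F, w = k • v := fun w hw => ⟨_, hφ w hw⟩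
  -- `v^6 ≠ 0`
  have hv6 : xp v 6 ≠ 0 := by
    intro h0
    have h1 := hG.line hv hline (n := 6) (by norm_num)
    rw [h0, Submodule.span_zero_singleton, le_bot_iff] at h1
    have h3 := hG.top
    rw [h1, finrank_bot] at h3
    exact absurd h3 (by norm_num)
  obtain ⟨x0, hx0⟩ : ∃ x : J, π 1 x = v := by
    rw [← hmap 1 le_rfl] at hv
    obtain ⟨x, -, hx⟩ := hv
    exact ⟨x, hx⟩
  have hπ1 : ∀ a : J, π 1 a ∈ D 1 := by
    intro a
    rw [← hmap 1 le_rfl]
    exact ⟨a, mem_jpow_one a, rfl⟩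
  -- generators
  obtain ⟨x', hx', hxy', hxM'⟩ := exists_adapted' hnil hn (fun _ : Fin 1 => x0) (by
    rw [linearIndependent_unique_iff]
    intro h
    rw [Submodule.mkQ_apply, Submodule.Quotient.mk_eq_zero] at h
    have := hkill 1 le_rfl _ h
    rw [hx0] at this
    exact hv0 this) (by omega) (LinearMap.ker (π 1)) (by
    rw [eq_top_iff]
    intro a _
    refine Submodule.mem_sup_left ?_
    obtain ⟨k, hk⟩ := hline _ (hπ1 a)
    have : a = k • x0 + (a - k • x0) := by abel
    rw [this]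
    refine Submodule.add_mem_sup ?_ ?_
    · exact Submodule.smul_mem _ _ (Submodule.subset_span ⟨0, rfl⟩)
    · rw [LinearMap.mem_ker, map_sub, map_smul, hx0, hk, sub_self])
  obtain ⟨x, hx, hxx0, hxM⟩ : ∃ x : Fin (n + 1) → J, Gens F J x ∧ x 0 = x0 ∧
      ∀ i, i ≠ 0 → π 1 (x i) = 0 := by
    refine ⟨x', hx', hxy' 0, fun i hi => ?_⟩
    refine LinearMap.mem_ker.mp (hxM' i ?_)
    rw [Nat.one_le_iff_ne_zero]
    intro h0
    exact hi (Fin.ext h0)
  -- the monomials of degree 6
  have hval : ∀ t, π (dg t) (mev x t) = mev (fun i => π 1 (x i)) t := by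
    intro t
    induction t with
    | ih1 i => rfl
    | ih2 s t ihs iht =>
      have h1 : 1 ≤ dg s := mw_pos _ (fun _ => le_rfl) s
      have h3 : 1 ≤ dg t := mw_pos _ (fun _ => le_rfl) t
      have e : dg (s * t) = dg s + dg t := rfl
      rw [e, mev_mul, hmul _ _ h1 h3 _ (mev_mem_jpow x s) _ (mev_mem_jpow x t), ihs, iht, mev_mul]
  have hzero : ∀ t : FreeMagma (Fin (n + 1)), 1 ≤ mw (lw 0 1) t →
      mev (fun i => π 1 (x i)) t = 0 := by
    intro t ht
    induction t with
    | ih1 i =>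
      rw [mw_of] at ht
      unfold lw at ht
      split_ifs at ht with h
      · omega
      · exact hxM i h
    | ih2 s t ihs iht =>
      rw [mw_mul] at ht
      rw [mev_mul]
      rcases Nat.eq_zero_or_pos (mw (lw 0 1) s) with h | h
      · rw [iht (by omega), mul_zero]
      · rw [ihs h, zero_mul]
  have hsix : ∀ t : FreeMagma (Fin (n + 1)), dg t = 6 → 1 ≤ mw (lw 0 1) t → mev x t = 0 := by
    intro t ht hW
    have h1 := hval t
    rw [hzero t hW, ht] at h1
    refine hinj _ ?_ h1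
    have := mev_mem_jpow (F := F) x t
    rwa [ht] at this
  have hfive : ∀ t : FreeMagma (Fin (n + 1)), dg t = 5 → 1 ≤ mw (lw 0 1) t →
      ∃ k : F, mev x t = k • e := by
    intro t ht hW
    refine hann _ fun a => ?_
    have ha : a ∈ cf F x (fun _ => 1) 1 := by
      rw [cf_top x _ hx.gen (fun _ => le_rfl)]
      trivial
    have hle : cf F x (fun _ => 1) 1 ≤ LinearMap.ker (LinearMap.mulRight F (mev x t)) := by
      refine cf_le x _ fun s hs => ?_
      rw [LinearMap.mem_ker, LinearMap.mulRight_apply, ← mev_mul]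
      have e1 : dg (s * t) = dg s + dg t := rfl
      rcases Nat.eq_or_lt_of_le hs with h | h
      · refine hsix _ ?_ ?_
        · rw [e1, ht]
          have : dg s = 1 := h.symm
          omega
        · change 1 ≤ mw (lw 0 1) s + mw (lw 0 1) t
          omega
      · have := jpow_anti (F := F) (J := J) (m := 7) (n := dg (s * t)) (by
          rw [e1, ht]
          have : 1 < dg s := h
          omega) (mev_mem_jpow x (s * t))
        rw [hbot] at this
        exact (Submodule.mem_bot F).1 this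
    exact hle ha
  have hpow : xp (x 0) 6 ≠ 0 := by
    intro h0
    have h1 := hval (pm 5)
    rw [mev_pm, mev_pm, h0, map_zero, hxx0, hx0] at h1
    exact hv6 h1.symm
  have hS : S6 F x e := ⟨h2, hJ, inferInstance, inferInstance, he, hbot, hx.gen, hsix, hfive, hpow,
    hd⟩
  exact ⟨x, cf F x (lw 2 3), hx, hpow, cf_filt x (lw 2 3), hS.final⟩

end JD
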