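import Pool.Agent.H9.JP.Adapt

set_option autoImplicit false
set_option linter.unusedSectionVars false

/-!
# JP W7: class 7, `x0^7 ≠ 0`, `dim J^2 ≤ 7`: generators of weights `1, 2, 2, ..., 2`

`J^7 = F e ≠ 0`, `J^8 = 0`, `x := x0`, `x^i := xp x i` (`xp_mul`: `x^i x^j = x^(i+j)`, `xp_mem`: `x^i ∈ J^i`, `x^7 ≠ 0`, `x^i = 0` for `i ≥ 8`).
All multiplications below are in `J`; identities `gJ1 .. gJ4` (file `H9/JH/Defs.lean`).

STEP 1 (splitting). `φ : J → F` linear, `φ (x^7) = 1`, `φ (x^i) = 0` for `1 ≤ i ≤ 6` (`x, .., x^7` are independent: multiply a relation by a power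
of `x`). `M := {m | φ (m) = 0, φ (x m) = 0, ..., φ (x (x .. m)) = 0}` (`L_x^i m`, `i = 0..7`). `x M ⊆ M`. For `a ∈ J` put
`k_i = φ (L_x^(7-i) a)`, `i = 1..7`; then `a - ∑ k_i x^i ∈ M` (`L_x^j x^i = x^(i+j)`; `L_x^7 a ∈ J^8 = 0`), and if `a ∈ J^s` then `k_i = 0` for `i < s`
(`L_x^(7-i) a ∈ J^(7-i+s) = 0`). An element of `M` of the form `∑ k_i x^i` is `0`. So `J = C ⊕ M` with `C = span (x, .., x^7)`, and `J^s = C_(≥ s) ⊕ (M ⊓ J^s)`
for `s ≥ 1`; `dim (M ⊓ J^2) = dim J^2 - 6 ≤ 1`: choose `q` with `M ⊓ J^2 = F q` (`q = 0` possible; then everything below is easier).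
STEP 2 (multiplication by `x`, `x^2`, ...). NILPOTENCY: if `q ≠ 0` let `q ∈ J^s`, `q ∉ J^(s+1)`, `s ≥ 2`; if `a q = λ q + c`, `c ∈ C`, then `λ = 0` and in general: the `M`-component of `a q` is in `M ⊓ J^(s+1) = 0`.
 So `a q ∈ C` for all `a ∈ J`. `x q ∈ C ⊓ M = 0`. `x (x^2 q) = x^2 (x q) = 0`, `x^2 q ∈ C`: `x^2 q = ζ x^7`. For `w ∈ M`: `x w = α(w) q` (`x w ∈ M ⊓ J^2`).
 `x (x^2 w) = x^2 (x w) = α(w) ζ x^7`, so `x^2 w = β(w) q + α(w) ζ x^6 + φ'(w) x^7` for some scalars (split `x^2 w = c + m`: `x c = α ζ x^7`, `m ∈ M ⊓ J^2`).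
 By `gJ4` (`L_(x^(n+2)) = 2 L_(x^(n+1)) L_x + L_(x^2) L_(x^n) - L_(x^n) L_x^2 - L_x^2 L_(x^n)`): `x^3 w = 3 α ζ x^7`, `x^4 w = β ζ x^7`, `x^5 w = x^6 w = 0`, `x^i q = 0` for `i ≥ 3`.
STEP 3. `g(w) := w q ∈ C`, `h := q q ∈ C`. `gJ3 x x w q`: `x^2 g(w) = 2 α(w) x h` (`w x^7 = 0`). `gJ3 x x q w`: `x^2 g(w) = β(w) h` (`q x^6 = q x^7 = 0`). So `β(w) h = 2 α(w) x h`: if `β(w) ≠ 0` for some `w` then `h = 0`
 (compare the lowest powers of `x`); if `β = 0` then `α = 0` or `x h = 0`, i.e. `h = h_0 x^7`. In all cases `x^2 g(w) = 0`, so `g(w) = g_1(w) x^6 + g_0(w) x^7`. So `w' g(w) = 0`.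
STEP 4. `w w' = c(w,w') + ν(w,w') q` (`w, w' ∈ M`, `c ∈ C`, in fact in `C_(≥2)`). `gJ3 x x w w'`: `x^2 (w w') + 2 (x w)(x w') = w (x^2 w') + 2 x ((x w) w')`, i.e.
 `x^2 c(w,w') + ν ζ x^7 + 2 α α' h = β' g(w) + 2 α g_1(w') x^7`; here `α α' h ∈ F x^7` by Step 3. So `x^2 c(w,w') ∈ span (x^6, x^7)`: `c(w,w') ∈ span (x^4, .., x^7)`.
STEP 5 (`h = 0`). Suppose `h ≠ 0`; so `q ≠ 0` and `β = 0`. `gJ1 w w`: `(w w)(w w) = w ((w w) w)`: left side `= ν(w,w)^2 h` (`c c = 0`, `c q = 0`), right side `= w (c w + ν g(w)) = 0` (`c w ∈ F x^7`). So `ν(w,w) = 0` for all `w ∈ M`,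
 `ν = 0` by polarisation. `gJ3 w w x x` (on `x`): `(w w) x^2 + 2 (x w)(x w) = x ((w w) x) + 2 w (x (x w))`, `x (x w) = 0`, so `x^2 c + 2 α(w)^2 h = x^2 c` (as `ν = 0`): `α(w)^2 h = 0`: `α = 0`. Now `α = β = ν = 0`: `C + (M-part)`:
 all products of elements of `J` are in `C` (`J = C + M`; `x^i x^j ∈ C`, `x^i w ∈ C`, `w w' ∈ C`): `J^2 ⊆ C`, so `q ∈ C ⊓ M = 0`. Contradiction.
STEP 6 (generators, filtration). `x0 ∉ J^2` (`xp_notMem`), `span x0 ⊔ M ⊔ J^2 = ⊤`: `exists_adapted` (file `Adapt`) with `k = 1`, `y 0 = x0` gives `x : Fin (n+1) → J` (`hn ▸`), `x 0 = x0`, `x i ∈ M` for `i ≠ 0`. `C_(≥ s) := span {x0^i | s ≤ i}`.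
 `Φ 0 = Φ 1 = ⊤`, `Φ 2 = C_(≥2) + M`, `Φ 3 = C_(≥3) + F q`, `Φ 4 = C_(≥4) + F q`, `Φ s = C_(≥ s)` for `s ≥ 5` (`= 0` for `s ≥ 8`). `mul_mem`: weights `x^i : i`, `M : 2`, `q : 4`: `x^i x^j = x^(i+j)`, `x w = α q` (3 ≤ 4),
 `x^2 w` (4), `x^3 w ∈ F x^7` (5 ≤ 7), `x^4 w` (6 ≤ 7), `x^i w = 0` (`i ≥ 5`), `x q = 0`, `x^2 q ∈ F x^7` (6 ≤ 7), `x^i q = 0` (`i ≥ 3`), `w w' ∈ C_(≥4) + F q` (4), `w q ∈ C_(≥6)` (6), `q q = 0`.
-/

namespace JD

universe u

open Module

variable {F : Type u} [Field F] {J : Type u} [NonUnitalNonAssocCommRing J] [Module F J]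
  [IsScalarTower F J J] [SMulCommClass F J J] [Module.Finite F J] [Infinite F]

/-- the situation after Step 1 -/
structure W7_Ctx (x : J) (K : ℕ → J →ₗ[F] F) (M : Submodule F J) (q : J) : Prop where
  two : (2 : F) ≠ 0
  jordan : IsJordan J
  bot : jpow F J 8 = ⊥
  Kx : ∀ i j, 1 ≤ i → i ≤ 7 → 1 ≤ j → K i (xp x j) = if i = j then 1 else 0
  Kp : ∀ s i, 1 ≤ i → i ≤ 7 → i < s → ∀ a ∈ jpow F J s, K i a = 0
  K1 : ∀ a, K 1 (x * a) = 0
  Ks : ∀ i, 1 ≤ i → i ≤ 6 → ∀ a, K (i + 1) (x * a) = K i a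
  memM : ∀ m, m ∈ M ↔ ∀ i, 1 ≤ i → i ≤ 7 → K i m = 0
  qM : q ∈ M
  q2 : q ∈ jpow F J 2
  Mq : ∀ m ∈ M, m ∈ jpow F J 2 → ∃ c : F, m = c • q

/-- the projection to `span (x, .., x^7)` -/
noncomputable def W7_P (x : J) (K : ℕ → J →ₗ[F] F) : J →ₗ[F] J :=
  (K 1).smulRight (xp x 1) + (K 2).smulRight (xp x 2) + (K 3).smulRight (xp x 3) +
    (K 4).smulRight (xp x 4) + (K 5).smulRight (xp x 5) + (K 6).smulRight (xp x 6) +
    (K 7).smulRight (xp x 7)

theorem W7_P_apply (x : J) (K : ℕ → J →ₗ[F] F) (a : J) :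
    W7_P x K a = K 1 a • xp x 1 + K 2 a • xp x 2 + K 3 a • xp x 3 + K 4 a • xp x 4 +
      K 5 a • xp x 5 + K 6 a • xp x 6 + K 7 a • xp x 7 := rfl

theorem W7_span_mul (S T : Set J) (U : Submodule F J) (h : ∀ a ∈ S, ∀ b ∈ T, a * b ∈ U) :
    ∀ a ∈ Submodule.span F S, ∀ b ∈ Submodule.span F T, a * b ∈ U := by
  intro a ha b hb
  have h1 : ∀ a ∈ S, Submodule.span F T ≤ U.comap (LinearMap.mulLeft F a) := by
    intro a ha
    rw [Submodule.span_le]
    intro b hb
    exact h a ha b hb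
  have h2 : Submodule.span F S ≤ U.comap (LinearMap.mulRight F b) := by
    rw [Submodule.span_le]
    intro a ha
    exact h1 a ha hb
  exact h2 ha

namespace W7_Ctx

variable {x : J} {K : ℕ → J →ₗ[F] F} {M : Submodule F J} {q : J}

theorem z8 (C : W7_Ctx x K M q) {s : ℕ} (hs : 8 ≤ s) {a : J} (ha : a ∈ jpow F J s) : a = 0 := by
  have := jpow_anti hs ha
  rwa [C.bot, Submodule.mem_bot] at this

theorem xz (C : W7_Ctx x K M q) {i : ℕ} (hi : 8 ≤ i) : xp x i = 0 :=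
  C.z8 hi (xp_mem (F := F) x (by omega))

theorem KP (C : W7_Ctx x K M q) {i : ℕ} (hi : 1 ≤ i) (hi7 : i ≤ 7) (a : J) :
    K i (W7_P x K a) = K i a := by
  rw [W7_P_apply]
  simp only [map_add, map_smul, smul_eq_mul]
  rw [C.Kx i 1 hi hi7 (by norm_num), C.Kx i 2 hi hi7 (by norm_num), C.Kx i 3 hi hi7 (by norm_num),
    C.Kx i 4 hi hi7 (by norm_num), C.Kx i 5 hi hi7 (by norm_num), C.Kx i 6 hi hi7 (by norm_num),
    C.Kx i 7 hi hi7 (by norm_num)]
  obtain rfl | rfl | rfl | rfl | rfl | rfl | rfl :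
    i = 1 ∨ i = 2 ∨ i = 3 ∨ i = 4 ∨ i = 5 ∨ i = 6 ∨ i = 7 := by omega
  all_goals norm_num

theorem subM (C : W7_Ctx x K M q) (a : J) : a - W7_P x K a ∈ M := by
  rw [C.memM]
  intro i hi hi7
  rw [map_sub, C.KP hi hi7, sub_self]

theorem PM (C : W7_Ctx x K M q) {a : J} (ha : a ∈ M) : W7_P x K a = 0 := by
  rw [C.memM] at ha
  rw [W7_P_apply, ha 1 (by norm_num) (by norm_num), ha 2 (by norm_num) (by norm_num),
    ha 3 (by norm_num) (by norm_num), ha 4 (by norm_num) (by norm_num),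
    ha 5 (by norm_num) (by norm_num), ha 6 (by norm_num) (by norm_num),
    ha 7 (by norm_num) (by norm_num)]
  simp only [zero_smul, add_zero]

theorem Pmem (C : W7_Ctx x K M q) {s : ℕ} {a : J} (ha : a ∈ jpow F J s) :
    W7_P x K a ∈ jpow F J s := by
  have h : ∀ i, 1 ≤ i → i ≤ 7 → K i a • xp x i ∈ jpow F J s := by
    intro i hi hi7
    rcases Nat.lt_or_ge i s with h | h
    · rw [C.Kp s i hi hi7 h a ha, zero_smul]
      exact Submodule.zero_mem _
    · exact Submodule.smul_mem _ _ (jpow_anti h (xp_mem x hi))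
  rw [W7_P_apply]
  exact Submodule.add_mem _ (Submodule.add_mem _ (Submodule.add_mem _ (Submodule.add_mem _
    (Submodule.add_mem _ (Submodule.add_mem _ (h 1 (by norm_num) (by norm_num))
    (h 2 (by norm_num) (by norm_num))) (h 3 (by norm_num) (by norm_num)))
    (h 4 (by norm_num) (by norm_num))) (h 5 (by norm_num) (by norm_num)))
    (h 6 (by norm_num) (by norm_num))) (h 7 (by norm_num) (by norm_num))

theorem dec2 (C : W7_Ctx x K M q) {a : J} (ha : a ∈ jpow F J 2) :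
    ∃ l : F, a = W7_P x K a + l • q := by
  obtain ⟨l, hl⟩ := C.Mq _ (C.subM a) (Submodule.sub_mem _ ha (C.Pmem ha))
  exact ⟨l, by rw [← hl]; abel⟩

theorem PX (C : W7_Ctx x K M q) {i : ℕ} (hi : 1 ≤ i) : W7_P x K (xp x i) = xp x i := by
  rcases Nat.lt_or_ge 7 i with h | h
  · rw [C.xz (by omega), map_zero]
  rw [W7_P_apply, C.Kx 1 i (by norm_num) (by norm_num) hi, C.Kx 2 i (by norm_num) (by norm_num) hi,
    C.Kx 3 i (by norm_num) (by norm_num) hi, C.Kx 4 i (by norm_num) (by norm_num) hi,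
    C.Kx 5 i (by norm_num) (by norm_num) hi, C.Kx 6 i (by norm_num) (by norm_num) hi,
    C.Kx 7 i (by norm_num) (by norm_num) hi]
  obtain rfl | rfl | rfl | rfl | rfl | rfl | rfl :
    i = 1 ∨ i = 2 ∨ i = 3 ∨ i = 4 ∨ i = 5 ∨ i = 6 ∨ i = 7 := by omega
  all_goals norm_num

/-- an element that is a multiple of itself times something is zero -/
theorem nil (C : W7_Ctx x K M q) {a : J} (h : ∀ n, 1 ≤ n → a ∈ jpow F J n → a ∈ jpow F J (n + 1)) :
    a = 0 := by
  have key : ∀ n, 1 ≤ n → a ∈ jpow F J n := by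
    intro n hn
    induction n, hn using Nat.le_induction with
    | base => exact mem_jpow_one a
    | succ n hn ih => exact h n hn ih
  exact C.z8 le_rfl (key 8 (by norm_num))

theorem aq (C : W7_Ctx x K M q) (a : J) : W7_P x K (a * q) = a * q := by
  obtain ⟨l, hl⟩ := C.dec2 (mul_mem' (F := F) 2 (by norm_num) (mem_jpow_one a) (mem_jpow_one q))
  by_cases h0 : l = 0
  · rw [h0, zero_smul, add_zero] at hl
    exact hl.symm
  have hq : q = 0 := by
    refine C.nil fun n hn hqn => ?_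
    have h1 : a * q ∈ jpow F J (n + 1) := mul_mem' _ (by omega) (mem_jpow_one a) hqn
    have h2 : l • q ∈ jpow F J (n + 1) := by
      have : l • q = a * q - W7_P x K (a * q) := by rw [eq_sub_iff_add_eq, add_comm]; exact hl.symm
      rw [this]
      exact Submodule.sub_mem _ h1 (C.Pmem h1)
    exact (Submodule.smul_mem_iff _ h0).mp h2
  rw [hq, mul_zero, map_zero]

theorem xM (C : W7_Ctx x K M q) {m : J} (hm : m ∈ M) : x * m ∈ M := by
  rw [C.memM] at hm ⊢
  intro i hi hi7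
  rcases Nat.eq_or_lt_of_le hi with rfl | hi1
  · exact C.K1 m
  · obtain ⟨j, rfl⟩ : ∃ j, i = j + 1 := ⟨i - 1, by omega⟩
    rw [C.Ks j (by omega) (by omega)]
    exact hm j (by omega) (by omega)

theorem xq (C : W7_Ctx x K M q) : x * q = 0 := by
  rw [← C.aq x]
  exact C.PM (C.xM C.qM)

theorem xX {i : ℕ} (hi : 1 ≤ i) : x * xp x i = xp x (i + 1) := (xp_succ x hi).symm

/-- `x^2 c = x (x c)` -/
theorem sqC (C : W7_Ctx x K M q) {c : J} (hc : W7_P x K c = c) : (x * x) * c = x * (x * c) := by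
  rw [← hc, W7_P_apply]
  simp only [mul_add, mul_smul_comm]
  rw [xp_sq_mul C.jordan x (by norm_num : 1 ≤ 1), xp_sq_mul C.jordan x (by norm_num : 1 ≤ 2),
    xp_sq_mul C.jordan x (by norm_num : 1 ≤ 3), xp_sq_mul C.jordan x (by norm_num : 1 ≤ 4),
    xp_sq_mul C.jordan x (by norm_num : 1 ≤ 5), xp_sq_mul C.jordan x (by norm_num : 1 ≤ 6),
    xp_sq_mul C.jordan x (by norm_num : 1 ≤ 7)]
  rfl

theorem Ksq (C : W7_Ctx x K M q) {c : J} (hc : W7_P x K c = c) {i : ℕ} (hi : 1 ≤ i) (hi5 : i ≤ 5) :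
    K (i + 2) ((x * x) * c) = K i c := by
  rw [C.sqC hc, C.Ks (i + 1) (by omega) (by omega), C.Ks i hi (by omega)]

theorem eq67 (C : W7_Ctx x K M q) {c : J} (hc : W7_P x K c = c)
    (h : ∀ i, 1 ≤ i → i ≤ 5 → K i c = 0) : c = K 6 c • xp x 6 + K 7 c • xp x 7 := by
  have e := hc.symm
  rw [W7_P_apply, h 1 (by norm_num) (by norm_num), h 2 (by norm_num) (by norm_num),
    h 3 (by norm_num) (by norm_num), h 4 (by norm_num) (by norm_num),
    h 5 (by norm_num) (by norm_num)] at e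
  simp only [zero_smul, zero_add] at e
  exact e

theorem x2q (C : W7_Ctx x K M q) : ∃ z : F, (x * x) * q = z • xp x 7 := by
  have hP := C.aq (x * x)
  have h0 : x * ((x * x) * q) = 0 := by rw [← gJ1 C.jordan, C.xq, mul_zero]
  have hK : ∀ i, 1 ≤ i → i ≤ 6 → K i ((x * x) * q) = 0 := by
    intro i hi hi6
    rw [← C.Ks i hi hi6, h0, map_zero]
  refine ⟨K 7 ((x * x) * q), ?_⟩
  have e := C.eq67 hP fun i hi hi5 => hK i hi (by omega)
  rw [hK 6 (by norm_num) le_rfl, zero_smul, zero_add] at e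
  exact e

theorem xw (C : W7_Ctx x K M q) {w : J} (hw : w ∈ M) : ∃ a : F, x * w = a • q :=
  C.Mq _ (C.xM hw) (mul_mem' _ (by norm_num) (mem_jpow_one x) (mem_jpow_one w))

theorem x2w (C : W7_Ctx x K M q) {z : F} (hz : (x * x) * q = z • xp x 7) {w : J}
    {a : F} (ha : x * w = a • q) :
    ∃ b c : F, (x * x) * w = b • q + (a * z) • xp x 6 + c • xp x 7 := by
  obtain ⟨b, hb⟩ := C.dec2 (mul_mem' (F := F) 2 (by norm_num) (mem_jpow_one (x * x))
    (mem_jpow_one w))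
  have h1 : x * ((x * x) * w) = (a * z) • xp x 7 := by
    rw [← gJ1 C.jordan, ha, mul_smul_comm, hz, smul_smul]
  have hK : ∀ i, 1 ≤ i → i ≤ 6 → K i ((x * x) * w) = if i = 6 then a * z else 0 := by
    intro i hi hi6
    rw [← C.Ks i hi hi6, h1, map_smul, C.Kx (i + 1) 7 (by omega) (by omega) (by norm_num),
      smul_eq_mul]
    by_cases h : i = 6
    · rw [if_pos (by omega), if_pos h, mul_one]
    · rw [if_neg (by omega), if_neg h, mul_zero]
  refine ⟨b, K 7 ((x * x) * w), ?_⟩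
  rw [W7_P_apply, hK 1 (by norm_num) (by norm_num), hK 2 (by norm_num) (by norm_num),
    hK 3 (by norm_num) (by norm_num), hK 4 (by norm_num) (by norm_num),
    hK 5 (by norm_num) (by norm_num), hK 6 (by norm_num) (by norm_num)] at hb
  norm_num at hb
  rw [add_comm, ← add_assoc] at hb
  exact hb

/-- `x^(k+2)` from smaller powers -/
theorem step (C : W7_Ctx x K M q) {k : ℕ} (hk : 1 ≤ k) (h : J) :
    xp x (k + 2) * h = xp x (k + 1) * (x * h) + xp x (k + 1) * (x * h) + (x * x) * (xp x k * h)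
      - xp x k * (x * (x * h)) - x * (x * (xp x k * h)) := by
  have e := gJ4 F C.two C.jordan (xp x k) x x h
  rw [mul_comm (xp x k) x, ← xp_succ x hk, mul_comm (xp x (k + 1)) x,
    ← xp_succ x (by omega : 1 ≤ k + 1)] at e
  exact e

theorem two_eq : xp x 2 = x * x := rfl

theorem Xq (C : W7_Ctx x K M q) {i : ℕ} (hi : 3 ≤ i) : xp x i * q = 0 := by
  obtain ⟨z, hz⟩ := C.x2q
  have h3 : xp x 3 * q = 0 := by
    rw [C.step (by norm_num : 1 ≤ 1), xp_one, C.xq]
    simp only [mul_zero, add_zero, sub_zero]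
  have h4 : xp x 4 * q = 0 := by
    have z1 : (x * x) * xp x 7 = 0 := by
      rw [xp_sq_mul C.jordan x (by norm_num : 1 ≤ 7), C.xz (by norm_num)]
    have z2 : x * xp x 7 = 0 := by rw [xX (by norm_num), C.xz (by norm_num)]
    rw [C.step (by norm_num : 1 ≤ 2), C.xq, two_eq, hz]
    simp only [mul_zero, add_zero, sub_zero, zero_add, mul_smul_comm, z1, z2, smul_zero]
  have h5 : xp x 5 * q = 0 := by
    rw [C.step (by norm_num : 1 ≤ 3), C.xq, h3]
    simp only [mul_zero, add_zero, sub_zero]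
  rcases Nat.lt_or_ge i 6 with h | h
  · obtain rfl | rfl | rfl : i = 3 ∨ i = 4 ∨ i = 5 := by omega
    · exact h3
    · exact h4
    · exact h5
  · exact C.z8 le_rfl (mul_mem' (F := F) 8 (by omega : 8 ≤ i + 2) (xp_mem x (by omega)) C.q2)

theorem X3w (C : W7_Ctx x K M q) {z : F} (hz : (x * x) * q = z • xp x 7) {w : J}
    {a : F} (ha : x * w = a • q) : xp x 3 * w = (3 * (a * z)) • xp x 7 := by
  rw [C.step (by norm_num : 1 ≤ 1), xp_one, ha]
  simp only [mul_smul_comm, C.xq, mul_zero, smul_zero, sub_zero]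
  rw [show xp x (1 + 1) = x * x from rfl, hz, smul_smul, ← add_smul, ← add_smul]
  congr 1
  ring

theorem X4w (C : W7_Ctx x K M q) {z : F} (hz : (x * x) * q = z • xp x 7) {w : J}
    {a b c : F} (ha : x * w = a • q) (hb : (x * x) * w = b • q + (a * z) • xp x 6 + c • xp x 7) :
    xp x 4 * w = (b * z) • xp x 7 := by
  have z1 : (x * x) * xp x 7 = 0 := by
    rw [xp_sq_mul C.jordan x (by norm_num : 1 ≤ 7), C.xz (by norm_num)]
  have z2 : x * xp x 7 = 0 := by rw [xX (by norm_num), C.xz (by norm_num)]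
  have z3 : x * xp x 6 = xp x 7 := xX (by norm_num)
  have z4 : (x * x) * xp x 6 = 0 := by
    rw [xp_sq_mul C.jordan x (by norm_num : 1 ≤ 6), C.xz (by norm_num)]
  rw [C.step (by norm_num : 1 ≤ 2), two_eq, ha, hb, show xp x (2 + 1) = xp x 3 from rfl]
  simp only [mul_smul_comm, C.xq, mul_zero, smul_zero, sub_zero, mul_add, hz, z1, z2, z3, z4,
    C.Xq le_rfl, add_zero, zero_add, smul_smul]

theorem X5w (C : W7_Ctx x K M q) {z : F} (hz : (x * x) * q = z • xp x 7) {w : J}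
    {a b c : F} (ha : x * w = a • q) (hb : (x * x) * w = b • q + (a * z) • xp x 6 + c • xp x 7)
    {i : ℕ} (hi : 5 ≤ i) : xp x i * w = 0 := by
  have z1 : (x * x) * xp x 7 = 0 := by
    rw [xp_sq_mul C.jordan x (by norm_num : 1 ≤ 7), C.xz (by norm_num)]
  have z2 : x * xp x 7 = 0 := by rw [xX (by norm_num), C.xz (by norm_num)]
  have h5 : xp x 5 * w = 0 := by
    rw [C.step (by norm_num : 1 ≤ 3), ha, C.X3w hz ha]
    simp only [mul_smul_comm, C.xq, mul_zero, smul_zero, sub_zero, z1, z2, add_zero]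
    rw [show xp x (3 + 1) = xp x 4 from rfl, C.Xq (by norm_num)]
    simp only [smul_zero, add_zero]
  have h6 : xp x 6 * w = 0 := by
    rw [C.step (by norm_num : 1 ≤ 4), ha, C.X4w hz ha hb]
    simp only [mul_smul_comm, C.xq, mul_zero, smul_zero, sub_zero, z1, z2, add_zero]
    rw [show xp x (4 + 1) = xp x 5 from rfl, C.Xq (by norm_num)]
    simp only [smul_zero, add_zero]
  rcases Nat.lt_or_ge i 7 with h | h
  · obtain rfl | rfl : i = 5 ∨ i = 6 := by omega
    · exact h5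
    · exact h6
  · exact C.z8 le_rfl (mul_mem' (F := F) 8 (by omega : 8 ≤ i + 1) (xp_mem x (by omega))
      (mem_jpow_one w))

/-- the functions `α, β, γ` -/
theorem funs (C : W7_Ctx x K M q) {z : F} (hz : (x * x) * q = z • xp x 7) :
    ∃ α β γ : J → F, (∀ w ∈ M, x * w = α w • q) ∧
      ∀ w ∈ M, (x * x) * w = β w • q + (α w * z) • xp x 6 + γ w • xp x 7 := by
  have h : ∀ w, ∃ a b c : F, w ∈ M → x * w = a • q ∧
      (x * x) * w = b • q + (a * z) • xp x 6 + c • xp x 7 := by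
    intro w
    by_cases hw : w ∈ M
    · obtain ⟨a, ha⟩ := C.xw hw
      obtain ⟨b, c, hb⟩ := C.x2w hz ha
      exact ⟨a, b, c, fun _ => ⟨ha, hb⟩⟩
    · exact ⟨0, 0, 0, fun h => absurd h hw⟩
  choose α β γ h using h
  exact ⟨α, β, γ, fun w hw => (h w hw).1, fun w hw => (h w hw).2⟩

section main

variable {z : F} {α β γ : J → F}

/-- Step 3 -/
theorem g1 (C : W7_Ctx x K M q) (hz : (x * x) * q = z • xp x 7)
    (hα : ∀ w ∈ M, x * w = α w • q)
    (hβ : ∀ w ∈ M, (x * x) * w = β w • q + (α w * z) • xp x 6 + γ w • xp x 7) {w : J}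
    (hw : w ∈ M) : (x * x) * (w * q) = (2 * α w) • (x * (q * q)) := by
  have e := gJ3 F C.two C.jordan x x w q
  have h7 : w * xp x 7 = 0 := by
    rw [mul_comm]; exact C.X5w hz (hα w hw) (hβ w hw) (by norm_num)
  rw [C.xq, mul_zero, mul_zero, add_zero, add_zero, hz, mul_smul_comm, h7, smul_zero, zero_add,
    mul_comm w x, hα w hw, smul_mul_assoc, mul_smul_comm, ← add_smul, ← two_mul] at e
  exact e

theorem g2 (C : W7_Ctx x K M q) 
    (hβ : ∀ w ∈ M, (x * x) * w = β w • q + (α w * z) • xp x 6 + γ w • xp x 7) {w : J}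
    (hw : w ∈ M) : (x * x) * (w * q) = β w • (q * q) := by
  have e := gJ3 F C.two C.jordan x x q w
  rw [mul_comm q x, C.xq, zero_mul, zero_mul, mul_zero, add_zero, add_zero, add_zero, add_zero,
    hβ w hw, mul_add, mul_add, mul_smul_comm, mul_smul_comm, mul_smul_comm, mul_comm q (xp x 6),
    mul_comm q (xp x 7), C.Xq (by norm_num), C.Xq (by norm_num), smul_zero, smul_zero, add_zero,
    add_zero, mul_comm q w] at e
  exact e

theorem hcase (C : W7_Ctx x K M q) (hz : (x * x) * q = z • xp x 7)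
    (hα : ∀ w ∈ M, x * w = α w • q)
    (hβ : ∀ w ∈ M, (x * x) * w = β w • q + (α w * z) • xp x 6 + γ w • xp x 7) :
    q * q = 0 ∨ ∀ w ∈ M, β w = 0 := by
  by_cases h : ∀ w ∈ M, β w = 0
  · exact Or.inr h
  push Not at h
  obtain ⟨w, hw, hb⟩ := h
  refine Or.inl (C.nil fun n hn hqn => ?_)
  have e := (C.g2 hβ hw).symm.trans (C.g1 hz hα hβ hw)
  have h1 : β w • (q * q) ∈ jpow F J (n + 1) := by
    rw [e]
    exact Submodule.smul_mem _ _ (mul_mem' _ (by omega) (mem_jpow_one x) hqn)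
  exact (Submodule.smul_mem_iff _ hb).mp h1

theorem sqwq (C : W7_Ctx x K M q) (hz : (x * x) * q = z • xp x 7)
    (hα : ∀ w ∈ M, x * w = α w • q)
    (hβ : ∀ w ∈ M, (x * x) * w = β w • q + (α w * z) • xp x 6 + γ w • xp x 7) {w : J}
    (hw : w ∈ M) : (x * x) * (w * q) = 0 := by
  rw [C.g2 hβ hw]
  rcases C.hcase hz hα hβ with h | h
  · rw [h, smul_zero]
  · rw [h w hw, zero_smul]

theorem wq (C : W7_Ctx x K M q) (hz : (x * x) * q = z • xp x 7)
    (hα : ∀ w ∈ M, x * w = α w • q)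
    (hβ : ∀ w ∈ M, (x * x) * w = β w • q + (α w * z) • xp x 6 + γ w • xp x 7) {w : J}
    (hw : w ∈ M) : w * q = K 6 (w * q) • xp x 6 + K 7 (w * q) • xp x 7 := by
  refine C.eq67 (C.aq w) fun i hi hi5 => ?_
  rw [← C.Ksq (C.aq w) hi hi5, C.sqwq hz hα hβ hw, map_zero]

/-- `α(w) q q` is a multiple of `x^7` -/
theorem aqq (C : W7_Ctx x K M q) (hz : (x * x) * q = z • xp x 7)
    (hα : ∀ w ∈ M, x * w = α w • q)
    (hβ : ∀ w ∈ M, (x * x) * w = β w • q + (α w * z) • xp x 6 + γ w • xp x 7) {w : J}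
    (hw : w ∈ M) : α w • (q * q) = (α w * K 7 (q * q)) • xp x 7 := by
  by_cases ha : α w = 0
  · rw [ha, zero_mul, zero_smul, zero_smul]
  have e := C.sqwq hz hα hβ hw
  rw [C.g1 hz hα hβ hw] at e
  have hx : x * (q * q) = 0 :=
    (smul_eq_zero.mp e).resolve_left (mul_ne_zero C.two ha)
  have hK : ∀ i, 1 ≤ i → i ≤ 6 → K i (q * q) = 0 := by
    intro i hi hi6
    rw [← C.Ks i hi hi6, hx, map_zero]
  have e2 := C.eq67 (C.aq q) fun i hi hi5 => hK i hi (by omega)
  rw [hK 6 (by norm_num) le_rfl, zero_smul, zero_add] at e2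
  rw [mul_smul, ← e2]

/-- Step 4 -/
theorem ww (C : W7_Ctx x K M q) (hz : (x * x) * q = z • xp x 7)
    (hα : ∀ w ∈ M, x * w = α w • q)
    (hβ : ∀ w ∈ M, (x * x) * w = β w • q + (α w * z) • xp x 6 + γ w • xp x 7) {w w' : J}
    (hw : w ∈ M) (hw' : w' ∈ M) : ∀ i, 1 ≤ i → i ≤ 3 → K i (w * w') = 0 := by
  obtain ⟨n, hn⟩ := C.dec2 (mul_mem' (F := F) 2 (by norm_num) (mem_jpow_one w) (mem_jpow_one w'))
  have hPP : W7_P x K (W7_P x K (w * w')) = W7_P x K (w * w') := by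
    have h1 := C.PM (C.subM (w * w'))
    rw [map_sub, sub_eq_zero] at h1
    exact h1.symm
  let S : Submodule F J := Submodule.span F {xp x 6, xp x 7}
  have s6 : xp x 6 ∈ S := Submodule.subset_span (by simp)
  have s7 : xp x 7 ∈ S := Submodule.subset_span (by simp)
  have e := gJ3 F C.two C.jordan x x w w'
  have t1 : (x * w) * (x * w') ∈ S := by
    rw [hα w hw, hα w' hw', smul_mul_assoc, mul_smul_comm, C.aqq hz hα hβ hw']
    exact S.smul_mem _ (S.smul_mem _ s7)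
  have t2 : w * ((x * x) * w') ∈ S := by
    rw [hβ w' hw', mul_add, mul_add, mul_smul_comm, mul_smul_comm, mul_smul_comm,
      C.wq hz hα hβ hw, mul_comm w (xp x 6), mul_comm w (xp x 7),
      C.X5w hz (hα w hw) (hβ w hw) (by norm_num), C.X5w hz (hα w hw) (hβ w hw) (by norm_num),
      smul_zero, smul_zero, add_zero, add_zero]
    exact S.smul_mem _ (S.add_mem (S.smul_mem _ s6) (S.smul_mem _ s7))
  have t3 : x * ((x * w) * w') ∈ S := by
    rw [hα w hw, smul_mul_assoc, mul_smul_comm, mul_comm q w', C.wq hz hα hβ hw', mul_add,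
      mul_smul_comm, mul_smul_comm, xX (by norm_num), xX (by norm_num), C.xz (by norm_num : 8 ≤ 7 + 1),
      smul_zero, add_zero]
    exact S.smul_mem _ (S.smul_mem _ s7)
  have t4 : (x * x) * (w * w') ∈ S := by
    have : (x * x) * (w * w') = w * ((x * x) * w') + x * ((x * w) * w') + x * ((x * w) * w') -
        (x * w) * (x * w') - (x * w) * (x * w') := by
      rw [mul_comm w x] at e
      rw [← e]
      abel
    rw [this]
    exact S.sub_mem (S.sub_mem (S.add_mem (S.add_mem t2 t3) t3) t1) t1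
  have t5 : (x * x) * W7_P x K (w * w') ∈ S := by
    have : (x * x) * W7_P x K (w * w') = (x * x) * (w * w') - (n * z) • xp x 7 := by
      have h1 : (x * x) * (w * w') = (x * x) * (W7_P x K (w * w') + n • q) := by rw [← hn]
      rw [h1, mul_add, mul_smul_comm, hz, smul_smul]
      abel
    rw [this]
    exact S.sub_mem t4 (S.smul_mem _ s7)
  have hS : ∀ j, 1 ≤ j → j ≤ 5 → S ≤ LinearMap.ker (K j) := by
    intro j hj hj5
    rw [Submodule.span_le]
    rintro a (rfl | rfl)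
    · rw [SetLike.mem_coe, LinearMap.mem_ker, C.Kx j 6 hj (by omega) (by norm_num), if_neg (by omega)]
    · rw [SetLike.mem_coe, LinearMap.mem_ker, C.Kx j 7 hj (by omega) (by norm_num), if_neg (by omega)]
  intro i hi hi3
  rw [← C.KP hi (by omega), ← C.Ksq hPP hi (by omega)]
  exact hS (i + 2) (by omega) (by omega) t5

/-- the product of two elements of `M` -/
theorem ww' (C : W7_Ctx x K M q) (hz : (x * x) * q = z • xp x 7)
    (hα : ∀ w ∈ M, x * w = α w • q)
    (hβ : ∀ w ∈ M, (x * x) * w = β w • q + (α w * z) • xp x 6 + γ w • xp x 7) {w w' : J}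
    (hw : w ∈ M) (hw' : w' ∈ M) : ∃ a4 a5 a6 a7 n : F,
      w * w' = a4 • xp x 4 + a5 • xp x 5 + a6 • xp x 6 + a7 • xp x 7 + n • q ∧
      (n = 0 → W7_P x K (w * w') = w * w') := by
  obtain ⟨n, hn⟩ := C.dec2 (mul_mem' (F := F) 2 (by norm_num) (mem_jpow_one w) (mem_jpow_one w'))
  have hK := C.ww hz hα hβ hw hw'
  refine ⟨K 4 (w * w'), K 5 (w * w'), K 6 (w * w'), K 7 (w * w'), n, ?_, ?_⟩
  · have e := hn
    rw [W7_P_apply, hK 1 (by norm_num) (by norm_num), hK 2 (by norm_num) (by norm_num),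
      hK 3 (by norm_num) (by norm_num)] at e
    simp only [zero_smul, zero_add] at e
    exact e
  · intro h0
    rw [h0, zero_smul, add_zero] at hn
    exact hn.symm

/-- Step 5 -/
theorem qq (C : W7_Ctx x K M q) (hz : (x * x) * q = z • xp x 7)
    (hα : ∀ w ∈ M, x * w = α w • q)
    (hβ : ∀ w ∈ M, (x * x) * w = β w • q + (α w * z) • xp x 6 + γ w • xp x 7) : q * q = 0 := by
  by_contra hne
  have hb : ∀ w ∈ M, β w = 0 := (C.hcase hz hα hβ).resolve_left hne
  have hww : ∀ w ∈ M, W7_P x K (w * w) = w * w := by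
    intro w hw
    obtain ⟨a4, a5, a6, a7, n, h, hP⟩ := C.ww' hz hα hβ hw hw
    refine hP ?_
    have e := gJ1 C.jordan w w
    have hc4 : a4 • xp x 4 + a5 • xp x 5 + a6 • xp x 6 + a7 • xp x 7 ∈ jpow F J 4 :=
      Submodule.add_mem _ (Submodule.add_mem _ (Submodule.add_mem _
        (Submodule.smul_mem _ _ (xp_mem x (by norm_num)))
        (Submodule.smul_mem _ _ (jpow_anti (by norm_num : 4 ≤ 5) (xp_mem x (by norm_num)))))
        (Submodule.smul_mem _ _ (jpow_anti (by norm_num : 4 ≤ 6) (xp_mem x (by norm_num)))))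
        (Submodule.smul_mem _ _ (jpow_anti (by norm_num : 4 ≤ 7) (xp_mem x (by norm_num))))
    have hcq : (a4 • xp x 4 + a5 • xp x 5 + a6 • xp x 6 + a7 • xp x 7) * q = 0 := by
      simp only [add_mul, smul_mul_assoc]
      rw [C.Xq (by norm_num), C.Xq (by norm_num), C.Xq (by norm_num), C.Xq (by norm_num)]
      simp only [smul_zero, add_zero]
    have hcw : (a4 • xp x 4 + a5 • xp x 5 + a6 • xp x 6 + a7 • xp x 7) * w = 0 := by
      simp only [add_mul, smul_mul_assoc]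
      rw [C.X4w hz (hα w hw) (hβ w hw), hb w hw, C.X5w hz (hα w hw) (hβ w hw) (by norm_num),
        C.X5w hz (hα w hw) (hβ w hw) (by norm_num), C.X5w hz (hα w hw) (hβ w hw) (by norm_num)]
      simp only [zero_mul, zero_smul, smul_zero, add_zero]
    have hwwq : w * (w * q) = 0 := by
      rw [C.wq hz hα hβ hw, mul_add, mul_smul_comm, mul_smul_comm, mul_comm w (xp x 6),
        mul_comm w (xp x 7), C.X5w hz (hα w hw) (hβ w hw) (by norm_num),
        C.X5w hz (hα w hw) (hβ w hw) (by norm_num), smul_zero, smul_zero, add_zero]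
    generalize a4 • xp x 4 + a5 • xp x 5 + a6 • xp x 6 + a7 • xp x 7 = c at h hc4 hcq hcw
    have hcc : c * c = 0 := C.z8 le_rfl (mul_mem' (F := F) 8 (by norm_num) hc4 hc4)
    have hl : (w * w) * (w * w) = (n * n) • (q * q) := by
      rw [h, add_mul, mul_add, mul_add, hcc, mul_smul_comm, hcq, smul_mul_assoc, mul_comm q c, hcq,
        smul_mul_smul_comm]
      simp only [smul_zero, zero_add, add_zero]
    have hr : w * ((w * w) * w) = 0 := by
      rw [h, add_mul, hcw, zero_add, smul_mul_assoc, mul_smul_comm, mul_comm q w, hwwq, smul_zero]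
    rw [hl, hr] at e
    have := (smul_eq_zero.mp e).resolve_right hne
    exact mul_self_eq_zero.mp this
  have ha : ∀ w ∈ M, α w = 0 := by
    intro w hw
    have e := gJ3 F C.two C.jordan w w x x
    have e1 : w * w * (x * x) = x * (w * w * x) := by
      rw [mul_comm (w * w) (x * x), C.sqC (hww w hw), mul_comm (w * w) x]
    have e2 : x * (x * w) = 0 := by rw [hα w hw, mul_smul_comm, C.xq, smul_zero]
    rw [e1, mul_comm w x, mul_comm (x * w) x, e2, mul_zero, add_zero, add_zero, hα w hw,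
      smul_mul_smul_comm, add_assoc, add_eq_left, ← two_smul F, smul_smul] at e
    have h1 := (smul_eq_zero.mp e).resolve_right hne
    have h2 := (mul_eq_zero.mp h1).resolve_left C.two
    exact mul_self_eq_zero.mp h2
  let T : Submodule F J := LinearMap.ker (W7_P x K - LinearMap.id)
  have hT : ∀ a, a ∈ T ↔ W7_P x K a = a := by
    intro a
    simp only [T, LinearMap.mem_ker, LinearMap.sub_apply, LinearMap.id_apply, sub_eq_zero]
  have hXT : ∀ i, 1 ≤ i → xp x i ∈ T := fun i hi => (hT _).2 (C.PX hi)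
  have hPspan : ∀ y, W7_P x K y ∈ Submodule.span F {a | ∃ i, 1 ≤ i ∧ a = xp x i} := by
    intro y
    have h : ∀ i, 1 ≤ i → K i y • xp x i ∈ Submodule.span F {a | ∃ i, 1 ≤ i ∧ a = xp x i} :=
      fun i hi => Submodule.smul_mem _ _ (Submodule.subset_span ⟨i, hi, rfl⟩)
    rw [W7_P_apply]
    exact Submodule.add_mem _ (Submodule.add_mem _ (Submodule.add_mem _ (Submodule.add_mem _
      (Submodule.add_mem _ (Submodule.add_mem _ (h 1 (by norm_num))
      (h 2 (by norm_num))) (h 3 (by norm_num)))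
      (h 4 (by norm_num))) (h 5 (by norm_num)))
      (h 6 (by norm_num))) (h 7 (by norm_num))
  have hle : jpow F J 2 ≤ T := by
    refine jpow_two_le C.two T fun y => ?_
    have hm := C.subM y
    have hc := hPspan y
    have hy : y = W7_P x K y + (y - W7_P x K y) := by abel
    generalize y - W7_P x K y = m at hm hy
    generalize W7_P x K y = c at hc hy
    have h1 : c * c ∈ T := by
      refine W7_span_mul _ _ T ?_ c hc c hc
      rintro a ⟨i, hi, rfl⟩ b ⟨j, hj, rfl⟩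
      rw [xp_mul F C.two C.jordan x hi hj]
      exact hXT _ (by omega)
    have h2 : c * m ∈ T := by
      refine W7_span_mul _ {m} T ?_ c hc m (Submodule.mem_span_singleton_self m)
      rintro a ⟨i, hi, rfl⟩ b rfl
      rcases Nat.lt_or_ge i 5 with hi5 | hi5
      · obtain rfl | rfl | rfl | rfl : i = 1 ∨ i = 2 ∨ i = 3 ∨ i = 4 := by omega
        · rw [xp_one, hα _ hm, ha _ hm, zero_smul]
          exact T.zero_mem
        · rw [two_eq, hβ _ hm, hb _ hm, ha _ hm, zero_mul, zero_smul, zero_smul, zero_add,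
            zero_add]
          exact T.smul_mem _ (hXT 7 (by norm_num))
        · rw [C.X3w hz (hα _ hm)]
          exact T.smul_mem _ (hXT 7 (by norm_num))
        · rw [C.X4w hz (hα _ hm) (hβ _ hm)]
          exact T.smul_mem _ (hXT 7 (by norm_num))
      · rw [C.X5w hz (hα _ hm) (hβ _ hm) hi5]
        exact T.zero_mem
    have h3 : m * m ∈ T := (hT _).2 (hww m hm)
    rw [hy, add_mul, mul_add, mul_add, mul_comm m c]
    exact T.add_mem (T.add_mem h1 h2) (T.add_mem h2 h3)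
  have h1 := (hT q).1 (hle C.q2)
  rw [C.PM C.qM] at h1
  apply hne
  rw [← h1, mul_zero]

end main

end W7_Ctx

/-- Step 1: the functional `φ` -/
theorem W7_phi (h2 : (2 : F) ≠ 0) (hJ : IsJordan J) (hbot : jpow F J 8 = ⊥) {x : J}
    (hx : xp x 7 ≠ 0) : ∃ φ : J →ₗ[F] F, φ (xp x 7) = 1 ∧
      ∀ i, 1 ≤ i → i ≤ 6 → φ (xp x i) = 0 := by
  have h8 : xp x 7 ∉ jpow F J (7 + 1) := by
    show xp x 7 ∉ jpow F J 8
    rw [hbot, Submodule.mem_bot]
    exact hx
  have key : ∀ n, n ≤ 6 → xp x 7 ∉ Submodule.span F {a | ∃ i, 7 - n ≤ i ∧ i ≤ 6 ∧ a = xp x i} := by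
    intro n
    induction n with
    | zero =>
      intro _ h
      have : {a | ∃ i, 7 - 0 ≤ i ∧ i ≤ 6 ∧ a = xp x i} = ∅ := by
        ext a
        simp only [Set.mem_ofPred_eq, Set.mem_empty_iff_false, iff_false]
        rintro ⟨i, h1, h3, -⟩
        omega
      rw [this, Submodule.span_empty, Submodule.mem_bot] at h
      exact hx h
    | succ n ih =>
      intro hn h
      have hset : {a | ∃ i, 7 - (n + 1) ≤ i ∧ i ≤ 6 ∧ a = xp x i} =
          insert (xp x (6 - n)) {a | ∃ i, 7 - n ≤ i ∧ i ≤ 6 ∧ a = xp x i} := by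
        ext a
        simp only [Set.mem_ofPred_eq, Set.mem_insert_iff]
        constructor
        · rintro ⟨i, h1, h3, rfl⟩
          rcases Nat.lt_or_ge i (7 - n) with h | h
          · left
            rw [show i = 6 - n by omega]
          · exact Or.inr ⟨i, h, h3, rfl⟩
        · rintro (rfl | ⟨i, h1, h3, rfl⟩)
          · exact ⟨6 - n, by omega, by omega, rfl⟩
          · exact ⟨i, by omega, h3, rfl⟩
      rw [hset, Submodule.mem_span_insert] at h
      obtain ⟨c, b, hb, hc⟩ := h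
      have hb' : b ∈ jpow F J (6 - n + 1) := by
        refine (Submodule.span_le.mpr ?_ : Submodule.span F _ ≤ jpow F J (6 - n + 1)) hb
        rintro a ⟨i, h1, h3, rfl⟩
        exact jpow_anti (by omega) (xp_mem x (by omega))
      have hc0 : c = 0 := by
        by_contra hne
        refine xp_notMem h2 hJ (by omega : 1 ≤ 6 - n) (by omega : 6 - n ≤ 7) h8 ?_
        have h7 : c • xp x (6 - n) ∈ jpow F J (6 - n + 1) := by
          have : c • xp x (6 - n) = xp x 7 - b := by rw [hc]; abel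
          rw [this]
          exact Submodule.sub_mem _ (jpow_anti (by omega) (xp_mem x (by norm_num))) hb'
        exact (Submodule.smul_mem_iff _ hne).mp h7
      rw [hc0, zero_smul, zero_add] at hc
      rw [← hc] at hb
      exact ih (by omega) hb
  obtain ⟨ψ, hψ, hψ0⟩ := exists_fun _ _ (key 6 le_rfl)
  refine ⟨(ψ (xp x 7))⁻¹ • ψ, ?_, ?_⟩
  · rw [LinearMap.smul_apply, smul_eq_mul, inv_mul_cancel₀ hψ]
  · intro i hi hi6
    rw [LinearMap.smul_apply, hψ0 _ (Submodule.subset_span ⟨i, by omega, hi6, rfl⟩), smul_zero]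

theorem W7_pow_X (x : J) (n : ℕ) {j : ℕ} (hj : 1 ≤ j) :
    (LinearMap.mulLeft F x ^ n) (xp x j) = xp x (j + n) := by
  induction n with
  | zero => rw [pow_zero, add_zero]; rfl
  | succ n ih =>
    rw [pow_succ', Module.End.mul_apply, ih, LinearMap.mulLeft_apply, ← xp_succ x (by omega)]
    rfl

theorem W7_pow_mem (x : J) (n : ℕ) {s : ℕ} {a : J} (ha : a ∈ jpow F J s) :
    (LinearMap.mulLeft F x ^ n) a ∈ jpow F J (s + n) := by
  induction n with
  | zero => rw [pow_zero, add_zero]; exact ha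
  | succ n ih =>
    rw [pow_succ', Module.End.mul_apply, LinearMap.mulLeft_apply]
    exact mul_mem' _ (by omega) (mem_jpow_one x) ih

/-- Step 1 -/
theorem W7_exists_ctx (h2 : (2 : F) ≠ 0) (hJ : IsJordan J) (hbot : jpow F J 8 = ⊥) {x : J}
    (hx : xp x 7 ≠ 0) (hd : finrank F (jpow F J 2) ≤ 7) :
    ∃ (K : ℕ → J →ₗ[F] F) (M : Submodule F J) (q : J), W7_Ctx x K M q := by
  obtain ⟨φ, hφ7, hφ⟩ := W7_phi h2 hJ hbot hx
  have z8 : ∀ s, 8 ≤ s → ∀ a ∈ jpow F J s, a = 0 := by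
    intro s hs a ha
    have := jpow_anti hs ha
    rwa [hbot, Submodule.mem_bot] at this
  let K : ℕ → J →ₗ[F] F := fun i => φ ∘ₗ (LinearMap.mulLeft F x ^ (7 - i))
  have hK : ∀ i a, K i a = φ ((LinearMap.mulLeft F x ^ (7 - i)) a) := fun _ _ => rfl
  have Kx : ∀ i j, 1 ≤ i → i ≤ 7 → 1 ≤ j → K i (xp x j) = if i = j then 1 else 0 := by
    intro i j hi hi7 hj
    rw [hK, W7_pow_X x _ hj]
    rcases lt_trichotomy i j with h | h | h
    · rw [if_neg (by omega), z8 _ (by omega) _ (xp_mem x (by omega)), map_zero]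
    · rw [if_pos h, show j + (7 - i) = 7 by omega, hφ7]
    · rw [if_neg (by omega)]
      exact hφ _ (by omega) (by omega)
  have Kp : ∀ s i, 1 ≤ i → i ≤ 7 → i < s → ∀ a ∈ jpow F J s, K i a = 0 := by
    intro s i hi hi7 his a ha
    rw [hK, z8 _ (by omega) _ (W7_pow_mem x (7 - i) ha), map_zero]
  have K1 : ∀ a, K 1 (x * a) = 0 := by
    intro a
    refine Kp 2 1 le_rfl (by norm_num) (by norm_num) _ ?_
    exact mul_mem' _ (by norm_num) (mem_jpow_one x) (mem_jpow_one a)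
  have Ks : ∀ i, 1 ≤ i → i ≤ 6 → ∀ a, K (i + 1) (x * a) = K i a := by
    intro i hi hi6 a
    rw [hK, hK, show 7 - i = (7 - (i + 1)) + 1 by omega, pow_succ, Module.End.mul_apply]
    rfl
  let M : Submodule F J :=
    { carrier := {m | ∀ i, 1 ≤ i → i ≤ 7 → K i m = 0}
      add_mem' := by
        intro a b ha hb i hi hi7
        rw [map_add, ha i hi hi7, hb i hi hi7, add_zero]
      zero_mem' := by
        intro i _ _
        rw [map_zero]
      smul_mem' := by
        intro r a ha i hi hi7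
        rw [map_smul, ha i hi hi7, smul_zero] }
  have memM : ∀ m, m ∈ M ↔ ∀ i, 1 ≤ i → i ≤ 7 → K i m = 0 := fun _ => Iff.rfl
  let κ : jpow F J 2 →ₗ[F] (Fin 6 → F) :=
    LinearMap.pi (fun i : Fin 6 => K ((i : ℕ) + 2)) ∘ₗ (jpow F J 2).subtype
  have hκ : ∀ (a : jpow F J 2) (i : Fin 6), κ a i = K ((i : ℕ) + 2) a.1 := fun _ _ => rfl
  have hsurj : Function.Surjective κ := by
    intro v
    have hmem : ∀ i : Fin 6, xp x ((i : ℕ) + 2) ∈ jpow F J 2 := fun i =>
      jpow_anti (by omega) (xp_mem x (by omega))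
    refine ⟨∑ i : Fin 6, v i • ⟨xp x ((i : ℕ) + 2), hmem i⟩, ?_⟩
    funext j
    rw [hκ, AddSubmonoidClass.coe_finsetSum, map_sum, Finset.sum_eq_single j]
    · rw [SetLike.val_smul, map_smul, Kx _ _ (by omega) (by omega) (by omega), if_pos rfl,
        smul_eq_mul, mul_one]
    · intro i _ hij
      rw [SetLike.val_smul, map_smul, Kx _ _ (by omega) (by omega) (by omega), if_neg, smul_zero]
      intro h
      exact hij (Fin.ext (by omega))
    · intro h
      exact absurd (Finset.mem_univ _) h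
  have hker : finrank F (LinearMap.ker κ) ≤ 1 := by
    have h1 := LinearMap.finrank_range_add_finrank_ker κ
    rw [LinearMap.range_eq_top.mpr hsurj, finrank_top, Module.finrank_fin_fun] at h1
    omega
  obtain ⟨v, hv⟩ := finrank_le_one_iff.mp hker
  have hv2 : v.1.1 ∈ jpow F J 2 := v.1.2
  refine ⟨K, M, v.1.1, h2, hJ, hbot, Kx, Kp, K1, Ks, memM, ?_, hv2, ?_⟩
  · intro i hi hi7
    rcases Nat.eq_or_lt_of_le hi with rfl | hi1
    · exact Kp 2 1 le_rfl (by norm_num) (by norm_num) _ hv2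
    · have h1 := congrFun (LinearMap.mem_ker.mp v.2) ⟨i - 2, by omega⟩
      rw [hκ] at h1
      have h3 : i - 2 + 2 = i := by omega
      simp only [h3] at h1
      exact h1
  · intro m hm hm2
    have hmk : (⟨m, hm2⟩ : jpow F J 2) ∈ LinearMap.ker κ := by
      rw [LinearMap.mem_ker]
      funext i
      rw [hκ]
      exact hm _ (by omega) (by omega)
    obtain ⟨c, hc⟩ := hv ⟨⟨m, hm2⟩, hmk⟩
    refine ⟨c, ?_⟩
    have h1 := congrArg (fun a : LinearMap.ker κ => (a.1.1 : J)) hc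
    exact h1.symm

theorem W7_adapted (hn : IsNilpotentAlg F J) {n : ℕ} (hng : ngen F J = n)
    {k : ℕ} (y : Fin k → J)
    (hy : LinearIndependent F (fun i => (jpow F J 2).mkQ (y i))) (hk : k ≤ n)
    (M : Submodule F J) (hM : Submodule.span F (Set.range y) ⊔ M ⊔ jpow F J 2 = ⊤) :
    ∃ x : Fin n → J, Gens F J x ∧ (∀ i : Fin k, x (Fin.castLE hk i) = y i) ∧
      ∀ i : Fin n, k ≤ (i : ℕ) → x i ∈ M := by
  subst hng
  exact exists_adapted hn y hy hk M hM

theorem weights7 (h2 : (2 : F) ≠ 0) (hJ : IsJordan J) {e : J} (he : e ≠ 0)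
    (htop : jpow F J 7 = Submodule.span F {e}) (hbot : jpow F J 8 = ⊥) {x0 : J}
    (hx0 : xp x0 7 ≠ 0) (hd : finrank F (jpow F J 2) ≤ 7) {n : ℕ} (hn : ngen F J = n + 1) :
    ∃ (x : Fin (n + 1) → J) (Φ : ℕ → Submodule F J), Gens F J x ∧ x 0 = x0 ∧
      Filt F x (fun i => if i = 0 then 1 else 2) Φ ∧ Φ 8 = ⊥ := by
  obtain ⟨K, M, q, C⟩ := W7_exists_ctx h2 hJ hbot hx0 hd
  obtain ⟨z, hz⟩ := C.x2q
  obtain ⟨α, β, γ, hα, hβ⟩ := C.funs hz
  have hqq := C.qq hz hα hβ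
  have hnil : IsNilpotentAlg F J := ⟨8, by norm_num, hbot⟩
  -- generators
  have h01 : x0 ∉ jpow F J 2 := by
    have h8 : xp x0 7 ∉ jpow F J (7 + 1) := by
      show xp x0 7 ∉ jpow F J 8
      rw [hbot, Submodule.mem_bot]
      exact hx0
    exact xp_notMem h2 hJ le_rfl (by norm_num) h8
  obtain ⟨x, hx, hxy, hxM⟩ := W7_adapted hnil hn ![x0] (by
    rw [linearIndependent_unique_iff]
    show (jpow F J 2).mkQ x0 ≠ 0
    rw [Submodule.mkQ_apply, Ne, Submodule.Quotient.mk_eq_zero]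
    exact h01) (by omega : 1 ≤ n + 1) M (by
    rw [eq_top_iff]
    intro a _
    have hP : ∀ i, 2 ≤ i → K i a • xp x0 i ∈ jpow F J 2 := fun i hi =>
      Submodule.smul_mem _ _ (jpow_anti hi (xp_mem x0 (by omega)))
    have e : a = (K 1 a • xp x0 1 + (a - W7_P x0 K a)) + (K 2 a • xp x0 2 + K 3 a • xp x0 3 +
        K 4 a • xp x0 4 + K 5 a • xp x0 5 + K 6 a • xp x0 6 + K 7 a • xp x0 7) := by
      rw [W7_P_apply]
      abel
    rw [e]
    refine Submodule.add_mem_sup (Submodule.add_mem_sup ?_ (C.subM a)) ?_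
    · exact Submodule.smul_mem _ _ (Submodule.subset_span ⟨0, rfl⟩)
    · exact Submodule.add_mem _ (Submodule.add_mem _ (Submodule.add_mem _ (Submodule.add_mem _
        (Submodule.add_mem _ (hP 2 (by norm_num)) (hP 3 (by norm_num))) (hP 4 (by norm_num)))
        (hP 5 (by norm_num))) (hP 6 (by norm_num))) (hP 7 (by norm_num)))
  have hx00 : x 0 = x0 := hxy 0
  -- filtration
  let G : ℕ → J → Prop := fun t a =>
    (1 ≤ t ∧ a = xp x0 t) ∨ (t = 2 ∧ a ∈ M) ∨ (t = 4 ∧ a = q)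
  let Φ : ℕ → Submodule F J := fun s => Submodule.span F {a | ∃ t, s ≤ t ∧ G t a}
  have hanti : ∀ m n, m ≤ n → Φ n ≤ Φ m := by
    intro m n hmn
    refine Submodule.span_mono ?_
    rintro a ⟨t, ht, hG⟩
    exact ⟨t, hmn.trans ht, hG⟩
  have gX : ∀ s t, s ≤ t → 1 ≤ t → xp x0 t ∈ Φ s := fun s t hst ht =>
    Submodule.subset_span ⟨t, hst, Or.inl ⟨ht, rfl⟩⟩
  have gq : ∀ s, s ≤ 4 → q ∈ Φ s := fun s hs =>
    Submodule.subset_span ⟨4, hs, Or.inr (Or.inr ⟨rfl, rfl⟩)⟩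
  have gM : ∀ w ∈ M, w ∈ Φ 2 := fun w hw =>
    Submodule.subset_span ⟨2, le_rfl, Or.inr (Or.inl ⟨rfl, hw⟩)⟩
  have mXM : ∀ t, 1 ≤ t → ∀ w ∈ M, xp x0 t * w ∈ Φ (t + 2) := by
    intro t ht w hw
    rcases Nat.lt_or_ge t 5 with h5 | h5
    · obtain rfl | rfl | rfl | rfl : t = 1 ∨ t = 2 ∨ t = 3 ∨ t = 4 := by omega
      · rw [xp_one, hα w hw]
        exact Submodule.smul_mem _ _ (gq _ (by norm_num))
      · rw [W7_Ctx.two_eq, hβ w hw]
        exact Submodule.add_mem _ (Submodule.add_mem _ (Submodule.smul_mem _ _ (gq _ (by norm_num)))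
          (Submodule.smul_mem _ _ (gX _ 6 (by norm_num) (by norm_num))))
          (Submodule.smul_mem _ _ (gX _ 7 (by norm_num) (by norm_num)))
      · rw [C.X3w hz (hα w hw)]
        exact Submodule.smul_mem _ _ (gX _ 7 (by norm_num) (by norm_num))
      · rw [C.X4w hz (hα w hw) (hβ w hw)]
        exact Submodule.smul_mem _ _ (gX _ 7 (by norm_num) (by norm_num))
    · rw [C.X5w hz (hα w hw) (hβ w hw) h5]
      exact Submodule.zero_mem _
  have mXq : ∀ t, 1 ≤ t → xp x0 t * q ∈ Φ (t + 4) := by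
    intro t ht
    rcases Nat.lt_or_ge t 3 with h3 | h3
    · obtain rfl | rfl : t = 1 ∨ t = 2 := by omega
      · rw [xp_one, C.xq]
        exact Submodule.zero_mem _
      · rw [W7_Ctx.two_eq, hz]
        exact Submodule.smul_mem _ _ (gX _ 7 (by norm_num) (by norm_num))
    · rw [C.Xq h3]
      exact Submodule.zero_mem _
  have mMM : ∀ w ∈ M, ∀ w' ∈ M, w * w' ∈ Φ 4 := by
    intro w hw w' hw'
    obtain ⟨a4, a5, a6, a7, n, h, -⟩ := C.ww' hz hα hβ hw hw'
    rw [h]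
    exact Submodule.add_mem _ (Submodule.add_mem _ (Submodule.add_mem _ (Submodule.add_mem _
      (Submodule.smul_mem _ _ (gX _ 4 (by norm_num) (by norm_num)))
      (Submodule.smul_mem _ _ (gX _ 5 (by norm_num) (by norm_num))))
      (Submodule.smul_mem _ _ (gX _ 6 (by norm_num) (by norm_num))))
      (Submodule.smul_mem _ _ (gX _ 7 (by norm_num) (by norm_num))))
      (Submodule.smul_mem _ _ (gq _ le_rfl))
  have mMq : ∀ w ∈ M, w * q ∈ Φ 6 := by
    intro w hw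
    rw [C.wq hz hα hβ hw]
    exact Submodule.add_mem _ (Submodule.smul_mem _ _ (gX _ 6 (by norm_num) (by norm_num)))
      (Submodule.smul_mem _ _ (gX _ 7 (by norm_num) (by norm_num)))
  have hGmul : ∀ t t' a b, G t a → G t' b → a * b ∈ Φ (t + t') := by
    rintro t t' a b (⟨ht, rfl⟩ | ⟨rfl, ha⟩ | ⟨rfl, rfl⟩) (⟨ht', rfl⟩ | ⟨rfl, hb⟩ | ⟨rfl, rfl⟩)
    · rw [xp_mul F h2 hJ x0 ht ht']
      exact gX _ _ le_rfl (by omega)
    · exact mXM t ht b hb
    · exact mXq t ht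
    · rw [mul_comm, add_comm]
      exact mXM t' ht' a ha
    · exact mMM a ha b hb
    · exact mMq a ha
    · rw [mul_comm, add_comm]
      exact mXq t' ht'
    · rw [mul_comm]
      exact mMq b hb
    · rw [hqq]
      exact Submodule.zero_mem _
  refine ⟨x, Φ, hx, hx00, ⟨hanti, ?_, ?_⟩, ?_⟩
  · intro m n p hp r hr
    refine W7_span_mul _ _ (Φ (m + n)) ?_ p hp r hr
    rintro a ⟨t, ht, hGa⟩ b ⟨t', ht', hGb⟩
    exact hanti _ _ (by omega) (hGmul t t' a b hGa hGb)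
  · intro i
    by_cases hi : i = 0
    · rw [hi, hx00]
      exact gX 1 1 le_rfl le_rfl
    · show x i ∈ Φ (if i = 0 then 1 else 2)
      rw [if_neg hi]
      refine gM _ (hxM i ?_)
      have : (i : ℕ) ≠ 0 := fun h => hi (Fin.ext h)
      omega
  · rw [eq_bot_iff, Submodule.span_le]
    rintro a ⟨t, ht, (⟨_, rfl⟩ | ⟨rfl, _⟩ | ⟨rfl, _⟩)⟩
    · rw [SetLike.mem_coe, Submodule.mem_bot]
      exact C.xz ht
    · omega
    · omega

end JD
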