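import Pool.Agent.H9.JP.Adapt
import Pool.Agent.H9.JH.H6

set_option autoImplicit false
set_option linter.unusedSectionVars false

/-!
# JP WC: class 6, graded algebra of dimensions `(2, 1, 2, 1, 2, 1)`, four generators: weights `1, 1, 2, 2`

`J^6 = F e ≠ 0`, `J^7 = 0`, `dim J^2 ≤ 7`; `A, D, π` = the graded quotient of `J` (theorem `exists_GJ`), `dim D_i = 2, 1, 2, 1, 2, 1`.

(0) `hdim i` for `i = 2, .., 6` adds up to `∑_{i=2}^6 dim D_i + dim J^7 ≤ dim J^2 ≤ 7` and `1 + 2 + 1 + 2 + 1 = 7`, so all these inequalities are equalities. Hence (rank-nullity; `J^(i+1) ⊆ ker π_i` by `hkill`)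
 for `2 ≤ i ≤ 6`, `a ∈ J^i`, `π_i a = 0`: `a ∈ J^(i+1)`.
(1) `H1 hG d2` (file `H9/JH/Comm.lean`): `v (q b) = q (v b)` for `v ∈ D 1`, `q ∈ D 2`, `b : A`; and `v D_1 = 0 → v = 0`. `D 2 = F s` (`exists_coord`), `v w = b(v,w) s` on `D 1`; `b` is nondegenerate and `dim D 1 = 2`, `F` algebraically closed:
 there is a basis `y0, y1` of `D 1` with `b(y0,y0) = b(y1,y1) = 0`, so `b(y0,y1) ≠ 0`. `x0, x1 ∈ J` with `π_1 x_i = y_i` (`hmap 1`, `J^1 = J`).
(2) `M := ker (π 1)`. `span {x0, x1} ⊔ M ⊔ J^2 = ⊤`; `x0, x1` are independent modulo `J^2` (`π_1` kills `J^2`). `exists_adapted` (`k = 2`) gives generators `x : Fin 4 → J` with `x 0 = x0`, `x 1 = x1`, `x 2, x 3 ∈ M`.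
(3) (C1) `w ∈ M`, `m ∈ J^k`, `k ≥ 1`: `π_(k+1) (w m) = π_1 w * π_k m = 0`, so `w m ∈ J^(k+2)` by (0) (trivial if `k + 1 ≥ 7`).
(4) (C2) `w, w' ∈ M`: `w w' ∈ J^4`. PROOF. `w w' ∈ J^3` by (C1). `gJ3 a b w w'` (`a, b ∈ J`): `(ab)(ww') + (bw)(aw') + (wa)(bw') = w((ab)w') + a((bw)w') + b((wa)w')`; here `bw, aw', wa, bw' ∈ J^3`, `(ab)w' ∈ J^4`, so `w((ab)w') ∈ J^6`,
 `(bw)w' ∈ J^5`: all terms but the first are in `J^6`, so `(ab)(ww') ∈ J^6` and `π_2(ab) * π_3(ww') = 0` (`hkill 5`). With `a = x0`, `b = x1`: `s * h = 0` for `h := π_3(ww') ∈ D 3`. `D 3` is spanned by the `v * s`, `v ∈ D 1` (`hG.gen 3`; `D 2 = F s`), i.e.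
 `h = v0 * s`. `D 4 = F (s*s)`, `D 5` is spanned by the `s * (v * s)`, `D 6 = F (s*(s*s))`, so `s*(s*s) ≠ 0` (commuting: `v*(v'*s) = s*(v*v') = b(v,v') s*s`, `v*(s*s) = s*(v*s)`, `v*(s*(v'*s)) = s*(s*(v*v')) = b s*(s*s)`). For all `u ∈ D 1`:
 `0 = u*(s*(v0*s)) = s*(s*(u*v0)) = b(u,v0) s*(s*s)`: `u*v0 = 0` for all `u ∈ D 1`, `v0 = 0`, `π_3(ww') = 0`, `w w' ∈ J^4` by (0).
(5) `Φ 0 = Φ 1 = ⊤`, `Φ 2 = M ⊔ J^2`, `Φ s = J^s` for `s ≥ 3`. `mul_mem`: `J M ⊆ J^3` (C1, `k = 1`), `M M ⊆ J^4` (C2), `M J^k ⊆ J^(k+2)` (C1), `J^i J^j ⊆ J^(i+j)`. `π_2(x_i x_i) = b(y_i,y_i) s = 0`: `x_i x_i ∈ J^3` by (0), `i = 0, 1`. `π_2(x0 x1) ≠ 0`: `x0 x1 ∉ J^3` (`hkill 2`).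
-/

namespace JD

universe u

open Module

variable {F : Type u} [Field F] {J : Type u} [NonUnitalNonAssocCommRing J] [Module F J]
  [IsScalarTower F J J] [SMulCommClass F J J] [Module.Finite F J] [Infinite F] [IsAlgClosed F]
  {A : Type u} [NonUnitalNonAssocCommRing A] [Module F A] [IsScalarTower F A A]
  [SMulCommClass F A A] {D : ℕ → Submodule F A} {π : ℕ → J →ₗ[F] A}

omit [Module.Finite F J] [Infinite F] [IsAlgClosed F] in
private theorem WC_adapted [Module.Finite F J] (hn : IsNilpotentAlg F J) {n : ℕ} (hng : ngen F J = n)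
    {k : ℕ} (y : Fin k → J)
    (hy : LinearIndependent F (fun i => (jpow F J 2).mkQ (y i))) (hk : k ≤ n)
    (M : Submodule F J) (hM : Submodule.span F (Set.range y) ⊔ M ⊔ jpow F J 2 = ⊤) :
    ∃ x : Fin n → J, Gens F J x ∧ (∀ i : Fin k, x (Fin.castLE hk i) = y i) ∧
      ∀ i : Fin n, k ≤ (i : ℕ) → x i ∈ M := by
  subst hng
  exact exists_adapted hn y hy hk M hM

omit [Infinite F] [IsAlgClosed F] in
/-- rank-nullity for one layer -/
private theorem WC_layer (P Q : Submodule F J) (R : Submodule F A) (f : J →ₗ[F] A)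
    (hmap : P.map f = R) (hQP : Q ≤ P) (hQ : ∀ a ∈ Q, f a = 0)
    (hd : finrank F P ≤ finrank F R + finrank F Q) (a : J) (ha : a ∈ P) (hfa : f a = 0) :
    a ∈ Q := by
  have h1 := LinearMap.finrank_range_add_finrank_ker (f.domRestrict P)
  rw [LinearMap.range_domRestrict, hmap] at h1
  have h2 : Q ≤ (LinearMap.ker (f.domRestrict P)).map P.subtype := by
    intro b hb
    refine ⟨⟨b, hQP hb⟩, ?_, rfl⟩
    rw [SetLike.mem_coe, LinearMap.mem_ker]
    exact hQ b hb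
  have h3 : finrank F ((LinearMap.ker (f.domRestrict P)).map P.subtype) =
      finrank F (LinearMap.ker (f.domRestrict P)) :=
    Submodule.finrank_map_subtype_eq P _
  have h4 := Submodule.eq_of_le_of_finrank_le h2 (by omega)
  rw [h4]
  refine ⟨⟨a, ha⟩, ?_, rfl⟩
  rw [SetLike.mem_coe, LinearMap.mem_ker]
  exact hfa

omit [Module.Finite F J] in
/-- two isotropic letters -/
private theorem WC_isotropic (h2 : (2 : F) ≠ 0) (φ : A →ₗ[F] F)
    (V : Submodule F A) (hV : finrank F V = 2)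
    (hnd : ∀ v ∈ V, (∀ w ∈ V, φ (v * w) = 0) → v = 0) :
    ∃ y0 ∈ V, ∃ y1 ∈ V, φ (y0 * y0) = 0 ∧ φ (y1 * y1) = 0 ∧ φ (y0 * y1) ≠ 0 := by
  obtain ⟨y0, hy0, hy00, hy0ne⟩ : ∃ y0 ∈ V, φ (y0 * y0) = 0 ∧ y0 ≠ 0 := by
    have hlt : 1 < finrank F V := by omega
    obtain ⟨u, hu⟩ : ∃ u : V, u ≠ 0 := by
      by_contra hcon
      push Not at hcon
      have : Subsingleton V := ⟨fun a b => by rw [hcon a, hcon b]⟩
      rw [Module.finrank_zero_of_subsingleton] at hV
      omega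
    obtain ⟨w, hw⟩ : ∃ w : V, w ∉ Submodule.span F {u} := by
      by_contra hcon
      push Not at hcon
      have h3 : (⊤ : Submodule F V) ≤ Submodule.span F {u} := fun a _ => hcon a
      have : Module.Finite F V := Module.finite_of_finrank_pos (by omega)
      have h4 := Submodule.finrank_mono h3
      rw [finrank_top, hV] at h4
      have h5 := finrank_span_singleton (K := F) hu
      omega
    by_cases h0 : φ (u.1 * u.1) = 0
    · exact ⟨u.1, u.2, h0, fun h => hu (Subtype.ext h)⟩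
    · have hdeg : (Polynomial.C (φ (u.1 * u.1)) * Polynomial.X ^ 2 +
          Polynomial.C (2 * φ (w.1 * u.1)) * Polynomial.X +
          Polynomial.C (φ (w.1 * w.1))).degree = 2 := Polynomial.degree_quadratic h0
      obtain ⟨t, ht⟩ := IsAlgClosed.exists_root (Polynomial.C (φ (u.1 * u.1)) * Polynomial.X ^ 2 +
          Polynomial.C (2 * φ (w.1 * u.1)) * Polynomial.X +
          Polynomial.C (φ (w.1 * w.1))) (by rw [hdeg]; norm_num)
      refine ⟨w.1 + t • u.1, V.add_mem w.2 (V.smul_mem t u.2), ?_, ?_⟩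
      · rw [Polynomial.IsRoot.def] at ht
        simp only [Polynomial.eval_add, Polynomial.eval_mul, Polynomial.eval_C,
          Polynomial.eval_pow, Polynomial.eval_X] at ht
        rw [add_mul, mul_add, mul_add, smul_mul_smul_comm, mul_smul_comm, smul_mul_assoc,
          mul_comm u.1 w.1]
        simp only [map_add, map_smul, smul_eq_mul]
        linear_combination ht
      · intro h3
        apply hw
        rw [Submodule.mem_span_singleton]
        refine ⟨-t, Subtype.ext ?_⟩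
        have : w.1 = -(t • u.1) := eq_neg_of_add_eq_zero_left h3
        rw [this]
        simp
  obtain ⟨w, hw, hwne⟩ : ∃ w ∈ V, φ (y0 * w) ≠ 0 := by
    by_contra hcon
    push Not at hcon
    exact hy0ne (hnd y0 hy0 hcon)
  refine ⟨y0, hy0, w + (-(φ (w * w)) / (2 * φ (y0 * w))) • y0,
    V.add_mem hw (V.smul_mem _ hy0), hy00, ?_, ?_⟩
  · rw [add_mul, mul_add, mul_add, smul_mul_smul_comm, mul_smul_comm, smul_mul_assoc,
      mul_comm w y0]
    simp only [map_add, map_smul, smul_eq_mul, hy00]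
    field_simp
    ring
  · rw [mul_add, mul_smul_comm]
    simp only [map_add, map_smul, smul_eq_mul, hy00, mul_zero, add_zero]
    exact hwne

omit [Infinite F] [IsAlgClosed F] in
/-- the layers `D 3, .., D 6`: `s (s s) ≠ 0`, and `s h = 0` implies `h = 0` for `h` in `D 3` -/
private theorem WC_third (hG : GJ F A 6 D) {s : A} (hs : s ∈ D 2) (φ : A →ₗ[F] F)
    (hφ : ∀ a ∈ D 2, a = φ a • s)
    (hcomm : ∀ v ∈ D 1, ∀ q ∈ D 2, ∀ b : A, v * (q * b) = q * (v * b))
    (hnd : ∀ v ∈ D 1, (∀ w ∈ D 1, v * w = 0) → v = 0) :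
    ∀ h ∈ D 3, s * h = 0 → h = 0 := by
  have m11 : ∀ v ∈ D 1, ∀ w ∈ D 1, v * w ∈ D 2 := fun v hv w hw =>
    hG.mul_mem 1 1 le_rfl le_rfl v hv w hw
  have d3 : D 3 ≤ (D 1).map (LinearMap.mulLeft F s) := by
    refine hG.gen 3 le_rfl _ ?_ ?_
    · intro v hv q hq
      rw [hφ q hq, mul_smul_comm]
      refine Submodule.smul_mem _ _ ⟨v, hv, ?_⟩
      rw [LinearMap.mulLeft_apply, mul_comm]
    · intro q hq v hv
      rw [hφ q hq, smul_mul_assoc]
      exact Submodule.smul_mem _ _ ⟨v, hv, rfl⟩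
  have d4 : D 4 ≤ Submodule.span F {s * s} := by
    refine hG.gen 4 (by norm_num) _ ?_ ?_
    · intro v hv a ha
      obtain ⟨w, hw, rfl⟩ := d3 ha
      rw [LinearMap.mulLeft_apply, hcomm v hv s hs w, hφ _ (m11 v hv w hw), mul_smul_comm]
      exact Submodule.smul_mem _ _ (Submodule.mem_span_singleton_self _)
    · intro q hq p hp
      rw [hφ q hq, hφ p hp, smul_mul_assoc, mul_smul_comm]
      exact Submodule.smul_mem _ _ (Submodule.smul_mem _ _ (Submodule.mem_span_singleton_self _))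
  have d5 : ∀ f ∈ D 5, ∃ u ∈ D 1, f = s * (s * u) := by
    have h5 : D 5 ≤ (D 1).map (LinearMap.mulLeft F s ∘ₗ LinearMap.mulLeft F s) := by
      refine hG.gen 5 (by norm_num) _ ?_ ?_
      · intro v hv a ha
        obtain ⟨c, rfl⟩ := Submodule.mem_span_singleton.mp (d4 ha)
        rw [mul_smul_comm, hcomm v hv s hs s]
        refine Submodule.smul_mem _ _ ⟨v, hv, ?_⟩
        rw [LinearMap.comp_apply, LinearMap.mulLeft_apply, LinearMap.mulLeft_apply, mul_comm v s]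
      · intro q hq a ha
        obtain ⟨w, hw, rfl⟩ := d3 ha
        rw [hφ q hq, smul_mul_assoc]
        exact Submodule.smul_mem _ _ ⟨w, hw, rfl⟩
    intro f hf
    obtain ⟨u, hu, rfl⟩ := h5 hf
    exact ⟨u, hu, rfl⟩
  have d6 : D 6 ≤ Submodule.span F {s * (s * s)} := by
    refine hG.gen 6 (by norm_num) _ ?_ ?_
    · intro v hv a ha
      obtain ⟨u, hu, rfl⟩ := d5 a ha
      rw [hcomm v hv s hs, hcomm v hv s hs, hφ _ (m11 v hv u hu), mul_smul_comm, mul_smul_comm]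
      exact Submodule.smul_mem _ _ (Submodule.mem_span_singleton_self _)
    · intro q hq a ha
      obtain ⟨c, rfl⟩ := Submodule.mem_span_singleton.mp (d4 ha)
      rw [hφ q hq, smul_mul_assoc, mul_smul_comm]
      exact Submodule.smul_mem _ _ (Submodule.smul_mem _ _ (Submodule.mem_span_singleton_self _))
  have hsss : s * (s * s) ≠ 0 := by
    intro h0
    rw [h0, Submodule.span_zero_singleton, le_bot_iff] at d6
    have := hG.top
    rw [d6, finrank_bot] at this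
    omega
  intro h hh h0
  obtain ⟨v0, hv0, rfl⟩ := d3 hh
  rw [LinearMap.mulLeft_apply] at h0 ⊢
  have hv00 : v0 = 0 := by
    refine hnd v0 hv0 fun u hu => ?_
    have e : u * (s * (s * v0)) = 0 := by rw [h0, mul_zero]
    rw [hcomm u hu s hs, hcomm u hu s hs, hφ _ (m11 u hu v0 hv0), mul_smul_comm,
      mul_smul_comm] at e
    have e2 := (smul_eq_zero.mp e).resolve_right hsss
    rw [mul_comm v0 u, hφ _ (m11 u hu v0 hv0), e2, zero_smul]
  rw [hv00, mul_zero]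

/-- with `Φ 3 = J^3` in the conclusion -/
theorem weightsC' (h2 : (2 : F) ≠ 0) (hJ : IsJordan J) {e : J} (he : e ≠ 0)
    (htop : jpow F J 6 = Submodule.span F {e}) (hbot : jpow F J 7 = ⊥)
    (hG : GJ F A 6 D)
    (hmap : ∀ i, 1 ≤ i → (jpow F J i).map (π i) = D i)
    (hmul : ∀ i j, 1 ≤ i → 1 ≤ j → ∀ a ∈ jpow F J i, ∀ b ∈ jpow F J j,
      π (i + j) (a * b) = π i a * π j b)
    (hkill : ∀ i, 1 ≤ i → ∀ a ∈ jpow F J (i + 1), π i a = 0)
    (hdim : ∀ i, 1 ≤ i → finrank F (D i) + finrank F (jpow F J (i + 1)) ≤ finrank F (jpow F J i))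
    (d1 : finrank F (D 1) = 2) (d2 : finrank F (D 2) = 1) (d3 : finrank F (D 3) = 2)
    (d4 : finrank F (D 4) = 1) (d5 : finrank F (D 5) = 2)
    (hd : finrank F (jpow F J 2) ≤ 7) (hn : ngen F J = 4) :
    ∃ (x : Fin 4 → J) (Φ : ℕ → Submodule F J), Gens F J x ∧ Filt F x ![1, 1, 2, 2] Φ ∧ Φ 7 = ⊥ ∧
      Φ 3 = jpow F J 3 ∧
      x 0 * x 0 ∈ Φ 3 ∧ x 1 * x 1 ∈ Φ 3 ∧ x 0 * x 1 ∉ Φ 3 := by
  have hnil : IsNilpotentAlg F J := ⟨7, by norm_num, hbot⟩
  have hf7 : finrank F (jpow F J 7) = 0 := by rw [hbot]; exact finrank_bot F J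
  have e2 : _ + finrank F (jpow F J 3) ≤ _ := hdim 2 (by norm_num)
  have e3 : _ + finrank F (jpow F J 4) ≤ _ := hdim 3 (by norm_num)
  have e4 : _ + finrank F (jpow F J 5) ≤ _ := hdim 4 (by norm_num)
  have e5 : _ + finrank F (jpow F J 6) ≤ _ := hdim 5 (by norm_num)
  have e6 : _ + finrank F (jpow F J 7) ≤ _ := hdim 6 (by norm_num)
  have d6 := hG.top
  rw [d2] at e2
  rw [d3] at e3
  rw [d4] at e4
  rw [d5] at e5
  rw [d6] at e6
  -- (0)
  have hlay : ∀ i, 2 ≤ i → i ≤ 6 → ∀ a ∈ jpow F J i, π i a = 0 → a ∈ jpow F J (i + 1) := by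
    intro i hi hi6
    refine WC_layer _ _ _ (π i) (hmap i (by omega)) (jpow_succ_le i) (hkill i (by omega)) ?_
    obtain rfl | rfl | rfl | rfl | rfl : i = 2 ∨ i = 3 ∨ i = 4 ∨ i = 5 ∨ i = 6 := by omega
    · show _ ≤ _ + finrank F (jpow F J 3)
      omega
    · show _ ≤ _ + finrank F (jpow F J 4)
      omega
    · show _ ≤ _ + finrank F (jpow F J 5)
      omega
    · show _ ≤ _ + finrank F (jpow F J 6)
      omega
    · show _ ≤ _ + finrank F (jpow F J 7)
      omega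
  -- (1)
  have hfin := hG.fin
  obtain ⟨hcomm, hnd, -, -, -⟩ := H1 hG d2
  obtain ⟨s, hs, hs0, φ, hφs, hφ⟩ := exists_coord d2
  have m11 : ∀ v ∈ D 1, ∀ w ∈ D 1, v * w ∈ D 2 := fun v hv w hw =>
    hG.mul_mem 1 1 le_rfl le_rfl v hv w hw
  obtain ⟨y0, hy0, y1, hy1, h00, h11, h01⟩ := WC_isotropic h2 φ (D 1) d1 (by
    intro v hv hvw
    refine hnd v hv fun w hw => ?_
    rw [hφ _ (m11 v hv w hw), hvw w hw, zero_smul])
  have h00' : y0 * y0 = 0 := by rw [hφ _ (m11 y0 hy0 y0 hy0), h00, zero_smul]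
  have h11' : y1 * y1 = 0 := by rw [hφ _ (m11 y1 hy1 y1 hy1), h11, zero_smul]
  have h01' : y0 * y1 = φ (y0 * y1) • s := hφ _ (m11 y0 hy0 y1 hy1)
  have h01ne : y0 * y1 ≠ 0 := by
    intro h
    rw [h, map_zero] at h01
    exact h01 rfl
  have hli : ∀ a b : F, a • y0 + b • y1 = 0 → a = 0 ∧ b = 0 := by
    intro a b hab
    have e1 : y0 * (a • y0 + b • y1) = 0 := by rw [hab, mul_zero]
    have e2 : y1 * (a • y0 + b • y1) = 0 := by rw [hab, mul_zero]
    rw [mul_add, mul_smul_comm, mul_smul_comm, h00', smul_zero, zero_add] at e1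
    rw [mul_add, mul_smul_comm, mul_smul_comm, h11', smul_zero, add_zero, mul_comm y1 y0] at e2
    exact ⟨(smul_eq_zero.mp e2).resolve_right h01ne, (smul_eq_zero.mp e1).resolve_right h01ne⟩
  have hspan : ∀ v ∈ D 1, ∃ a b : F, v = a • y0 + b • y1 := by
    have hle : Submodule.span F {y0, y1} ≤ D 1 := by
      rw [Submodule.span_le]
      rintro v (rfl | rfl)
      · exact hy0
      · exact hy1
    have hli2 : LinearIndependent F ![y0, y1] := by
      rw [LinearIndependent.pair_iff]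
      exact hli
    have hc : finrank F (Submodule.span F (Set.range ![y0, y1])) = 2 := by
      rw [finrank_span_eq_card hli2, Fintype.card_fin]
    rw [Matrix.range_cons, Matrix.range_cons, Matrix.range_empty, Set.union_empty,
      Set.singleton_union] at hc
    have heq := Submodule.eq_of_le_of_finrank_le hle (by omega)
    intro v hv
    rw [← heq, Submodule.mem_span_pair] at hv
    obtain ⟨a, b, h⟩ := hv
    exact ⟨a, b, h.symm⟩
  have hlift : ∀ v ∈ D 1, ∃ x : J, π 1 x = v := by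
    intro v hv
    rw [← hmap 1 le_rfl] at hv
    obtain ⟨x, -, hx⟩ := hv
    exact ⟨x, hx⟩
  obtain ⟨x0, hx0⟩ := hlift y0 hy0
  obtain ⟨x1, hx1⟩ := hlift y1 hy1
  have hπ1 : ∀ a : J, π 1 a ∈ D 1 := by
    intro a
    rw [← hmap 1 le_rfl]
    exact ⟨a, mem_jpow_one a, rfl⟩
  have hmul1 : ∀ a b : J, π 2 (a * b) = π 1 a * π 1 b := fun a b =>
    hmul 1 1 le_rfl le_rfl a (mem_jpow_one a) b (mem_jpow_one b)
  -- (2)
  have hM2 : jpow F J 2 ≤ LinearMap.ker (π 1) := fun a ha => hkill 1 le_rfl a ha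
  obtain ⟨x, hx, hxy, hxM⟩ := WC_adapted hnil hn ![x0, x1] (by
    have : (fun i => (jpow F J 2).mkQ (![x0, x1] i)) =
        ![(jpow F J 2).mkQ x0, (jpow F J 2).mkQ x1] := by
      funext i
      fin_cases i <;> rfl
    rw [this, LinearIndependent.pair_iff]
    intro a b hab
    rw [← map_smul, ← map_smul, ← map_add, Submodule.mkQ_apply,
      Submodule.Quotient.mk_eq_zero] at hab
    have := hkill 1 le_rfl _ hab
    rw [map_add, map_smul, map_smul, hx0, hx1] at this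
    exact hli a b this) (by norm_num : 2 ≤ 4) (LinearMap.ker (π 1)) (by
    rw [eq_top_iff]
    intro a _
    refine Submodule.mem_sup_left ?_
    obtain ⟨c, d, hcd⟩ := hspan _ (hπ1 a)
    have : a = (c • x0 + d • x1) + (a - (c • x0 + d • x1)) := by abel
    rw [this]
    refine Submodule.add_mem_sup ?_ ?_
    · refine Submodule.add_mem _ (Submodule.smul_mem _ _ (Submodule.subset_span ⟨0, rfl⟩))
        (Submodule.smul_mem _ _ (Submodule.subset_span ⟨1, rfl⟩))
    · rw [LinearMap.mem_ker, map_sub, map_add, map_smul, map_smul, hx0, hx1, hcd, sub_self])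
  have hx0' : x 0 = x0 := hxy 0
  have hx1' : x 1 = x1 := hxy 1
  -- (3)
  have C1 : ∀ w, π 1 w = 0 → ∀ k, 1 ≤ k → ∀ m ∈ jpow F J k, w * m ∈ jpow F J (k + 2) := by
    intro w hw k hk m hm
    have hwm : w * m ∈ jpow F J (k + 1) := mul_mem' _ (by omega) (mem_jpow_one w) hm
    have hz : π (k + 1) (w * m) = 0 := by
      rw [add_comm k 1, hmul 1 k le_rfl hk w (mem_jpow_one w) m hm, hw, zero_mul]
    rcases Nat.lt_or_ge 6 (k + 1) with h | h
    · have h7 := jpow_anti (F := F) (J := J) (by omega : 7 ≤ k + 1) hwm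
      rw [hbot, Submodule.mem_bot] at h7
      rw [h7]
      exact Submodule.zero_mem _
    · exact hlay (k + 1) (by omega) h _ hwm hz
  have C1' : ∀ w, π 1 w = 0 → ∀ k, 1 ≤ k → ∀ m ∈ jpow F J k, m * w ∈ jpow F J (k + 2) := by
    intro w hw k hk m hm
    rw [mul_comm]
    exact C1 w hw k hk m hm
  -- (4)
  have C2 : ∀ w, π 1 w = 0 → ∀ w', π 1 w' = 0 → w * w' ∈ jpow F J 4 := by
    intro w hw w' hw'
    have h3 : w * w' ∈ jpow F J 3 := C1 w hw 1 le_rfl w' (mem_jpow_one w')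
    refine hlay 3 (by norm_num) (by norm_num) _ h3 ?_
    refine WC_third hG hs φ hφ hcomm hnd _ ?_ ?_
    · rw [← hmap 3 (by norm_num)]
      exact ⟨_, h3, rfl⟩
    · have e := gJ3 F h2 hJ x0 x1 w w'
      have t1 : (x1 * w) * (x0 * w') ∈ jpow F J 6 :=
        mul_mem' (i := 3) (j := 3) _ (by norm_num) (C1' w hw 1 le_rfl x1 (mem_jpow_one x1))
          (C1' w' hw' 1 le_rfl x0 (mem_jpow_one x0))
      have t2 : (w * x0) * (x1 * w') ∈ jpow F J 6 :=
        mul_mem' (i := 3) (j := 3) _ (by norm_num) (C1 w hw 1 le_rfl x0 (mem_jpow_one x0))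
          (C1' w' hw' 1 le_rfl x1 (mem_jpow_one x1))
      have t3 : w * ((x0 * x1) * w') ∈ jpow F J 6 :=
        C1 w hw 4 (by norm_num) _ (C1' w' hw' 2 (by norm_num) _
          (mul_mem' _ (by norm_num) (mem_jpow_one x0) (mem_jpow_one x1)))
      have t4 : x0 * ((x1 * w) * w') ∈ jpow F J 6 :=
        mul_mem' (i := 1) (j := 5) _ (by norm_num) (mem_jpow_one x0)
          (C1' w' hw' 3 (by norm_num) _ (C1' w hw 1 le_rfl x1 (mem_jpow_one x1)))
      have t5 : x1 * ((w * x0) * w') ∈ jpow F J 6 :=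
        mul_mem' (i := 1) (j := 5) _ (by norm_num) (mem_jpow_one x1)
          (C1' w' hw' 3 (by norm_num) _ (C1 w hw 1 le_rfl x0 (mem_jpow_one x0)))
      have h6 : (x0 * x1) * (w * w') ∈ jpow F J 6 := by
        have : (x0 * x1) * (w * w') = w * ((x0 * x1) * w') + x0 * ((x1 * w) * w') +
            x1 * ((w * x0) * w') - (x1 * w) * (x0 * w') - (w * x0) * (x1 * w') := by
          rw [← e]
          abel
        rw [this]
        exact Submodule.sub_mem _ (Submodule.sub_mem _ (Submodule.add_mem _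
          (Submodule.add_mem _ t3 t4) t5) t1) t2
      have h5 := hkill 5 (by norm_num) _ h6
      have h5' := hmul 2 3 (by norm_num) (by norm_num) (x0 * x1)
        (mul_mem' _ (by norm_num) (mem_jpow_one x0) (mem_jpow_one x1)) _ h3
      norm_num only at h5'
      rw [h5, hmul1, hx0, hx1, h01', smul_mul_assoc] at h5'
      exact (smul_eq_zero.mp h5'.symm).resolve_left h01
  -- (5)
  let Φ : ℕ → Submodule F J := fun s =>
    if s ≤ 1 then ⊤ else if s = 2 then LinearMap.ker (π 1) else jpow F J s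
  have hΦ1 : ∀ s, s ≤ 1 → Φ s = ⊤ := fun s hs => if_pos hs
  have hΦ2 : Φ 2 = LinearMap.ker (π 1) := rfl
  have hΦ3 : ∀ s, 3 ≤ s → Φ s = jpow F J s := by
    intro s hs
    simp only [Φ]
    rw [if_neg (by omega), if_neg (by omega)]
  have hge : ∀ s, jpow F J s ≤ Φ s := by
    intro s
    rcases Nat.lt_or_ge s 2 with h | h
    · rw [hΦ1 s (by omega)]; exact le_top
    · rcases Nat.eq_or_lt_of_le h with rfl | h
      · exact hM2
      · rw [hΦ3 s (by omega)]
  have hmulΦ : ∀ m n, m ≤ n → ∀ p ∈ Φ m, ∀ q ∈ Φ n, p * q ∈ Φ (m + n) := by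
    intro m n hmn p hp q hq
    rcases Nat.lt_or_ge m 2 with hm | hm
    · rcases Nat.lt_or_ge n 2 with hn' | hn'
      · exact hge _ (mul_mem' _ (by omega) (mem_jpow_one p) (mem_jpow_one q))
      · rcases Nat.eq_or_lt_of_le hn' with rfl | hn'
        · exact hge _ (jpow_anti (by omega) (C1' q hq 1 le_rfl p (mem_jpow_one p)))
        · rw [hΦ3 n (by omega)] at hq
          exact hge _ (mul_mem' _ (by omega) (mem_jpow_one p) hq)
    · rcases Nat.eq_or_lt_of_le hm with rfl | hm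
      · rcases Nat.eq_or_lt_of_le hmn with rfl | hn'
        · exact hge _ (C2 p hp q hq)
        · rw [hΦ3 n (by omega)] at hq
          rw [add_comm]
          exact hge _ (C1 p hp n (by omega) q hq)
      · rw [hΦ3 m (by omega)] at hp
        rw [hΦ3 n (by omega)] at hq
        exact hge _ (mul_mem_jpow hp hq)
  refine ⟨x, Φ, hx, ⟨?_, ?_, ?_⟩, ?_, hΦ3 3 le_rfl, ?_, ?_, ?_⟩
  · intro m n hmn
    rcases Nat.lt_or_ge m 2 with hm | hm
    · rw [hΦ1 m (by omega)]; exact le_top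
    · rcases Nat.eq_or_lt_of_le hm with rfl | hm
      · rcases Nat.eq_or_lt_of_le hmn with rfl | hn'
        · exact le_rfl
        · rw [hΦ3 n (by omega)]
          exact (jpow_anti (by omega)).trans hM2
      · rw [hΦ3 m (by omega), hΦ3 n (by omega)]
        exact jpow_anti hmn
  · intro m n p hp q hq
    rcases le_total m n with h | h
    · exact hmulΦ m n h p hp q hq
    · rw [mul_comm, add_comm]
      exact hmulΦ n m h q hq p hp
  · intro i
    fin_cases i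
    · exact Submodule.mem_top
    · exact Submodule.mem_top
    · exact hxM 2 (by decide)
    · exact hxM 3 (by decide)
  · rw [hΦ3 7 (by norm_num), hbot]
  · rw [hΦ3 3 le_rfl, hx0']
    refine hlay 2 le_rfl (by norm_num) _
      (mul_mem' _ (by norm_num) (mem_jpow_one x0) (mem_jpow_one x0)) ?_
    rw [hmul1, hx0, h00']
  · rw [hΦ3 3 le_rfl, hx1']
    refine hlay 2 le_rfl (by norm_num) _
      (mul_mem' _ (by norm_num) (mem_jpow_one x1) (mem_jpow_one x1)) ?_
    rw [hmul1, hx1, h11']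
  · rw [hΦ3 3 le_rfl, hx0', hx1']
    intro h
    have := hkill 2 (by norm_num) _ h
    rw [hmul1, hx0, hx1] at this
    exact h01ne this

theorem weightsC (h2 : (2 : F) ≠ 0) (hJ : IsJordan J) {e : J} (he : e ≠ 0)
    (htop : jpow F J 6 = Submodule.span F {e}) (hbot : jpow F J 7 = ⊥)
    (hG : GJ F A 6 D)
    (hmap : ∀ i, 1 ≤ i → (jpow F J i).map (π i) = D i)
    (hmul : ∀ i j, 1 ≤ i → 1 ≤ j → ∀ a ∈ jpow F J i, ∀ b ∈ jpow F J j,
      π (i + j) (a * b) = π i a * π j b)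
    (hkill : ∀ i, 1 ≤ i → ∀ a ∈ jpow F J (i + 1), π i a = 0)
    (hdim : ∀ i, 1 ≤ i → finrank F (D i) + finrank F (jpow F J (i + 1)) ≤ finrank F (jpow F J i))
    (d1 : finrank F (D 1) = 2) (d2 : finrank F (D 2) = 1) (d3 : finrank F (D 3) = 2)
    (d4 : finrank F (D 4) = 1) (d5 : finrank F (D 5) = 2)
    (hd : finrank F (jpow F J 2) ≤ 7) (hn : ngen F J = 4) :
    ∃ (x : Fin 4 → J) (Φ : ℕ → Submodule F J), Gens F J x ∧ Filt F x ![1, 1, 2, 2] Φ ∧ Φ 7 = ⊥ ∧
      x 0 * x 0 ∈ Φ 3 ∧ x 1 * x 1 ∈ Φ 3 ∧ x 0 * x 1 ∉ Φ 3 := by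
  obtain ⟨x, Φ, h1, h2', h3, -, h4, h5, h6⟩ := weightsC' h2 hJ he htop hbot hG hmap hmul hkill hdim
    d1 d2 d3 d4 d5 hd hn
  exact ⟨x, Φ, h1, h2', h3, h4, h5, h6⟩

end JD
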