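import Pool.Agent.H9.JP.Mono
import Pool.Agent.H9.JH.GrFilt
import Pool.Agent.H9.JH.GrQuot
import Pool.Agent.H9.JN.CurvX

set_option autoImplicit false
set_option linter.unusedSectionVars false

/-!
# JP Core: the graded quotient at a slope where one bidegree is on top

Letters: `x 0` of weight `p`, the others of weight `r > p`. `N = p A0 + r B0` has no other representation `p a + r b`; monomials of
weight `> N` vanish, those of weight `N` are multiples of `e` and one is nonzero.
-/

namespace JD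

universe u

open Module

/-- weight `p` for the letter 0, `r` for the others -/
def lw {m : ℕ} (p r : ℕ) : Fin (m + 1) → ℕ := fun i => if i = 0 then p else r

section lw

variable {m : ℕ}

theorem mw_lw (p r : ℕ) (t : FreeMagma (Fin (m + 1))) :
    mw (lw p r) t = p * mw (lw 1 0) t + r * mw (lw 0 1) t := by
  refine mw_lin _ _ _ p r (fun i => ?_) t
  unfold lw
  split_ifs <;> simp

theorem dg_lw (t : FreeMagma (Fin (m + 1))) : dg t = mw (lw 1 0) t + mw (lw 0 1) t := by
  have := mw_lin (lw 1 0) (lw 0 1) (fun _ : Fin (m + 1) => 1) 1 1 (fun i => by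
    unfold lw
    split_ifs <;> simp) t
  rw [dg, this, one_mul, one_mul]

theorem lw_pos {p r : ℕ} (_ : 1 ≤ p) (hpr : p < r) (i : Fin (m + 1)) : p ≤ lw p r i := by
  unfold lw
  split_ifs <;> omega

end lw

variable {F : Type u} [Field F] {J : Type u} [NonUnitalNonAssocCommRing J] [Module F J]
  [IsScalarTower F J J] [SMulCommClass F J J]

/-- the data of the graded quotient -/
structure CQ (F : Type u) [Field F] {J : Type u} [NonUnitalNonAssocCommRing J] [Module F J]
    [IsScalarTower F J J] [SMulCommClass F J J] {m : ℕ} (x : Fin (m + 1) → J) (p r A0 B0 N : ℕ)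
    (A : Type u) [NonUnitalNonAssocCommRing A] [Module F A] [IsScalarTower F A A]
    [SMulCommClass F A A] (D : ℕ → Submodule F A) (π : ℕ → J →ₗ[F] A) (z : Fin (m + 1) → A) :
    Prop where
  gf : GF F A N D
  uniq : ∀ a b, p * a + r * b = N → a = A0 ∧ b = B0
  sum : N = p * A0 + r * B0
  one : 1 ≤ p
  lt : p < r
  /-- the values of the monomials -/
  val : ∀ t, π (mw (lw p r) t) (mev x t) = mev z t
  mem : ∀ t, mev z t ∈ D (mw (lw p r) t)
  le : ∀ s, 1 ≤ s → ∀ T : Submodule F A, (∀ t, mw (lw p r) t = s → mev z t ∈ T) → D s ≤ T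
  map : ∀ s, 1 ≤ s → (cf F x (lw p r) s).map (π s) = D s
  supp : ∀ s, 1 ≤ s → (¬ ∃ a b, s = p * a + r * b ∧ a ≤ A0 ∧ b ≤ B0) → D s = ⊥
  dim : ∀ s, 1 ≤ s → finrank F (D s) + finrank F (cf F x (lw p r) (s + 1)) ≤
    finrank F (cf F x (lw p r) s)
  mul : ∀ i j, 1 ≤ i → 1 ≤ j → ∀ a ∈ cf F x (lw p r) i, ∀ b ∈ cf F x (lw p r) j,
    π (i + j) (a * b) = π i a * π j b
  kill : ∀ s, 1 ≤ s → ∀ a ∈ cf F x (lw p r) (s + 1), π s a = 0
  inj : ∀ a ∈ cf F x (lw p r) N, π N a = 0 → a = 0
  top : ∃ t, mw (lw p r) t = N ∧ mev z t ≠ 0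

theorem exists_CQ [Infinite F] [Module.Finite F J] (h2 : (2 : F) ≠ 0) (hJ : IsJordan J)
    {m : ℕ} (x : Fin (m + 1) → J) (hg : ∀ T : Submodule F J, (∀ i, x i ∈ T) →
      (∀ b ∈ T, ∀ d ∈ T, b * d ∈ T) → T = ⊤) (p r A0 B0 N : ℕ) (hp : 1 ≤ p) (hpr : p < r)
    (hN : N = p * A0 + r * B0) (hN1 : 1 ≤ N)
    (huniq : ∀ a b, p * a + r * b = N → a = A0 ∧ b = B0) {e : J} (he : e ≠ 0)
    (hZ : ∀ t, N < mw (lw p r) t → mev x t = 0)
    (hE : ∀ t, mw (lw p r) t = N → ∃ k : F, mev x t = k • e)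
    (hne : ∃ t, mw (lw p r) t = N ∧ mev x t ≠ 0) :
    ∃ (A : Type u) (_ : NonUnitalNonAssocCommRing A) (_ : Module F A) (_ : IsScalarTower F A A)
      (_ : SMulCommClass F A A) (D : ℕ → Submodule F A) (π : ℕ → J →ₗ[F] A)
      (z : Fin (m + 1) → A), CQ F x p r A0 B0 N A D π z := by
  have hfilt := cf_filt (F := F) x (lw p r)
  have hone : cf F x (lw p r) 1 = ⊤ := cf_top x _ hg fun i => by
    have := lw_pos hp hpr i
    omega
  have htop : cf F x (lw p r) N = Submodule.span F {e} := by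
    apply le_antisymm
    · refine cf_le x _ fun t ht => ?_
      rcases Nat.eq_or_lt_of_le ht with h | h
      · obtain ⟨k, hk⟩ := hE t h.symm
        rw [hk]
        exact Submodule.smul_mem _ k (Submodule.mem_span_singleton_self e)
      · rw [hZ t h]
        exact Submodule.zero_mem _
    · rw [Submodule.span_singleton_le_iff_mem]
      obtain ⟨t, ht, hne⟩ := hne
      obtain ⟨k, hk⟩ := hE t ht
      have hk0 : k ≠ 0 := by
        rintro rfl
        rw [zero_smul] at hk
        exact hne hk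
      have : e = k⁻¹ • mev x t := by rw [hk, smul_smul, inv_mul_cancel₀ hk0, one_smul]
      rw [this]
      exact Submodule.smul_mem _ _ (mev_mem_cf x _ ht.ge)
  have hbot : cf F x (lw p r) (N + 1) = ⊥ := by
    rw [eq_bot_iff]
    refine cf_le x _ fun t ht => ?_
    rw [hZ t (by omega)]
    exact Submodule.zero_mem _
  obtain ⟨A, i1, i2, i3, i4, D, π, hGF, hmap, hπ, hker, hkill, htk, hdim, hsum⟩ :=
    exists_GF F J h2 hJ (cf F x (lw p r)) N hN1 e he hone
      (fun i _ => cf_anti x _ (Nat.le_succ i)) (fun i j _ _ a ha b hb => cf_mul x _ ha hb)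
      htop hbot
  have hw1 : ∀ t : FreeMagma (Fin (m + 1)), 1 ≤ mw (lw p r) t := fun t => mw_pos _ (fun i => by
    have := lw_pos hp hpr i
    omega) t
  have hval : ∀ t, π (mw (lw p r) t) (mev x t) = mev (fun i => π (lw p r i) (x i)) t := by
    intro t
    induction t with
    | ih1 i => rfl
    | ih2 s t ihs iht =>
      rw [mw_mul, mev_mul, hπ _ _ (hw1 s) (hw1 t) _ (mev_mem_cf x _ le_rfl) _
        (mev_mem_cf x _ le_rfl), ihs, iht, mev_mul]
  have hle : ∀ s, 1 ≤ s → ∀ T : Submodule F A, (∀ t, mw (lw p r) t = s →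
      mev (fun i => π (lw p r i) (x i)) t ∈ T) → D s ≤ T := by
    intro s hs T hT
    rw [← hmap s hs, Submodule.map_le_iff_le_comap]
    refine cf_le x _ fun t ht => ?_
    rw [Submodule.mem_comap]
    rcases Nat.eq_or_lt_of_le ht with h | h
    · have := hT t h.symm
      rw [← hval, ← h] at this
      exact this
    · rw [hkill s hs _ (mev_mem_cf x _ (by omega))]
      exact Submodule.zero_mem _
  have hrep : ∀ s, 1 ≤ s → D s ≠ ⊥ → ∃ a b, s = p * a + r * b := by
    intro s hs hne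
    by_contra hcon
    apply hne
    rw [eq_bot_iff]
    refine hle s hs _ fun t ht => ?_
    exact absurd ⟨_, _, by rw [← ht]; exact mw_lw p r t⟩ hcon
  have hcorep : ∀ k s, 1 ≤ s → N - s = k → D s ≠ ⊥ → s ≤ N ∧ ∃ a b, N - s = p * a + r * b := by
    intro k
    induction k using Nat.strong_induction_on with
    | _ k ih =>
    intro s hs hk hne
    have hsN : s ≤ N := by
      by_contra h
      apply hne
      rw [eq_bot_iff]
      intro a ha
      exact (Submodule.mem_bot F).mpr (hGF.above s (by omega) a ha)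
    refine ⟨hsN, ?_⟩
    rcases Nat.eq_or_lt_of_le hsN with h | h
    · exact ⟨0, 0, by omega⟩
    · obtain ⟨a, ha, ha0⟩ := Submodule.exists_mem_ne_zero_of_ne_bot hne
      have hex : ∃ j, 1 ≤ j ∧ ∃ k ∈ D j, k * a ≠ 0 := by
        by_contra hcon
        push Not at hcon
        exact ha0 (hGF.nd s hs h a ha hcon)
      obtain ⟨j, hj, b, hb, hba⟩ := hex
      have hDj : D j ≠ ⊥ := fun h0 => by
        rw [h0, Submodule.mem_bot] at hb
        rw [hb, zero_mul] at hba
        exact hba rfl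
      have hDs : D (j + s) ≠ ⊥ := fun h0 => by
        have := hGF.mul_mem j s hj hs b hb a ha
        rw [h0, Submodule.mem_bot] at this
        exact hba this
      have hjs : j + s ≤ N := by
        by_contra h
        apply hDs
        rw [eq_bot_iff]
        intro a ha
        exact (Submodule.mem_bot F).mpr (hGF.above _ (by omega) a ha)
      obtain ⟨-, a', b', h1⟩ := ih (N - (j + s)) (by omega) (j + s) (by omega) rfl hDs
      obtain ⟨a'', b'', h2⟩ := hrep j hj hDj
      refine ⟨a' + a'', b' + b'', ?_⟩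
      rw [mul_add, mul_add]
      omega
  refine ⟨A, i1, i2, i3, i4, D, π, fun i => π (lw p r i) (x i), ?_⟩
  refine ⟨hGF, huniq, hN, hp, hpr, hval, ?_, hle, hmap, ?_, hdim, hπ, hkill, htk, ?_⟩
  · intro t
    rw [← hval, ← hmap _ (hw1 t)]
    exact Submodule.mem_map_of_mem (mev_mem_cf x _ le_rfl)
  · intro s hs hcon
    by_contra hne
    obtain ⟨a, b, hab⟩ := hrep s hs hne
    obtain ⟨hsN, a', b', hab'⟩ := hcorep _ s hs rfl hne
    obtain ⟨h1, h2⟩ := huniq (a + a') (b + b') (by rw [mul_add, mul_add]; omega)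
    exact hcon ⟨a, b, hab, by omega, by omega⟩
  · obtain ⟨t, ht, hne⟩ := hne
    refine ⟨t, ht, fun h0 => hne ?_⟩
    rw [← hval, ht] at h0
    exact htk _ (mev_mem_cf x _ ht.ge) h0

section CQ

variable {m : ℕ} {x : Fin (m + 1) → J} {p r A0 B0 N : ℕ} {A : Type u}
  [NonUnitalNonAssocCommRing A] [Module F A] [IsScalarTower F A A] [SMulCommClass F A A]
  {D : ℕ → Submodule F A} {π : ℕ → J →ₗ[F] A} {z : Fin (m + 1) → A}

theorem CQ.wpos (h : CQ F x p r A0 B0 N A D π z) (t : FreeMagma (Fin (m + 1))) :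
    1 ≤ mw (lw p r) t := mw_pos _ (fun i => by
    have := lw_pos h.one h.lt i
    have := h.one
    omega) t

/-- a nonzero monomial has bidegree at most `(A0, B0)` -/
theorem CQ.bideg (h : CQ F x p r A0 B0 N A D π z) {t : FreeMagma (Fin (m + 1))}
    (ht : mev z t ≠ 0) : mw (lw 1 0) t ≤ A0 ∧ mw (lw 0 1) t ≤ B0 := by
  have hne : D (mw (lw p r) t) ≠ ⊥ := fun h0 => by
    have := h.mem t
    rw [h0, Submodule.mem_bot] at this
    exact ht this
  have hex : ∃ a b, mw (lw p r) t = p * a + r * b ∧ a ≤ A0 ∧ b ≤ B0 := by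
    by_contra hcon
    exact hne (h.supp _ (h.wpos t) hcon)
  obtain ⟨a, b, hab, ha, hb⟩ := hex
  rw [mw_lw] at hab
  obtain ⟨a', rfl⟩ := Nat.exists_eq_add_of_le ha
  obtain ⟨b', rfl⟩ := Nat.exists_eq_add_of_le hb
  have hs := h.sum
  have := h.uniq (mw (lw 1 0) t + a') (mw (lw 0 1) t + b') (by
    rw [mul_add, mul_add] at hs ⊢
    omega)
  omega

theorem CQ.gen (h : CQ F x p r A0 B0 N A D π z) (T : Submodule F A) (hT : ∀ i, z i ∈ T)
    (hmul : ∀ b ∈ T, ∀ d ∈ T, b * d ∈ T) : T = ⊤ := by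
  have h1 : ∀ t, mev z t ∈ T := by
    intro t
    induction t with
    | ih1 i => exact hT i
    | ih2 s t ihs iht => exact hmul _ ihs _ iht
  have h2 : ∀ s, D s ≤ T := by
    intro s
    rcases Nat.eq_zero_or_pos s with rfl | hs
    · rw [h.gf.zero]; exact bot_le
    · exact h.le s hs T fun t _ => h1 t
  rw [eq_top_iff]
  intro b _
  obtain ⟨a, ha, rfl⟩ := h.gf.all b
  exact Submodule.sum_mem _ fun i _ => h2 i (ha i)

theorem CQ.powTop (h : CQ F x p r A0 B0 N A D π z) (hk : 1 ≤ A0 + B0) :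
    ∃ u : A, u ≠ 0 ∧ jpow F A (A0 + B0) = Submodule.span F {u} ∧ jpow F A (A0 + B0 + 1) = ⊥ ∧
      ∃ t, mw (lw p r) t = N ∧ u = mev z t := by
  obtain ⟨t0, ht0, hne0⟩ := h.top
  have hgen := h.gen
  have hfin := h.gf.fin
  have hd0 := h.uniq _ _ (by rw [← mw_lw]; exact ht0)
  -- `D N` is a line
  have hline : ∀ b ∈ D N, ∃ k : F, b = k • mev z t0 := by
    intro b hb
    have hm : mev z t0 ∈ D N := by rw [← ht0]; exact h.mem t0
    have hf : finrank F (D N) = 1 := h.gf.top
    obtain ⟨k, hk⟩ := (finrank_eq_one_iff_of_nonzero' (⟨mev z t0, hm⟩ : D N) (fun h0 => hne0 (by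
      have := congrArg Subtype.val h0
      exact this))).mp hf ⟨b, hb⟩
    exact ⟨k, by rw [← show k • mev z t0 = b from congrArg Subtype.val hk]⟩
  refine ⟨mev z t0, hne0, ?_, ?_, t0, ht0, rfl⟩
  · apply le_antisymm
    · rw [jpow_eq_cf z hgen hk]
      refine cf_le z _ fun t ht => ?_
      by_cases h0 : mev z t = 0
      · rw [h0]; exact Submodule.zero_mem _
      · have hb := h.bideg h0
        have hdg := dg_lw t
        have ht' : A0 + B0 ≤ dg t := ht
        have hw : mw (lw p r) t = N := by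
          rw [mw_lw, h.sum]
          have h1 : mw (lw 1 0) t = A0 := by omega
          have h2 : mw (lw 0 1) t = B0 := by omega
          rw [h1, h2]
        obtain ⟨k, hk⟩ := hline _ (by rw [← hw]; exact h.mem t)
        rw [hk]
        exact Submodule.smul_mem _ k (Submodule.mem_span_singleton_self _)
    · rw [Submodule.span_singleton_le_iff_mem]
      have := mev_mem_jpow (F := F) z t0
      rwa [dg_lw, hd0.1, hd0.2] at this
  · rw [jpow_eq_cf z hgen (by omega), eq_bot_iff]
    refine cf_le z _ fun t ht => ?_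
    by_contra h0
    have hb := h.bideg h0
    have hdg := dg_lw t
    have ht' : A0 + B0 + 1 ≤ dg t := ht
    omega

end CQ

end JD
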