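import Pool.Agent.H9.JP.Core

set_option autoImplicit false
set_option linter.unusedSectionVars false

/-!
# JP Core5: consequences of the structure of graded cocyclic algebras of class 5 for the graded quotients `CQ`

`gj5_d4`: `D 4 ≠ 0` (text and proof of helper8, `J5_d4`). `CQ.five`.
-/

namespace JD

universe u

open Module

section GJ5

variable {F : Type u} [Field F] {A : Type u} [NonUnitalNonAssocCommRing A] [Module F A]
  [IsScalarTower F A A] [SMulCommClass F A A] {D : ℕ → Submodule F A}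

/-- a layer of dimension zero is `⊥` -/
theorem gj5_bot (hG : GJ F A 5 D) {n : ℕ} (h : Module.finrank F (D n) = 0) : D n = ⊥ := by
  have := hG.fin
  exact Submodule.finrank_eq_zero.1 h

theorem gj5_d4 (hG : GJ F A 5 D) : 1 ≤ Module.finrank F (D 4) := by
  rw [Nat.one_le_iff_ne_zero]
  intro h0
  have hD4 : D 4 = ⊥ := gj5_bot hG h0
  have z4 : ∀ a ∈ D 4, a = 0 := by
    intro a ha
    rw [hD4] at ha
    exact (Submodule.mem_bot F).1 ha
  have m11 : ∀ v ∈ D 1, ∀ w ∈ D 1, v * w ∈ D 2 := fun v hv w hw =>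
    hG.mul_mem 1 1 le_rfl le_rfl v hv w hw
  have m12 : ∀ v ∈ D 1, ∀ q ∈ D 2, v * q ∈ D 3 := fun v hv q hq =>
    hG.mul_mem 1 2 le_rfl (by norm_num) v hv q hq
  have m13 : ∀ v ∈ D 1, ∀ h ∈ D 3, v * h = 0 := fun v hv h hh =>
    z4 _ (hG.mul_mem 1 3 le_rfl (by norm_num) v hv h hh)
  have m22 : ∀ p ∈ D 2, ∀ q ∈ D 2, p * q = 0 := fun p hp q hq =>
    z4 _ (hG.mul_mem 2 2 (by norm_num) (by norm_num) p hp q hq)
  have key : ∀ q ∈ D 2, ∀ v ∈ D 1, ∀ a ∈ D 1, ∀ b ∈ D 1, q * (v * (a * b)) = 0 := by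
    intro q hq v hv a ha b hb
    have e1 := gJ4 F hG.two hG.jordan a b v q
    rw [m13 v hv _ (m12 b hb q hq), m13 v hv _ (m12 a ha q hq), mul_zero, mul_zero, sub_zero,
      sub_zero] at e1
    have e3 := gJ3 F hG.two hG.jordan a b v q
    rw [m22 _ (m11 a ha b hb) q hq, m22 _ (m11 b hb v hv) q hq, m22 _ (m11 v hv a ha) q hq,
      mul_zero, mul_zero, mul_zero, add_zero, add_zero, mul_comm v a] at e3
    rw [mul_comm q, mul_comm v (a * b), e1]
    linear_combination (norm := abel) e3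
  have key2 : ∀ q ∈ D 2, ∀ v ∈ D 1, ∀ p ∈ D 2, q * (v * p) = 0 := by
    intro q hq v hv
    let T : Submodule F A := LinearMap.ker (LinearMap.mulLeft F q ∘ₗ LinearMap.mulLeft F v)
    have hT : D 2 ≤ T := hG.gen2 T fun a ha b hb => key q hq v hv a ha b hb
    exact fun p hp => hT hp
  have key3 : ∀ q ∈ D 2, ∀ h ∈ D 3, q * h = 0 := by
    intro q hq
    let T : Submodule F A := LinearMap.ker (LinearMap.mulLeft F q)
    have hT : D 3 ≤ T := by
      refine hG.gen 3 le_rfl T ?_ ?_
      · intro v hv h hh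
        exact key2 q hq v hv h hh
      · intro p hp h hh
        change q * (p * h) = 0
        rw [mul_comm p h]
        exact key2 q hq h hh p hp
    exact fun h hh => hT hh
  have hD5 : D 5 ≤ ⊥ := by
    refine hG.gen 5 (by norm_num) _ ?_ ?_
    · intro v hv h hh
      rw [z4 h hh, mul_zero]
      exact Submodule.zero_mem _
    · intro q hq h hh
      rw [key3 q hq h hh]
      exact Submodule.zero_mem _
  have h5 := hG.top
  rw [le_bot_iff.1 hD5, finrank_bot] at h5
  exact absurd h5 (by norm_num)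

theorem gj5_d2 (hG : GJ F A 5 D) : 1 ≤ Module.finrank F (D 2) := by
  rw [Nat.one_le_iff_ne_zero]
  intro h0
  have hD2 : D 2 = ⊥ := gj5_bot hG h0
  have z2 : ∀ a ∈ D 2, a = 0 := by
    intro a ha
    rw [hD2] at ha
    exact (Submodule.mem_bot F).1 ha
  refine D3_ne hG le_rfl (by rw [h0]; norm_num) ?_
  rw [eq_bot_iff]
  refine hG.gen 3 le_rfl _ ?_ ?_
  · intro v hv h hh
    rw [z2 h hh, mul_zero]
    exact Submodule.zero_mem _
  · intro q hq h hh
    rw [z2 q hq, zero_mul]
    exact Submodule.zero_mem _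

end GJ5

section mev

variable {F : Type u} [Field F] {A : Type u} [NonUnitalNonAssocCommRing A] [Module F A]
  [IsScalarTower F A A] [SMulCommClass F A A] {m : ℕ}

theorem mev_zero_letter (z : Fin (m + 1) → A) (h0 : z 0 = 0) (t : FreeMagma (Fin (m + 1)))
    (ht : 1 ≤ mw (lw 1 0) t) : mev z t = 0 := by
  induction t with
  | ih1 i =>
    rw [mw_of] at ht
    unfold lw at ht
    split_ifs at ht with h
    · rw [mev_of, h, h0]
    · omega
  | ih2 s t ihs iht =>
    rw [mw_mul] at ht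
    rw [mev_mul]
    rcases Nat.eq_zero_or_pos (mw (lw 1 0) s) with h | h
    · rw [iht (by omega), mul_zero]
    · rw [ihs h, zero_mul]

theorem mev_line (h2 : (2 : F) ≠ 0) (hJ : IsJordan A) {ι : Type} (z : ι → A) (y : A)
    (hz : ∀ i, ∃ k : F, z i = k • y) (t : FreeMagma ι) : ∃ k : F, mev z t = k • xp y (dg t) := by
  induction t with
  | ih1 i => exact hz i
  | ih2 s t ihs iht =>
    obtain ⟨k, hk⟩ := ihs
    obtain ⟨l, hl⟩ := iht
    refine ⟨k * l, ?_⟩
    have h1 : 1 ≤ dg s := mw_pos _ (fun _ => le_rfl) s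
    have h3 : 1 ≤ dg t := mw_pos _ (fun _ => le_rfl) t
    rw [mev_mul, hk, hl, smul_mul_smul_comm, xp_mul F h2 hJ y h1 h3]
    rfl

/-- the monomial `x (x (x ...))` -/
def pm : ℕ → FreeMagma (Fin (m + 1))
  | 0 => FreeMagma.of 0
  | (k + 1) => FreeMagma.of 0 * pm k

theorem mev_pm {B : Type u} [NonUnitalNonAssocCommRing B] (z : Fin (m + 1) → B) (k : ℕ) :
    mev z (pm k) = xp (z 0) (k + 1) := by
  induction k with
  | zero => rfl
  | succ k ih =>
    change z 0 * mev z (pm k) = _
    rw [ih]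
    rfl

theorem mw_pm (a : Fin (m + 1) → ℕ) (k : ℕ) : mw a (pm k) = (k + 1) * a 0 := by
  induction k with
  | zero => change a 0 = _; ring
  | succ k ih =>
    change a 0 + mw a (pm k) = _
    rw [ih]
    ring

end mev

section CQ

variable {F : Type u} [Field F] {J : Type u} [NonUnitalNonAssocCommRing J] [Module F J]
  [IsScalarTower F J J] [SMulCommClass F J J]
  {m : ℕ} {x : Fin (m + 1) → J} {p r A0 B0 N : ℕ} {A : Type u}
  [NonUnitalNonAssocCommRing A] [Module F A] [IsScalarTower F A A] [SMulCommClass F A A]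
  {D : ℕ → Submodule F A} {π : ℕ → J →ₗ[F] A} {z : Fin (m + 1) → A}

/-- The graded quotient of total degree 5: `f k` is the dimension of the degree `k` part of a graded cocyclic algebra of class 5. -/
theorem CQ.five (h : CQ F x p r A0 B0 N A D π z) (h5 : A0 + B0 = 5) :
    ∃ f : ℕ → ℕ, (∀ k, 1 ≤ k → ∀ S : Submodule F A, (∀ t, dg t = k → mev z t ∈ S) →
      f k ≤ finrank F S) ∧ 1 ≤ f 2 ∧ 1 ≤ f 4 ∧ (f 2 ≤ 4 → 1 ≤ f 3) ∧
      (1 ≤ A0 → 1 ≤ B0 → f 2 ≤ 4 → 2 ≤ f 3) := by
  have hinf := h.gf.inf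
  have hfin := h.gf.fin
  have h2 := h.gf.two
  have hJ := h.gf.jordan
  obtain ⟨u, hu, htop, hbot, t0, ht0, hut⟩ := h.powTop (by omega)
  rw [h5] at htop hbot
  obtain ⟨A2, i1, i2, i3, i4, D2, π2, hG, -, hmap, hmul, -, hkill, hinj, -, -⟩ :=
    exists_GJ F A h2 hJ 5 (by norm_num) u hu htop hbot
  have hval : ∀ t, π2 (dg t) (mev z t) = mev (fun i => π2 1 (z i)) t := by
    intro t
    induction t with
    | ih1 i => rfl
    | ih2 s t ihs iht =>
      have h1 : 1 ≤ dg s := mw_pos _ (fun _ => le_rfl) s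
      have h3 : 1 ≤ dg t := mw_pos _ (fun _ => le_rfl) t
      have e : dg (s * t) = dg s + dg t := rfl
      rw [e, mev_mul, hmul _ _ h1 h3 _ (mev_mem_jpow z s) _ (mev_mem_jpow z t), ihs, iht, mev_mul]
  have hlay : ∀ k, 1 ≤ k → ∀ S : Submodule F A, (∀ t, dg t = k → mev z t ∈ S) →
      D2 k ≤ S.map (π2 k) := by
    intro k hk S hS
    rw [← hmap k hk, Submodule.map_le_iff_le_comap, jpow_eq_cf z h.gen hk]
    refine cf_le z _ fun t ht => ?_
    rw [Submodule.mem_comap]
    rcases Nat.eq_or_lt_of_le ht with h' | h'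
    · exact Submodule.mem_map_of_mem (hS t h'.symm)
    · rw [hkill k hk _ (jpow_anti h' (mev_mem_jpow z t))]
      exact Submodule.zero_mem _
  have hfinS : ∀ S : Submodule F A2, Module.Finite F S := fun S => by
    have := hG.fin
    infer_instance
  refine ⟨fun k => finrank F (D2 k), ?_, gj5_d2 hG, gj5_d4 hG, ?_, ?_⟩
  · intro k hk S hS
    have := hfinS (S.map (π2 k))
    exact (Submodule.finrank_mono (hlay k hk S hS)).trans (Submodule.finrank_map_le _ _)
  · intro h24
    rw [Nat.one_le_iff_ne_zero]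
    intro h0
    exact D3_ne hG le_rfl h24 (gj5_bot hG h0)
  · intro hA hB h24
    by_contra hlt
    have h31 : finrank F (D2 3) = 1 := by
      have : finrank F (D2 3) ≠ 0 := fun h0 => D3_ne hG le_rfl h24 (gj5_bot hG h0)
      have hlt' : ¬ 2 ≤ finrank F (D2 3) := hlt
      omega
    have h11 : finrank F (D2 1) ≤ 1 := by
      rcases curv5 hG h31 with h1 | h1
      · exact h1
      · exfalso
        have h24' : finrank F (D2 2) ≤ 4 := h24
        omega
    -- the letters
    set y := π2 1 (z 0) with hy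
    have hz2 : ∀ i, π2 1 (z i) ∈ D2 1 := fun i => by
      rw [← hmap 1 le_rfl, jpow_one]
      exact Submodule.mem_map_of_mem Submodule.mem_top
    have ht0v := hval t0
    have hd0 := h.uniq _ _ (by rw [← mw_lw]; exact ht0)
    have hdg : dg t0 = 5 := by rw [dg_lw, hd0.1, hd0.2, h5]
    have hne : mev (fun i => π2 1 (z i)) t0 ≠ 0 := by
      rw [← hval, hdg, ← hut]
      intro h0
      exact hu (hinj u (by rw [htop]; exact Submodule.mem_span_singleton_self u) h0)
    have hy0 : y ≠ 0 := by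
      intro h0
      exact hne (mev_zero_letter _ h0 t0 (by omega))
    have hline : ∀ b ∈ D2 1, ∃ k : F, b = k • y := by
      intro b hb
      have hf : finrank F (D2 1) = 1 := by
        have := hfinS (D2 1)
        have : finrank F (D2 1) ≠ 0 := fun h0 => hy0 (by
          have h3 := gj5_bot hG h0
          have h4 := hz2 0
          rw [h3, Submodule.mem_bot] at h4
          exact h4)
        omega
      obtain ⟨k, hk⟩ := (finrank_eq_one_iff_of_nonzero' (⟨y, hz2 0⟩ : D2 1) (fun h0 => hy0 (by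
        have := congrArg Subtype.val h0
        exact this))).mp hf ⟨b, hb⟩
      exact ⟨k, by rw [← show k • y = b from congrArg Subtype.val hk]⟩
    obtain ⟨k, hk⟩ := mev_line hG.two hG.jordan _ y (fun i => hline _ (hz2 i)) t0
    rw [hdg] at hk
    have hy5 : xp y 5 ≠ 0 := fun h0 => hne (by rw [hk, h0, smul_zero])
    have e1 := hval (pm 4)
    rw [mev_pm, mev_pm, show dg (pm 4 : FreeMagma (Fin (m + 1))) = 5 from mw_pm _ 4] at e1
    have hz5 : xp (z 0) 5 ≠ 0 := fun h0 => hy5 (by rw [hy, ← e1, h0, map_zero])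
    have hb := h.bideg (t := pm 4) (by rw [mev_pm]; exact hz5)
    have : mw (lw 1 0) (pm 4 : FreeMagma (Fin (m + 1))) = 5 := mw_pm _ 4
    omega

end CQ

end JD
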