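import Pool.Agent.H9.JP.Adapt

set_option autoImplicit false
set_option linter.unusedSectionVars false

/-!
# JP Mono: monomials and the canonical filtration of a weight

`mev x t` = the value of the monomial `t : FreeMagma ι`; `mw a t` = its weight. `cf x a s` = span of all `mev x t` with `mw a t ≥ s`.
-/

namespace JD

universe u v

open Module

/-- the weight of a monomial -/
def mw {ι : Type} (a : ι → ℕ) : FreeMagma ι → ℕ
  | FreeMagma.of i => a i
  | FreeMagma.mul s t => mw a s + mw a t

/-- the value of a monomial -/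
def mev {ι : Type} {J : Type u} [Mul J] (x : ι → J) : FreeMagma ι → J
  | FreeMagma.of i => x i
  | FreeMagma.mul s t => mev x s * mev x t

section basic

variable {ι : Type} {J : Type u} [NonUnitalNonAssocCommRing J]

@[simp] theorem mw_of (a : ι → ℕ) (i : ι) : mw a (FreeMagma.of i) = a i := rfl
@[simp] theorem mw_mul (a : ι → ℕ) (s t : FreeMagma ι) : mw a (s * t) = mw a s + mw a t := rfl
@[simp] theorem mev_of (x : ι → J) (i : ι) : mev x (FreeMagma.of i) = x i := rfl
@[simp] theorem mev_mul (x : ι → J) (s t : FreeMagma ι) : mev x (s * t) = mev x s * mev x t := rfl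

theorem mw_pos (a : ι → ℕ) (ha : ∀ i, 1 ≤ a i) (t : FreeMagma ι) : 1 ≤ mw a t := by
  induction t with
  | ih1 i => exact ha i
  | ih2 s t ihs iht => rw [mw_mul]; omega

theorem mw_lin (a b c : ι → ℕ) (p r : ℕ) (h : ∀ i, c i = p * a i + r * b i) (t : FreeMagma ι) :
    mw c t = p * mw a t + r * mw b t := by
  induction t with
  | ih1 i => exact h i
  | ih2 s t ihs iht => rw [mw_mul, mw_mul, mw_mul, ihs, iht]; ring

variable {F : Type v} [Field F] [Module F J] [IsScalarTower F J J] [SMulCommClass F J J]

variable (F) in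
/-- the canonical filtration -/
def cf (x : ι → J) (a : ι → ℕ) (s : ℕ) : Submodule F J :=
  Submodule.span F {b | ∃ t : FreeMagma ι, s ≤ mw a t ∧ b = mev x t}

theorem mev_mem_cf (x : ι → J) (a : ι → ℕ) {s : ℕ} {t : FreeMagma ι} (h : s ≤ mw a t) :
    mev x t ∈ cf F x a s := Submodule.subset_span ⟨t, h, rfl⟩

theorem cf_anti (x : ι → J) (a : ι → ℕ) {s t : ℕ} (h : s ≤ t) : cf F x a t ≤ cf F x a s := by
  unfold cf
  rw [Submodule.span_le]
  rintro _ ⟨m, hm, rfl⟩
  exact mev_mem_cf x a (h.trans hm)

theorem cf_mul (x : ι → J) (a : ι → ℕ) {s t : ℕ} {b d : J} (hb : b ∈ cf F x a s)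
    (hd : d ∈ cf F x a t) : b * d ∈ cf F x a (s + t) := by
  unfold cf at hb
  induction hb using Submodule.span_induction with
  | mem y hy =>
    obtain ⟨m, hm, rfl⟩ := hy
    unfold cf at hd
    induction hd using Submodule.span_induction with
    | mem z hz =>
      obtain ⟨m', hm', rfl⟩ := hz
      rw [← mev_mul]
      exact mev_mem_cf x a (by rw [mw_mul]; omega)
    | zero => rw [mul_zero]; exact Submodule.zero_mem _
    | add y z _ _ hy hz => rw [mul_add]; exact Submodule.add_mem _ hy hz
    | smul r y _ hy => rw [mul_smul_comm]; exact Submodule.smul_mem _ r hy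
  | zero => rw [zero_mul]; exact Submodule.zero_mem _
  | add y z _ _ hy hz => rw [add_mul]; exact Submodule.add_mem _ hy hz
  | smul r y _ hy => rw [smul_mul_assoc]; exact Submodule.smul_mem _ r hy

/-- if the values of the monomials span `J`, then `cf s = J` for small `s` -/
theorem cf_top (x : ι → J) (a : ι → ℕ) (hg : ∀ T : Submodule F J, (∀ i, x i ∈ T) →
    (∀ b ∈ T, ∀ d ∈ T, b * d ∈ T) → T = ⊤) {s : ℕ} (hs : ∀ i, s ≤ a i) : cf F x a s = ⊤ := by
  apply hg
  · intro i
    exact mev_mem_cf x a (t := FreeMagma.of i) (hs i)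
  · intro b hb d hd
    exact cf_anti x a (by omega) (cf_mul x a hb hd)

theorem cf_filt {J : Type u} {F : Type v} [NonUnitalNonAssocCommRing J] [Field F] [Module F J]
    [IsScalarTower F J J] [SMulCommClass F J J] (x : ι → J) (a : ι → ℕ) :
    Filt F x a (cf F x a) where
  anti := fun _ _ h => cf_anti x a h
  mul_mem := fun _ _ _ hp _ hq => cf_mul x a hp hq
  mem := fun i => mev_mem_cf x a (t := FreeMagma.of i) le_rfl

/-- a linear map that kills the monomials of weight at least `s` kills `cf s` -/
theorem cf_le {T : Submodule F J} (x : ι → J) (a : ι → ℕ) {s : ℕ}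
    (h : ∀ t : FreeMagma ι, s ≤ mw a t → mev x t ∈ T) : cf F x a s ≤ T := by
  unfold cf
  rw [Submodule.span_le]
  rintro _ ⟨t, ht, rfl⟩
  exact h t ht

/-- the degree -/
abbrev dg {ι : Type} (t : FreeMagma ι) : ℕ := mw (fun _ => 1) t

theorem mev_mem_jpow (x : ι → J) (t : FreeMagma ι) : mev x t ∈ jpow F J (dg t) := by
  induction t with
  | ih1 i => change x i ∈ jpow F J 1; rw [jpow_one]; exact Submodule.mem_top
  | ih2 s t ihs iht =>
    rw [mev_mul, dg, mw_mul]
    exact mul_mem_jpow ihs iht

/-- `J^k` is spanned by the monomials of degree at least `k` -/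
theorem jpow_eq_cf (x : ι → J) (hg : ∀ T : Submodule F J, (∀ i, x i ∈ T) →
    (∀ b ∈ T, ∀ d ∈ T, b * d ∈ T) → T = ⊤) {k : ℕ} (hk : 1 ≤ k) :
    jpow F J k = cf F x (fun _ => 1) k := by
  apply le_antisymm
  · induction k using Nat.strong_induction_on with
    | _ k ih =>
      rcases Nat.lt_or_ge k 2 with h | h
      · obtain rfl : k = 1 := by omega
        rw [cf_top x _ hg (fun _ => le_rfl)]
        exact le_top
      · refine jpow_le_of h _ fun i j hi hj hij b hb d hd => ?_
        have := cf_mul x (fun _ => 1) (ih i (by omega) hi hb) (ih j (by omega) hj hd)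
        rwa [hij] at this
  · refine cf_le x _ fun t ht => ?_
    exact jpow_anti ht (mev_mem_jpow x t)

theorem mev_map {J' : Type u} [NonUnitalNonAssocCommRing J'] (g : J → J')
    (hg : ∀ a b, g (a * b) = g a * g b) (x : ι → J) (t : FreeMagma ι) :
    g (mev x t) = mev (fun i => g (x i)) t := by
  induction t with
  | ih1 i => rfl
  | ih2 s t ihs iht => rw [mev_mul, hg, ihs, iht]; rfl

end basic

end JD
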