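import Pool.Agent.H9.JP.Core5

set_option autoImplicit false
set_option linter.unusedSectionVars false

/-!
# JP Step6: class 6: monomials of degree 5 with at least three letters other than `x 0` vanish
-/

namespace JD

universe u

open Module

section CQ

variable {F : Type u} [Field F] {J : Type u} [NonUnitalNonAssocCommRing J] [Module F J]
  [IsScalarTower F J J] [SMulCommClass F J J]
  {m : ℕ} {x : Fin (m + 1) → J} {p r A0 B0 N : ℕ} {A : Type u}
  [NonUnitalNonAssocCommRing A] [Module F A] [IsScalarTower F A A] [SMulCommClass F A A]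
  {D : ℕ → Submodule F A} {π : ℕ → J →ₗ[F] A} {z : Fin (m + 1) → A}

/-- the bidegree of a nonzero monomial of given weight -/
theorem CQ.bi (h : CQ F x p r A0 B0 N A D π z) {t : FreeMagma (Fin (m + 1))}
    (ht : mev z t ≠ 0) {a b : ℕ} (ha : a ≤ A0) (hb : b ≤ B0)
    (hw : mw (lw p r) t = p * a + r * b) : mw (lw 1 0) t = a ∧ mw (lw 0 1) t = b := by
  have h1 := h.bideg ht
  rw [mw_lw] at hw
  obtain ⟨a', ha'⟩ := Nat.exists_eq_add_of_le ha
  obtain ⟨b', hb'⟩ := Nat.exists_eq_add_of_le hb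
  have hs := h.sum
  have := h.uniq (mw (lw 1 0) t + a') (mw (lw 0 1) t + b') (by
    rw [ha', hb'] at hs
    rw [mul_add, mul_add] at hs ⊢
    omega)
  omega

/-- layers of degree at least 2 are spanned by products -/
theorem CQ.prod (h : CQ F x p r A0 B0 N A D π z) {a b : ℕ} (ha : a ≤ A0) (hb : b ≤ B0)
    (hab : 2 ≤ a + b) (T : Submodule F A)
    (hT : ∀ a1 b1 a2 b2, a1 + a2 = a → b1 + b2 = b → 1 ≤ a1 + b1 → 1 ≤ a2 + b2 →
      ∀ v ∈ D (p * a1 + r * b1), ∀ w ∈ D (p * a2 + r * b2), v * w ∈ T) :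
    D (p * a + r * b) ≤ T := by
  have hone := h.one
  have hlt := h.lt
  refine h.le _ ?_ T fun t ht => ?_
  · rcases Nat.eq_zero_or_pos a with h0 | h0
    · have : 1 * 1 ≤ r * b := Nat.mul_le_mul (by omega) (by omega)
      omega
    · have : 1 * 1 ≤ p * a := Nat.mul_le_mul (by omega) (by omega)
      omega
  · by_cases h0 : mev z t = 0
    · rw [h0]; exact Submodule.zero_mem _
    · obtain ⟨h1, h3⟩ := h.bi h0 ha hb ht
      cases t with
      | of i =>
        exfalso
        have e1 : mw (lw 1 0) (FreeMagma.of i) ≤ 1 ∧ mw (lw 0 1) (FreeMagma.of i) ≤ 1 ∧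
            mw (lw 1 0) (FreeMagma.of i) + mw (lw 0 1) (FreeMagma.of i) = 1 := by
          rw [mw_of, mw_of]
          unfold lw
          split_ifs <;> omega
        omega
      | mul s t =>
        change mw (lw 1 0) s + mw (lw 1 0) t = a at h1
        change mw (lw 0 1) s + mw (lw 0 1) t = b at h3
        have ds := dg_lw s
        have dt := dg_lw t
        have ds1 : 1 ≤ dg s := mw_pos _ (fun _ => le_rfl) s
        have dt1 : 1 ≤ dg t := mw_pos _ (fun _ => le_rfl) t
        refine hT _ _ _ _ h1 h3 (by omega) (by omega) (mev z s) ?_ (mev z t) ?_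
        · rw [← mw_lw]; exact h.mem s
        · rw [← mw_lw]; exact h.mem t

theorem CQ.dim' (h : CQ F x p r A0 B0 N A D π z) (s s' : ℕ) (hs : s' = s + 1) (h1 : 1 ≤ s) :
    finrank F (D s) + finrank F (cf F x (lw p r) s') ≤ finrank F (cf F x (lw p r) s) := by
  rw [hs]
  exact h.dim s h1

/-- the letter 0 spans its layer -/
theorem CQ.y_span (h : CQ F x p r A0 B0 N A D π z) (hA : 1 ≤ A0) :
    D p ≤ Submodule.span F {z 0} := by
  refine h.le p h.one _ fun t ht => ?_
  by_cases h0 : mev z t = 0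
  · rw [h0]; exact Submodule.zero_mem _
  · obtain ⟨h1, h3⟩ := h.bi (a := 1) (b := 0) h0 hA (Nat.zero_le _) (by omega)
    cases t with
    | of i =>
      rw [mw_of] at h1
      unfold lw at h1
      split_ifs at h1 with hi
      · subst hi
        exact Submodule.mem_span_singleton_self _
    | mul s t =>
      exfalso
      change mw (lw 1 0) s + mw (lw 1 0) t = 1 at h1
      change mw (lw 0 1) s + mw (lw 0 1) t = 0 at h3
      have ds := dg_lw s
      have dt := dg_lw t
      have ds1 : 1 ≤ dg s := mw_pos _ (fun _ => le_rfl) s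
      have dt1 : 1 ≤ dg t := mw_pos _ (fun _ => le_rfl) t
      omega

end CQ

/-- class 6, the graded algebra of the powers is generated by one element -/
structure S6 (F : Type u) [Field F] {J : Type u} [NonUnitalNonAssocCommRing J] [Module F J]
    [IsScalarTower F J J] [SMulCommClass F J J] {m : ℕ} (x : Fin (m + 1) → J) (e : J) :
    Prop where
  two : (2 : F) ≠ 0
  jordan : IsJordan J
  inf : Infinite F
  fin : Module.Finite F J
  ne : e ≠ 0
  bot : jpow F J 7 = ⊥
  gen : ∀ T : Submodule F J, (∀ i, x i ∈ T) → (∀ b ∈ T, ∀ d ∈ T, b * d ∈ T) → T = ⊤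
  six : ∀ t, dg t = 6 → 1 ≤ mw (lw 0 1) t → mev x t = 0
  five : ∀ t, dg t = 5 → 1 ≤ mw (lw 0 1) t → ∃ k : F, mev x t = k • e
  pow : xp (x 0) 6 ≠ 0
  d2 : finrank F (jpow F J 2) ≤ 7

section S6

variable {F : Type u} [Field F] {J : Type u} [NonUnitalNonAssocCommRing J] [Module F J]
  [IsScalarTower F J J] [SMulCommClass F J J] {m : ℕ} {x : Fin (m + 1) → J} {e : J}

theorem S6.seven (h : S6 F x e) (t : FreeMagma (Fin (m + 1))) (ht : 7 ≤ dg t) : mev x t = 0 := by
  have := jpow_anti ht (mev_mem_jpow (F := F) x t)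
  rw [h.bot] at this
  exact (Submodule.mem_bot F).1 this

/-- `x^i` is not in `cf s` if all monomials of weight at least `s` have degree larger than `i`, or
degree `i` and a letter other than `x 0` -/
theorem S6.notMem (h : S6 F x e) (a : Fin (m + 1) → ℕ) {i s : ℕ} (hi : 1 ≤ i) (hi5 : i ≤ 5)
    (hs : ∀ t : FreeMagma (Fin (m + 1)), s ≤ mw a t → i < dg t ∨ (dg t = i ∧ 1 ≤ mw (lw 0 1) t)) :
    xp (x 0) i ∉ cf F x a s := by
  intro hmem
  have hle : cf F x a s ≤ LinearMap.ker (LinearMap.mulLeft F (xp (x 0) (6 - i))) := by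
    refine cf_le x a fun t ht => ?_
    rw [LinearMap.mem_ker, LinearMap.mulLeft_apply]
    obtain ⟨k, hk⟩ : ∃ k, 6 - i = k + 1 := ⟨5 - i, by omega⟩
    have e1 : xp (x 0) (6 - i) = mev x (pm k) := by rw [mev_pm, hk]
    have hdk : dg (pm k : FreeMagma (Fin (m + 1))) = k + 1 := by
      rw [dg, mw_pm, mul_one]
    rw [e1, ← mev_mul]
    have hd : dg (pm k * t) = k + 1 + dg t := by
      change dg (pm k : FreeMagma (Fin (m + 1))) + dg t = _
      rw [hdk]
    rcases hs t ht with h1 | ⟨h1, h3⟩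
    · exact h.seven _ (by omega)
    · refine h.six _ (by omega) ?_
      change 1 ≤ mw (lw 0 1) (pm k : FreeMagma (Fin (m + 1))) + mw (lw 0 1) t
      omega
  have h1 := hle hmem
  rw [LinearMap.mem_ker, LinearMap.mulLeft_apply, xp_mul F h.two h.jordan _ (by omega) hi,
    show 6 - i + i = 6 by omega] at h1
  exact h.pow h1

theorem S6.strict (h : S6 F x e) (p r : ℕ) {i : ℕ} (hi : 1 ≤ i)
    (hn : xp (x 0) i ∉ cf F x (lw p r) (p * i + 1)) :
    finrank F (cf F x (lw p r) (p * i + 1)) + 1 ≤ finrank F (cf F x (lw p r) (p * i)) := by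
  have := h.fin
  refine Nat.succ_le_of_lt (Submodule.finrank_lt_finrank_of_lt (lt_of_le_of_ne
    (cf_anti x _ (Nat.le_succ _)) fun heq => hn ?_))
  rw [heq]
  obtain ⟨k, rfl⟩ : ∃ k, i = k + 1 := ⟨i - 1, by omega⟩
  rw [← mev_pm]
  refine mev_mem_cf x _ ?_
  rw [mw_pm]
  unfold lw
  rw [if_pos rfl, mul_comm]

theorem S6.strict' (h : S6 F x e) (p r s s' i : ℕ) (hs : s = p * i) (hs' : s' = p * i + 1)
    (hi : 1 ≤ i) (hn : xp (x 0) i ∉ cf F x (lw p r) (p * i + 1)) :
    finrank F (cf F x (lw p r) s') + 1 ≤ finrank F (cf F x (lw p r) s) := by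
  rw [hs, hs']
  exact h.strict p r hi hn

theorem S6.mono (h : S6 F x e) (a : Fin (m + 1) → ℕ) {s t : ℕ} (hst : s ≤ t) :
    finrank F (cf F x a t) ≤ finrank F (cf F x a s) := by
  have := h.fin
  exact Submodule.finrank_mono (cf_anti x a hst)

theorem S6.two_le (h : S6 F x e) (p r : ℕ) (hpr : p < r) {s : ℕ} (hs : r < s) :
    finrank F (cf F x (lw p r) s) ≤ 7 := by
  have := h.fin
  refine (Submodule.finrank_mono ?_).trans h.d2
  refine cf_le x _ fun t ht => ?_
  refine jpow_anti ?_ (mev_mem_jpow x t)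
  cases t with
  | of i =>
    exfalso
    have : mw (lw p r) (FreeMagma.of i) ≤ r := by
      rw [mw_of]
      unfold lw
      split_ifs <;> omega
    omega
  | mul s t =>
    have h1 : 1 ≤ dg s := mw_pos _ (fun _ => le_rfl) s
    have h3 : 1 ≤ dg t := mw_pos _ (fun _ => le_rfl) t
    change 2 ≤ dg s + dg t
    omega

/-- no monomials in five letters other than `x 0` -/
theorem S6.step05 (h : S6 F x e) (t : FreeMagma (Fin (m + 1))) (hd : dg t = 5)
    (hW : mw (lw 0 1) t = 5) : mev x t = 0 := by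
  have := h.fin
  have := h.inf
  by_contra hne
  have hdt : ∀ t : FreeMagma (Fin (m + 1)), dg t = mw (lw 1 0) t + mw (lw 0 1) t := dg_lw
  have hwt : ∀ t : FreeMagma (Fin (m + 1)),
      mw (lw 9 11) t = 9 * mw (lw 1 0) t + 11 * mw (lw 0 1) t := mw_lw 9 11
  obtain ⟨A, i1, i2, i3, i4, D, π, z, hC⟩ := exists_CQ h.two h.jordan x h.gen 9 11 0 5 55
    (by norm_num) (by norm_num) (by norm_num) (by norm_num) (by omega) h.ne
    (fun t ht => by
      have h1 := hdt t
      have h3 := hwt t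
      rcases Nat.lt_or_ge (dg t) 7 with h7 | h7
      · exact h.six t (by omega) (by omega)
      · exact h.seven t h7)
    (fun t ht => by
      have h1 := hdt t
      have h3 := hwt t
      exact h.five t (by omega) (by omega))
    ⟨t, by
      have h1 := hdt t
      have h3 := hwt t
      omega, hne⟩
  obtain ⟨f, hf, f2, f4, f3, -⟩ := hC.five (by norm_num)
  have hnm : ∀ i, 2 ≤ i → i ≤ 5 → xp (x 0) i ∉ cf F x (lw 9 11) (9 * i + 1) := by
    intro i hi hi'
    refine h.notMem _ (by omega) hi' fun t ht => ?_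
    have h1 := hdt t
    have h3 := hwt t
    omega
  have s2 := h.strict' 9 11 18 19 2 rfl rfl (by norm_num) (hnm 2 (by norm_num) (by norm_num))
  have s3 := h.strict' 9 11 27 28 3 rfl rfl (by norm_num) (hnm 3 (by norm_num) (by norm_num))
  have s4 := h.strict' 9 11 36 37 4 rfl rfl (by norm_num) (hnm 4 (by norm_num) (by norm_num))
  have s5 := h.strict' 9 11 45 46 5 rfl rfl (by norm_num) (hnm 5 (by norm_num) (by norm_num))
  have c22 := hC.dim' 22 23 rfl (by norm_num)
  have c33 := hC.dim' 33 34 rfl (by norm_num)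
  have c44 := hC.dim' 44 45 rfl (by norm_num)
  have c55 := hC.dim' 55 56 rfl (by norm_num)
  rw [hC.gf.top] at c55
  have m1 := h.two_le 9 11 (by norm_num) (s := 18) (by norm_num)
  have m2 := h.mono (lw 9 11) (s := 19) (t := 22) (by norm_num)
  have m3 := h.mono (lw 9 11) (s := 23) (t := 27) (by norm_num)
  have m4 := h.mono (lw 9 11) (s := 28) (t := 33) (by norm_num)
  have m5 := h.mono (lw 9 11) (s := 34) (t := 36) (by norm_num)
  have m6 := h.mono (lw 9 11) (s := 37) (t := 44) (by norm_num)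
  have m7 := h.mono (lw 9 11) (s := 45) (t := 45) (by norm_num)
  have m8 := h.mono (lw 9 11) (s := 46) (t := 55) (by norm_num)
  have g2 := hf 2 (by norm_num) (D 22) (fun t ht => by
    by_cases h0 : mev z t = 0
    · rw [h0]; exact Submodule.zero_mem _
    · have hb := hC.bideg h0
      have h1 := hdt t
      have h3 := hwt t
      have := hC.mem t
      rwa [show mw (lw 9 11) t = 22 by omega] at this)
  have g3 := hf 3 (by norm_num) (D 33) (fun t ht => by
    by_cases h0 : mev z t = 0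
    · rw [h0]; exact Submodule.zero_mem _
    · have hb := hC.bideg h0
      have h1 := hdt t
      have h3 := hwt t
      have := hC.mem t
      rwa [show mw (lw 9 11) t = 33 by omega] at this)
  have g4 := hf 4 (by norm_num) (D 44) (fun t ht => by
    by_cases h0 : mev z t = 0
    · rw [h0]; exact Submodule.zero_mem _
    · have hb := hC.bideg h0
      have h1 := hdt t
      have h3 := hwt t
      have := hC.mem t
      rwa [show mw (lw 9 11) t = 44 by omega] at this)
  omega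

/-- dimension of a sum -/
theorem finrank_sup2 {A : Type u} [AddCommGroup A] [Module F A] [Module.Finite F A]
    (S T : Submodule F A) : finrank F (S ⊔ T : Submodule F A) ≤ finrank F S + finrank F T :=
  Submodule.finrank_add_le_finrank_add_finrank S T

/-- no monomials in `x 0` and four other letters -/
theorem S6.step14 (h : S6 F x e) (t : FreeMagma (Fin (m + 1))) (hd : dg t = 5)
    (hW : mw (lw 0 1) t = 4) : mev x t = 0 := by
  have := h.fin
  have := h.inf
  by_contra hne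
  have hdt : ∀ t : FreeMagma (Fin (m + 1)), dg t = mw (lw 1 0) t + mw (lw 0 1) t := dg_lw
  have hwt : ∀ t : FreeMagma (Fin (m + 1)),
      mw (lw 7 9) t = 7 * mw (lw 1 0) t + 9 * mw (lw 0 1) t := mw_lw 7 9
  obtain ⟨A, i1, i2, i3, i4, D, π, z, hC⟩ := exists_CQ h.two h.jordan x h.gen 7 9 1 4 43
    (by norm_num) (by norm_num) (by norm_num) (by norm_num) (by omega) h.ne
    (fun t ht => by
      have h1 := hdt t
      have h3 := hwt t
      rcases Nat.lt_or_ge (dg t) 7 with h7 | h7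
      · rcases Nat.lt_or_ge (dg t) 6 with h6 | h6
        · exact h.step05 t (by omega) (by omega)
        · exact h.six t (by omega) (by omega)
      · exact h.seven t h7)
    (fun t ht => by
      have h1 := hdt t
      have h3 := hwt t
      exact h.five t (by omega) (by omega))
    ⟨t, by
      have h1 := hdt t
      have h3 := hwt t
      omega, hne⟩
  have hfinA := hC.gf.fin
  obtain ⟨f, hf, f2, f4, -, f3⟩ := hC.five (by norm_num)
  have hnm : ∀ i, 2 ≤ i → i ≤ 4 → xp (x 0) i ∉ cf F x (lw 7 9) (7 * i + 1) := by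
    intro i hi hi'
    refine h.notMem _ (by omega) (by omega) fun t ht => ?_
    have h1 := hdt t
    have h3 := hwt t
    omega
  have s2 := h.strict' 7 9 14 15 2 rfl rfl (by norm_num) (hnm 2 (by norm_num) (by norm_num))
  have s3 := h.strict' 7 9 21 22 3 rfl rfl (by norm_num) (hnm 3 (by norm_num) (by norm_num))
  have s4 := h.strict' 7 9 28 29 4 rfl rfl (by norm_num) (hnm 4 (by norm_num) (by norm_num))
  have c16 := hC.dim' 16 17 rfl (by norm_num)
  have c18 := hC.dim' 18 19 rfl (by norm_num)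
  have c25 := hC.dim' 25 26 rfl (by norm_num)
  have c27 := hC.dim' 27 28 rfl (by norm_num)
  have c34 := hC.dim' 34 35 rfl (by norm_num)
  have c36 := hC.dim' 36 37 rfl (by norm_num)
  have c43 := hC.dim' 43 44 rfl (by norm_num)
  rw [hC.gf.top] at c43
  have m1 := h.two_le 7 9 (by norm_num) (s := 14) (by norm_num)
  have m2 := h.mono (lw 7 9) (s := 15) (t := 16) (by norm_num)
  have m3 := h.mono (lw 7 9) (s := 17) (t := 18) (by norm_num)
  have m4 := h.mono (lw 7 9) (s := 19) (t := 21) (by norm_num)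
  have m5 := h.mono (lw 7 9) (s := 22) (t := 25) (by norm_num)
  have m6 := h.mono (lw 7 9) (s := 26) (t := 27) (by norm_num)
  have m7 := h.mono (lw 7 9) (s := 29) (t := 34) (by norm_num)
  have m8 := h.mono (lw 7 9) (s := 35) (t := 36) (by norm_num)
  have m9 := h.mono (lw 7 9) (s := 37) (t := 43) (by norm_num)
  have g2 := (hf 2 (by norm_num) (D 16 ⊔ D 18) (fun t ht => by
    by_cases h0 : mev z t = 0
    · rw [h0]; exact Submodule.zero_mem _
    · have hb := hC.bideg h0
      have h1 := hdt t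
      have h3 := hwt t
      have := hC.mem t
      rcases Nat.lt_or_ge (mw (lw 1 0) t) 1 with hc | hc
      · rw [show mw (lw 7 9) t = 18 by omega] at this
        exact Submodule.mem_sup_right this
      · rw [show mw (lw 7 9) t = 16 by omega] at this
        exact Submodule.mem_sup_left this)).trans (finrank_sup2 _ _)
  have g3 := (hf 3 (by norm_num) (D 25 ⊔ D 27) (fun t ht => by
    by_cases h0 : mev z t = 0
    · rw [h0]; exact Submodule.zero_mem _
    · have hb := hC.bideg h0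
      have h1 := hdt t
      have h3 := hwt t
      have := hC.mem t
      rcases Nat.lt_or_ge (mw (lw 1 0) t) 1 with hc | hc
      · rw [show mw (lw 7 9) t = 27 by omega] at this
        exact Submodule.mem_sup_right this
      · rw [show mw (lw 7 9) t = 25 by omega] at this
        exact Submodule.mem_sup_left this)).trans (finrank_sup2 _ _)
  have g4 := (hf 4 (by norm_num) (D 34 ⊔ D 36) (fun t ht => by
    by_cases h0 : mev z t = 0
    · rw [h0]; exact Submodule.zero_mem _
    · have hb := hC.bideg h0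
      have h1 := hdt t
      have h3 := hwt t
      have := hC.mem t
      rcases Nat.lt_or_ge (mw (lw 1 0) t) 1 with hc | hc
      · rw [show mw (lw 7 9) t = 36 by omega] at this
        exact Submodule.mem_sup_right this
      · rw [show mw (lw 7 9) t = 34 by omega] at this
        exact Submodule.mem_sup_left this)).trans (finrank_sup2 _ _)
  have f3' := f3 (by norm_num) (by norm_num) (by omega)
  omega

/-- a power of `x 0` of higher weight than expected gives a nonzero layer -/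
theorem S6.coin (h : S6 F x e) {p r A0 B0 N : ℕ} {A : Type u}
    [NonUnitalNonAssocCommRing A] [Module F A] [IsScalarTower F A A] [SMulCommClass F A A]
    {D : ℕ → Submodule F A} {π : ℕ → J →ₗ[F] A} {z : Fin (m + 1) → A}
    (hC : CQ F x p r A0 B0 N A D π z) {i j s w : ℕ} (hi : 1 ≤ i) (hj : 1 ≤ j) (hij : j + i = 6)
    (hs : 1 ≤ s) (hw : w = p * j) (hN : w + s = N) (hx : xp (x 0) i ∈ cf F x (lw p r) s) :
    1 ≤ finrank F (D s) := by
  have := hC.gf.fin
  rw [Nat.one_le_iff_ne_zero]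
  intro h0
  have hD : D s = ⊥ := Submodule.finrank_eq_zero.1 h0
  have h1 : π s (xp (x 0) i) = 0 := by
    have h3 : π s (xp (x 0) i) ∈ D s := by
      rw [← hC.map s hs]
      exact Submodule.mem_map_of_mem hx
    rw [hD] at h3
    exact (Submodule.mem_bot F).1 h3
  have hxj : xp (x 0) j ∈ cf F x (lw p r) w := by
    obtain ⟨k, rfl⟩ : ∃ k, j = k + 1 := ⟨j - 1, by omega⟩
    rw [← mev_pm]
    refine mev_mem_cf x _ ?_
    rw [mw_pm, hw]
    unfold lw
    rw [if_pos rfl, mul_comm]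
  have hw1 : 1 ≤ w := by
    rw [hw]
    exact Nat.mul_pos hC.one hj
  have h3 := hC.mul w s hw1 hs _ hxj _ hx
  rw [h1, mul_zero, xp_mul F h.two h.jordan _ hj hi, hij, hN] at h3
  refine h.pow (hC.inj _ ?_ h3)
  have h4 := cf_mul x _ hxj hx
  rwa [xp_mul F h.two h.jordan _ hj hi, hij, hN] at h4

section L

variable {A : Type u} [NonUnitalNonAssocCommRing A] [Module F A] [IsScalarTower F A A]
  [SMulCommClass F A A] {D : ℕ → Submodule F A} {π : ℕ → J →ₗ[F] A} {z : Fin (m + 1) → A}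

private theorem z0 {D : ℕ → Submodule F A} {s : ℕ} (h : D s = ⊥) {a : A} (ha : a ∈ D s) :
    a = 0 := by
  rw [h] at ha
  exact (Submodule.mem_bot F).1 ha

theorem L2a (hC : CQ F x 5 7 2 3 31 A D π z) (h14 : D 14 = ⊥) : D 21 = ⊥ := by
  rw [eq_bot_iff]
  refine hC.prod (a := 0) (b := 3) (by norm_num) (by norm_num) (by norm_num) _ ?_
  intro a1 b1 a2 b2 ha hb h1 h2 v hv w hw
  obtain ⟨rfl, rfl⟩ : a1 = 0 ∧ a2 = 0 := by omega
  obtain ⟨rfl, rfl⟩ | ⟨rfl, rfl⟩ : (b1 = 1 ∧ b2 = 2) ∨ (b1 = 2 ∧ b2 = 1) := by omega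
  · rw [z0 h14 hw, mul_zero]; exact Submodule.zero_mem _
  · rw [z0 h14 hv, zero_mul]; exact Submodule.zero_mem _

theorem L19 (hC : CQ F x 5 7 2 3 31 A D π z) (h12 : D 12 = ⊥) (T : Submodule F A)
    (hT : ∀ y ∈ D 5, ∀ q ∈ D 14, y * q ∈ T) : D 19 ≤ T := by
  refine hC.prod (a := 1) (b := 2) (by norm_num) (by norm_num) (by norm_num) _ ?_
  intro a1 b1 a2 b2 ha hb h1 h2 v hv w hw
  obtain ⟨rfl, rfl, rfl, rfl⟩ | ⟨rfl, rfl, rfl, rfl⟩ | ⟨rfl, rfl, rfl, rfl⟩ | ⟨rfl, rfl, rfl, rfl⟩ :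
      (a1 = 1 ∧ b1 = 0 ∧ a2 = 0 ∧ b2 = 2) ∨ (a1 = 0 ∧ b1 = 1 ∧ a2 = 1 ∧ b2 = 1) ∨
      (a1 = 1 ∧ b1 = 1 ∧ a2 = 0 ∧ b2 = 1) ∨ (a1 = 0 ∧ b1 = 2 ∧ a2 = 1 ∧ b2 = 0) := by omega
  · exact hT v hv w hw
  · rw [z0 h12 hw, mul_zero]; exact Submodule.zero_mem _
  · rw [z0 h12 hv, zero_mul]; exact Submodule.zero_mem _
  · rw [mul_comm]; exact hT w hw v hv

theorem L26 (hC : CQ F x 5 7 2 3 31 A D π z) (h12 : D 12 = ⊥) (T : Submodule F A)
    (hT : ∀ y ∈ D 5, ∀ h ∈ D 21, y * h ∈ T) (hT' : ∀ w ∈ D 7, ∀ k ∈ D 19, w * k ∈ T) :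
    D 26 ≤ T := by
  refine hC.prod (a := 1) (b := 3) (by norm_num) (by norm_num) (by norm_num) _ ?_
  intro a1 b1 a2 b2 ha hb h1 h2 v hv w hw
  obtain ⟨rfl, rfl, rfl, rfl⟩ | ⟨rfl, rfl, rfl, rfl⟩ | ⟨rfl, rfl, rfl, rfl⟩ | ⟨rfl, rfl, rfl, rfl⟩ |
      ⟨rfl, rfl, rfl, rfl⟩ | ⟨rfl, rfl, rfl, rfl⟩ :
      (a1 = 1 ∧ b1 = 0 ∧ a2 = 0 ∧ b2 = 3) ∨ (a1 = 0 ∧ b1 = 1 ∧ a2 = 1 ∧ b2 = 2) ∨
      (a1 = 1 ∧ b1 = 1 ∧ a2 = 0 ∧ b2 = 2) ∨ (a1 = 0 ∧ b1 = 2 ∧ a2 = 1 ∧ b2 = 1) ∨
      (a1 = 1 ∧ b1 = 2 ∧ a2 = 0 ∧ b2 = 1) ∨ (a1 = 0 ∧ b1 = 3 ∧ a2 = 1 ∧ b2 = 0) := by omega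
  · exact hT v hv w hw
  · exact hT' v hv w hw
  · rw [z0 h12 hv, zero_mul]; exact Submodule.zero_mem _
  · rw [z0 h12 hw, mul_zero]; exact Submodule.zero_mem _
  · rw [mul_comm]; exact hT' w hw v hv
  · rw [mul_comm]; exact hT w hw v hv

/-- the products `w * q`, `w ∈ D 7`, `q ∈ D 14`, span `D 21` -/
theorem L21 (hC : CQ F x 5 7 2 3 31 A D π z) (T : Submodule F A)
    (hT : ∀ w ∈ D 7, ∀ q ∈ D 14, w * q ∈ T) : D 21 ≤ T := by
  refine hC.prod (a := 0) (b := 3) (by norm_num) (by norm_num) (by norm_num) _ ?_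
  intro a1 b1 a2 b2 ha hb h1 h2 v hv w hw
  obtain ⟨rfl, rfl⟩ : a1 = 0 ∧ a2 = 0 := by omega
  obtain ⟨rfl, rfl⟩ | ⟨rfl, rfl⟩ : (b1 = 1 ∧ b2 = 2) ∨ (b1 = 2 ∧ b2 = 1) := by omega
  · exact hT v hv w hw
  · rw [mul_comm]; exact hT w hw v hv

theorem L14 (hC : CQ F x 5 7 2 3 31 A D π z) (T : Submodule F A)
    (hT : ∀ w ∈ D 7, ∀ w' ∈ D 7, w * w' ∈ T) : D 14 ≤ T := by
  refine hC.prod (a := 0) (b := 2) (by norm_num) (by norm_num) (by norm_num) _ ?_
  intro a1 b1 a2 b2 ha hb h1 h2 v hv w hw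
  obtain ⟨rfl, rfl⟩ : a1 = 0 ∧ a2 = 0 := by omega
  obtain ⟨rfl, rfl⟩ : b1 = 1 ∧ b2 = 1 := by omega
  exact hT v hv w hw

theorem L10 (hC : CQ F x 5 7 2 3 31 A D π z) (T : Submodule F A)
    (hT : ∀ y ∈ D 5, ∀ y' ∈ D 5, y * y' ∈ T) : D 10 ≤ T := by
  refine hC.prod (a := 2) (b := 0) (by norm_num) (by norm_num) (by norm_num) _ ?_
  intro a1 b1 a2 b2 ha hb h1 h2 v hv w hw
  obtain ⟨rfl, rfl⟩ : b1 = 0 ∧ b2 = 0 := by omega
  obtain ⟨rfl, rfl⟩ : a1 = 1 ∧ a2 = 1 := by omega
  exact hT v hv w hw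

/-- `y (R R R) = 0` -/
theorem L3 (hC : CQ F x 5 7 2 3 31 A D π z) (h12 : D 12 = ⊥) :
    ∀ y ∈ D 5, ∀ h ∈ D 21, y * h = 0 := by
  intro y hy
  have yw : ∀ w ∈ D 7, y * w = 0 := fun w hw =>
    z0 h12 (hC.gf.mul_mem 5 7 (by norm_num) (by norm_num) y hy w hw)
  have key : ∀ v ∈ D 7, ∀ q ∈ D 14, y * (v * q) = 0 := by
    intro v hv
    have hle : D 14 ≤ LinearMap.ker (LinearMap.mulLeft F y ∘ₗ LinearMap.mulLeft F v) := by
      refine L14 hC _ fun w hw w' hw' => ?_
      change y * (v * (w * w')) = 0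
      have e := gJ3 F hC.gf.two hC.gf.jordan w w' y v
      rw [yw v hv, mul_comm w' y, yw w' hw', yw w hw] at e
      rw [mul_comm v]
      simpa using e.symm
    exact fun q hq => hle hq
  have hle : D 21 ≤ LinearMap.ker (LinearMap.mulLeft F y) :=
    L21 hC _ fun w hw q hq => key w hw q hq
  exact fun h hh => hle hh

theorem L1 (hC : CQ F x 5 7 2 3 31 A D π z) (h12 : D 12 = ⊥) (h14 : D 14 = ⊥) : D 26 = ⊥ := by
  have h21 := L2a hC h14
  have h19 : D 19 = ⊥ := by
    rw [eq_bot_iff]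
    refine L19 hC h12 _ fun y _ q hq => ?_
    rw [z0 h14 hq, mul_zero]; exact Submodule.zero_mem _
  rw [eq_bot_iff]
  refine L26 hC h12 _ (fun y _ q hq => ?_) (fun w _ q hq => ?_)
  · rw [z0 h21 hq, mul_zero]; exact Submodule.zero_mem _
  · rw [z0 h19 hq, mul_zero]; exact Submodule.zero_mem _

theorem L4 (hC : CQ F x 5 7 2 3 31 A D π z) (h12 : D 12 = ⊥) (h19 : D 19 = ⊥) : D 26 = ⊥ := by
  rw [eq_bot_iff]
  refine L26 hC h12 _ (fun y hy q hq => ?_) (fun w _ q hq => ?_)
  · rw [L3 hC h12 y hy q hq]; exact Submodule.zero_mem _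
  · rw [z0 h19 hq, mul_zero]; exact Submodule.zero_mem _

theorem L5 (hC : CQ F x 5 7 2 3 31 A D π z) (h12 : D 12 = ⊥) (h17 : D 17 = ⊥)
    (h24 : D 24 = ⊥) : D 31 = ⊥ := by
  have h2 := hC.gf.two
  have hJ := hC.gf.jordan
  have hyw : ∀ y ∈ D 5, ∀ w ∈ D 7, y * w = 0 := fun y hy w hw =>
    z0 h12 (hC.gf.mul_mem 5 7 (by norm_num) (by norm_num) y hy w hw)
  have hm10 : ∀ y ∈ D 5, ∀ y' ∈ D 5, y * y' ∈ D 10 := fun y hy y' hy' =>
    hC.gf.mul_mem 5 5 (by norm_num) (by norm_num) y hy y' hy'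
  -- `y² (w q) = 0`
  have k1 : ∀ y ∈ D 5, ∀ y' ∈ D 5, ∀ w ∈ D 7, ∀ q ∈ D 14, (y * y') * (w * q) = 0 := by
    intro y hy y' hy' w hw q hq
    have e := gJ3 F h2 hJ y y' w q
    have e1 : (y * y') * q = 0 :=
      z0 h24 (hC.gf.mul_mem 10 14 (by norm_num) (by norm_num) _ (hm10 y hy y' hy') q hq)
    rw [hyw y' hy' w hw, mul_comm w y, hyw y hy w hw, e1] at e
    simpa using e
  have k2 : ∀ y ∈ D 5, ∀ y' ∈ D 5, ∀ h ∈ D 21, (y * y') * h = 0 := by
    intro y hy y' hy'
    have hle : D 21 ≤ LinearMap.ker (LinearMap.mulLeft F (y * y')) :=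
      L21 hC _ fun w hw q hq => k1 y hy y' hy' w hw q hq
    exact fun h hh => hle hh
  have k3 : ∀ g ∈ D 10, ∀ h ∈ D 21, g * h = 0 := by
    intro g hg h hh
    have hle : D 10 ≤ LinearMap.ker (LinearMap.mulRight F h) :=
      L10 hC _ fun y hy y' hy' => k2 y hy y' hy' h hh
    exact hle hg
  -- `y (w (y q)) = 0`
  have k4 : ∀ y ∈ D 5, ∀ w ∈ D 7, ∀ q ∈ D 14, y * (w * (y * q)) = 0 := by
    intro y hy w hw q hq
    have e := gJ4 F h2 hJ y y w q
    have e1 : (y * y) * w = 0 :=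
      z0 h17 (hC.gf.mul_mem 10 7 (by norm_num) (by norm_num) _ (hm10 y hy y hy) w hw)
    rw [e1, k1 y hy y hy w hw q hq, hyw y hy w hw, zero_mul, zero_mul, add_zero, add_zero,
      zero_sub] at e
    have e3 : (2 : F) • (y * (w * (y * q))) = 0 := by
      rw [two_smul]
      have := congrArg Neg.neg e
      rw [neg_zero] at this
      rw [this]
      abel
    exact (smul_eq_zero.1 e3).resolve_left h2
  -- polarised
  have k5 : ∀ y ∈ D 5, ∀ w ∈ D 7, ∀ k ∈ D 19, y * (w * k) = 0 := by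
    intro y hy w hw
    have hle : D 19 ≤ LinearMap.ker (LinearMap.mulLeft F y ∘ₗ LinearMap.mulLeft F w) := by
      refine L19 hC h12 _ fun y' hy' q hq => ?_
      change y * (w * (y' * q)) = 0
      obtain ⟨k, hk⟩ := Submodule.mem_span_singleton.mp (hC.y_span (by norm_num) hy)
      obtain ⟨l, hl⟩ := Submodule.mem_span_singleton.mp (hC.y_span (by norm_num) hy')
      have hz0 : z 0 ∈ D 5 := hC.mem (FreeMagma.of 0)
      rw [← hk, ← hl, smul_mul_assoc, smul_mul_assoc, mul_smul_comm, mul_smul_comm,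
        k4 (z 0) hz0 w hw q hq, smul_zero, smul_zero]
    exact fun k hk => hle hk
  have k6 : ∀ y ∈ D 5, ∀ g ∈ D 26, y * g = 0 := by
    intro y hy
    have hle : D 26 ≤ LinearMap.ker (LinearMap.mulLeft F y) := by
      refine L26 hC h12 _ (fun y' hy' h hh => ?_) (fun w hw k hk => ?_)
      · rw [L3 hC h12 y' hy' h hh]; exact Submodule.zero_mem _
      · exact k5 y hy w hw k hk
    exact fun g hg => hle hg
  rw [eq_bot_iff]
  refine hC.prod (a := 2) (b := 3) (by norm_num) (by norm_num) (by norm_num) _ ?_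
  intro a1 b1 a2 b2 ha hb h1 h3 v hv w hw
  rw [Submodule.mem_bot]
  have ha1 : a1 ≤ 2 := by omega
  have hb1 : b1 ≤ 3 := by omega
  obtain rfl : a2 = 2 - a1 := by omega
  obtain rfl : b2 = 3 - b1 := by omega
  interval_cases a1 <;> interval_cases b1
  all_goals first
    | (exfalso; omega)
    | rw [z0 h12 hv, zero_mul]
    | rw [z0 h12 hw, mul_zero]
    | rw [z0 h17 hv, zero_mul]
    | rw [z0 h17 hw, mul_zero]
    | rw [z0 h24 hv, zero_mul]
    | rw [z0 h24 hw, mul_zero]
    | exact k3 v hv w hw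
    | (rw [mul_comm]; exact k3 w hw v hv)
    | exact k6 v hv w hw
    | (rw [mul_comm]; exact k6 w hw v hv)

end L

/-- no monomials in `x 0` twice and three other letters -/
theorem S6.step23 (h : S6 F x e) (t : FreeMagma (Fin (m + 1))) (hd : dg t = 5)
    (hW : mw (lw 0 1) t = 3) : mev x t = 0 := by
  have := h.fin
  have := h.inf
  by_contra hne
  have hdt : ∀ t : FreeMagma (Fin (m + 1)), dg t = mw (lw 1 0) t + mw (lw 0 1) t := dg_lw
  have hwt : ∀ t : FreeMagma (Fin (m + 1)),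
      mw (lw 5 7) t = 5 * mw (lw 1 0) t + 7 * mw (lw 0 1) t := mw_lw 5 7
  obtain ⟨A, i1, i2, i3, i4, D, π, z, hC⟩ := exists_CQ h.two h.jordan x h.gen 5 7 2 3 31
    (by norm_num) (by norm_num) (by norm_num) (by norm_num) (by omega) h.ne
    (fun t ht => by
      have h1 := hdt t
      have h3 := hwt t
      rcases Nat.lt_or_ge (dg t) 7 with h7 | h7
      · rcases Nat.lt_or_ge (dg t) 6 with h6 | h6
        · rcases Nat.lt_or_ge (mw (lw 0 1) t) 5 with h8 | h8
          · exact h.step14 t (by omega) (by omega)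
          · exact h.step05 t (by omega) (by omega)
        · exact h.six t (by omega) (by omega)
      · exact h.seven t h7)
    (fun t ht => by
      have h1 := hdt t
      have h3 := hwt t
      exact h.five t (by omega) (by omega))
    ⟨t, by
      have h1 := hdt t
      have h3 := hwt t
      omega, hne⟩
  have hfinA := hC.gf.fin
  obtain ⟨f, hf, f2, f4, -, f3⟩ := hC.five (by norm_num)
  have hnm : ∀ i, 2 ≤ i → i ≤ 3 → xp (x 0) i ∉ cf F x (lw 5 7) (5 * i + 1) := by
    intro i hi hi'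
    refine h.notMem _ (by omega) (by omega) fun t ht => ?_
    have h1 := hdt t
    have h3 := hwt t
    omega
  have s2 := h.strict' 5 7 10 11 2 rfl rfl (by norm_num) (hnm 2 (by norm_num) (by norm_num))
  have s3 := h.strict' 5 7 15 16 3 rfl rfl (by norm_num) (hnm 3 (by norm_num) (by norm_num))
  obtain ⟨s20, s4, hs20⟩ : ∃ s20, finrank F (cf F x (lw 5 7) 21) + s20 ≤
      finrank F (cf F x (lw 5 7) 20) ∧ (s20 = 1 ∨ 1 ≤ finrank F (D 21)) := by
    by_cases hx : xp (x 0) 4 ∈ cf F x (lw 5 7) (5 * 4 + 1)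
    · exact ⟨0, h.mono (lw 5 7) (by norm_num), Or.inr (h.coin hC (i := 4) (j := 2) (s := 21)
        (w := 10) (by norm_num) (by norm_num) (by norm_num) (by norm_num) (by norm_num)
        (by norm_num) hx)⟩
    · exact ⟨1, h.strict' 5 7 20 21 4 rfl rfl (by norm_num) hx, Or.inl rfl⟩
  obtain ⟨s25, s5, hs25⟩ : ∃ s25, finrank F (cf F x (lw 5 7) 26) + s25 ≤
      finrank F (cf F x (lw 5 7) 25) ∧ (s25 = 1 ∨ 1 ≤ finrank F (D 26)) := by
    by_cases hx : xp (x 0) 5 ∈ cf F x (lw 5 7) (5 * 5 + 1)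
    · exact ⟨0, h.mono (lw 5 7) (by norm_num), Or.inr (h.coin hC (i := 5) (j := 1) (s := 26)
        (w := 5) (by norm_num) (by norm_num) (by norm_num) (by norm_num) (by norm_num)
        (by norm_num) hx)⟩
    · exact ⟨1, h.strict' 5 7 25 26 5 rfl rfl (by norm_num) hx, Or.inl rfl⟩
  have c12 := hC.dim' 12 13 rfl (by norm_num)
  have c14 := hC.dim' 14 15 rfl (by norm_num)
  have c17 := hC.dim' 17 18 rfl (by norm_num)
  have c19 := hC.dim' 19 20 rfl (by norm_num)
  have c21 := hC.dim' 21 22 rfl (by norm_num)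
  have c24 := hC.dim' 24 25 rfl (by norm_num)
  have c26 := hC.dim' 26 27 rfl (by norm_num)
  have c31 := hC.dim' 31 32 rfl (by norm_num)
  rw [hC.gf.top] at c31
  have m1 := h.two_le 5 7 (by norm_num) (s := 10) (by norm_num)
  have m2 := h.mono (lw 5 7) (s := 11) (t := 12) (by norm_num)
  have m3 := h.mono (lw 5 7) (s := 13) (t := 14) (by norm_num)
  have m4 := h.mono (lw 5 7) (s := 16) (t := 17) (by norm_num)
  have m5 := h.mono (lw 5 7) (s := 18) (t := 19) (by norm_num)
  have m6 := h.mono (lw 5 7) (s := 22) (t := 24) (by norm_num)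
  have m7 := h.mono (lw 5 7) (s := 27) (t := 31) (by norm_num)
  have hsum : finrank F (D 12) + finrank F (D 14) + finrank F (D 17) + finrank F (D 19) +
      finrank F (D 21) + finrank F (D 24) + finrank F (D 26) + s20 + s25 ≤ 4 := by omega
  clear s2 s3 s4 s5 c12 c14 c17 c19 c21 c24 c26 c31 m1 m2 m3 m4 m5 m6 m7
  have d10 : finrank F (D 10) ≤ 1 := by
    have hle : D 10 ≤ Submodule.span F {z 0 * z 0} := by
      refine L10 hC _ fun y hy y' hy' => ?_
      obtain ⟨k, hk⟩ := Submodule.mem_span_singleton.mp (hC.y_span (by norm_num) hy)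
      obtain ⟨l, hl⟩ := Submodule.mem_span_singleton.mp (hC.y_span (by norm_num) hy')
      rw [← hk, ← hl, smul_mul_smul_comm]
      exact Submodule.smul_mem _ _ (Submodule.mem_span_singleton_self _)
    refine (Submodule.finrank_mono hle).trans ?_
    refine (finrank_span_le_card ({z 0 * z 0} : Set A)).trans ?_
    simp
  have g2 := (hf 2 (by norm_num) ((D 10 ⊔ D 12) ⊔ D 14) (fun t ht => by
    by_cases h0 : mev z t = 0
    · rw [h0]; exact Submodule.zero_mem _
    · have hb := hC.bideg h0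
      have h1 := hdt t
      have h3 := hwt t
      have := hC.mem t
      obtain h4 | h4 | h4 : mw (lw 1 0) t = 0 ∨ mw (lw 1 0) t = 1 ∨ mw (lw 1 0) t = 2 := by omega
      · rw [show mw (lw 5 7) t = 14 by omega] at this
        exact Submodule.mem_sup_right this
      · rw [show mw (lw 5 7) t = 12 by omega] at this
        exact Submodule.mem_sup_left (Submodule.mem_sup_right this)
      · rw [show mw (lw 5 7) t = 10 by omega] at this
        exact Submodule.mem_sup_left (Submodule.mem_sup_left this))).trans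
    ((finrank_sup2 _ _).trans (Nat.add_le_add_right (finrank_sup2 _ _) _))
  have g3 := (hf 3 (by norm_num) ((D 17 ⊔ D 19) ⊔ D 21) (fun t ht => by
    by_cases h0 : mev z t = 0
    · rw [h0]; exact Submodule.zero_mem _
    · have hb := hC.bideg h0
      have h1 := hdt t
      have h3 := hwt t
      have := hC.mem t
      obtain h4 | h4 | h4 : mw (lw 1 0) t = 0 ∨ mw (lw 1 0) t = 1 ∨ mw (lw 1 0) t = 2 := by omega
      · rw [show mw (lw 5 7) t = 21 by omega] at this
        exact Submodule.mem_sup_right this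
      · rw [show mw (lw 5 7) t = 19 by omega] at this
        exact Submodule.mem_sup_left (Submodule.mem_sup_right this)
      · rw [show mw (lw 5 7) t = 17 by omega] at this
        exact Submodule.mem_sup_left (Submodule.mem_sup_left this))).trans
    ((finrank_sup2 _ _).trans (Nat.add_le_add_right (finrank_sup2 _ _) _))
  have g4 := (hf 4 (by norm_num) (D 24 ⊔ D 26) (fun t ht => by
    by_cases h0 : mev z t = 0
    · rw [h0]; exact Submodule.zero_mem _
    · have hb := hC.bideg h0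
      have h1 := hdt t
      have h3 := hwt t
      have := hC.mem t
      obtain h4 | h4 : mw (lw 1 0) t = 1 ∨ mw (lw 1 0) t = 2 := by omega
      · rw [show mw (lw 5 7) t = 26 by omega] at this
        exact Submodule.mem_sup_right this
      · rw [show mw (lw 5 7) t = 24 by omega] at this
        exact Submodule.mem_sup_left this)).trans (finrank_sup2 _ _)
  have f3' := f3 (by norm_num) (by norm_num) (by omega)
  have zb : ∀ s, finrank F (D s) = 0 → D s = ⊥ := fun s hs => Submodule.finrank_eq_zero.1 hs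
  have zf : ∀ s, D s = ⊥ → finrank F (D s) = 0 := fun s hs => by rw [hs, finrank_bot]
  have t31 : finrank F (D 31) = 1 := hC.gf.top
  rcases Nat.eq_zero_or_pos (finrank F (D 21)) with h21 | h21
  · have h26 := zf _ (L1 hC (zb 12 (by omega)) (zb 14 (by omega)))
    omega
  · have h14 : 1 ≤ finrank F (D 14) := by
      rw [Nat.one_le_iff_ne_zero]
      intro h0
      have := zf _ (L2a hC (zb 14 h0))
      omega
    have h12 := zb 12 (by omega)
    rcases Nat.eq_zero_or_pos (finrank F (D 19)) with h19 | h19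
    · have h26 := zf _ (L4 hC h12 (zb 19 h19))
      omega
    · have h31 := zf _ (L5 hC h12 (zb 17 (by omega)) (zb 24 (by omega)))
      omega

/-- all monomials of weight at least 13 (`x 0` of weight 2, the others of weight 3) vanish -/
theorem S6.final (h : S6 F x e) : cf F x (lw 2 3) 13 = ⊥ := by
  rw [eq_bot_iff]
  refine cf_le x _ fun t ht => ?_
  rw [Submodule.mem_bot]
  have h1 : dg t = mw (lw 1 0) t + mw (lw 0 1) t := dg_lw t
  have h3 : mw (lw 2 3) t = 2 * mw (lw 1 0) t + 3 * mw (lw 0 1) t := mw_lw 2 3 t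
  rcases Nat.lt_or_ge (dg t) 7 with h7 | h7
  · rcases Nat.lt_or_ge (dg t) 6 with h6 | h6
    · obtain h4 | h4 | h4 : mw (lw 0 1) t = 3 ∨ mw (lw 0 1) t = 4 ∨ mw (lw 0 1) t = 5 := by omega
      · exact h.step23 t (by omega) h4
      · exact h.step14 t (by omega) h4
      · exact h.step05 t (by omega) h4
    · exact h.six t (by omega) (by omega)
  · exact h.seven t h7

end S6

end JD
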